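import Pool.Agent.PalM.Mix
import Pool.Agent.PalL.Kernel

/-!
# The average of all the Fejér kernels is a majorant
-/

namespace Pool.Agent.PalM

open Finset Pool.Agent.Pal Pool.Agent.PalL

/-- The value of a kernel. -/
lemma phi_mul_sin_avg (m : ℕ) (hm : 0 < m) (x : ℝ) :
    (m : ℝ) * phi m x * |Real.sin (Real.pi * x)| = |Real.sin (Real.pi * (m * x))| := by
  have h1 := dir_mul m x
  have h2 := congrArg norm h1
  rw [norm_mul, norm_ex_sub_one, norm_ex_sub_one] at h2
  have hm0 : (m : ℝ) ≠ 0 := by exact_mod_cast hm.ne'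
  have h3 : ‖dir m x‖ = m * phi m x := by unfold phi; field_simp
  rw [h3] at h2
  linarith

/-- The full sum of squares. -/
lemma hasSum_sin_sq {y : ℝ} (h0 : 0 ≤ y) (h1 : y ≤ Real.pi) :
    HasSum (fun n : ℕ => Real.sin (n * y) ^ 2 / (n : ℝ) ^ 2) (y * (Real.pi - y) / 2) := by
  have hpi := Real.pi_pos
  have hB : ∀ x : ℝ, (Polynomial.map (algebraMap ℚ ℝ) (Polynomial.bernoulli (2 * 1))).eval x =
      x ^ 2 - x + 1 / 6 := by
    intro x
    have : Polynomial.bernoulli 2 = Polynomial.X ^ 2 - Polynomial.X + Polynomial.C (1 / 6) := by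
      rw [Polynomial.bernoulli]
      simp only [Finset.sum_range_succ, Finset.sum_range_zero, zero_add]
      norm_num [bernoulli_zero, bernoulli_one, bernoulli_two, Polynomial.monomial_zero_left]
      rw [Polynomial.monomial_one_right_eq_X_pow, Polynomial.monomial_one_one_eq_X]
      ring
    rw [show 2 * 1 = 2 from rfl, this]
    simp
  have hx : y / Real.pi ∈ Set.Icc (0 : ℝ) 1 :=
    ⟨div_nonneg h0 hpi.le, (div_le_one hpi).mpr h1⟩
  have a1 := hasSum_one_div_nat_pow_mul_cos (k := 1) one_ne_zero hx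
  have a0 := hasSum_one_div_nat_pow_mul_cos (k := 1) one_ne_zero
    (Set.left_mem_Icc.mpr (zero_le_one' ℝ))
  rw [hB] at a1 a0
  have a2 := (a0.sub a1).div_const 2
  have hfun : (fun n : ℕ => Real.sin (n * y) ^ 2 / (n : ℝ) ^ 2) = fun n : ℕ =>
      (1 / (n : ℝ) ^ (2 * 1) * Real.cos (2 * Real.pi * n * 0) -
        1 / (n : ℝ) ^ (2 * 1) * Real.cos (2 * Real.pi * n * (y / Real.pi))) / 2 := by
    funext n
    have e1 : 2 * Real.pi * (n : ℝ) * (y / Real.pi) = 2 * (n * y) := by field_simp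
    rw [e1, mul_zero, Real.cos_zero, Real.cos_two_mul]
    have := Real.sin_sq_add_cos_sq ((n : ℝ) * y)
    have e2 : Real.cos (n * y) ^ 2 = 1 - Real.sin (n * y) ^ 2 := by linarith
    rw [e2]
    ring
  have hval : y * (Real.pi - y) / 2 = ((-1 : ℝ) ^ (1 + 1) * (2 * Real.pi) ^ (2 * 1) / 2 /
      ((2 * 1).factorial : ℝ) * (0 ^ 2 - 0 + 1 / 6) -
        (-1) ^ (1 + 1) * (2 * Real.pi) ^ (2 * 1) / 2 / ((2 * 1).factorial : ℝ) *
          ((y / Real.pi) ^ 2 - y / Real.pi + 1 / 6)) / 2 := by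
    norm_num [Nat.factorial]
    field_simp
    ring
  rw [hfun, hval]
  exact a2

/-- The truncated sum of squares. -/
lemma sum_sin_sq_ge {b : ℕ} (hb : 1 ≤ b) {y : ℝ} (h0 : 0 ≤ y) (h1 : y ≤ Real.pi) :
    y * (Real.pi - y) / 2 - 1 / b ≤
      ∑ m ∈ range b, Real.sin (((m + 1 : ℕ) : ℝ) * y) ^ 2 / (((m + 1 : ℕ) : ℝ)) ^ 2 := by
  have hs := (hasSum_sin_sq h0 h1).tendsto_sum_nat
  have hbr : (0 : ℝ) < b := by exact_mod_cast hb
  have key : ∀ N : ℕ, ∑ n ∈ range (b + 1 + N), Real.sin (n * y) ^ 2 / (n : ℝ) ^ 2 ≤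
      (∑ m ∈ range b, Real.sin (((m + 1 : ℕ) : ℝ) * y) ^ 2 / (((m + 1 : ℕ) : ℝ)) ^ 2) +
        (1 / b - 1 / ((b : ℝ) + N)) := by
    intro N
    induction N with
    | zero =>
      rw [add_zero, Finset.sum_range_succ']
      simp
    | succ N ih =>
      rw [← add_assoc, Finset.sum_range_succ]
      have h2 : Real.sin (((b + 1 + N : ℕ) : ℝ) * y) ^ 2 / (((b + 1 + N : ℕ) : ℝ)) ^ 2 ≤
          1 / ((b : ℝ) + N) - 1 / ((b : ℝ) + (N + 1 : ℕ)) := by
        have h3 := Real.sin_sq_le_one (((b + 1 + N : ℕ) : ℝ) * y)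
        have h4 : (0 : ℝ) < b + N := by positivity
        have h5 : (((b + 1 + N : ℕ) : ℝ)) = (b : ℝ) + N + 1 := by push_cast; ring
        have h6 : ((b : ℝ) + (N + 1 : ℕ)) = (b : ℝ) + N + 1 := by push_cast; ring
        rw [h5, h6]
        rw [h5] at h3
        have h7 : 1 / ((b : ℝ) + N) - 1 / ((b : ℝ) + N + 1) =
            1 / (((b : ℝ) + N) * ((b : ℝ) + N + 1)) := by
          field_simp
          ring
        rw [h7, div_le_div_iff₀ (by positivity) (by positivity), one_mul]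
        nlinarith
      linarith
  have h2 : Filter.Tendsto (fun N => ∑ n ∈ range (b + 1 + N), Real.sin (n * y) ^ 2 / (n : ℝ) ^ 2)
      Filter.atTop (nhds (y * (Real.pi - y) / 2)) := by
    have h3 : Filter.Tendsto (fun N : ℕ => b + 1 + N) Filter.atTop Filter.atTop :=
      Filter.tendsto_atTop_mono (fun N => Nat.le_add_left N (b + 1)) Filter.tendsto_id
    exact hs.comp h3
  have h3 := le_of_tendsto h2 (Filter.Eventually.of_forall fun N => (key N).trans (by
    have : (0 : ℝ) ≤ 1 / ((b : ℝ) + N) := by positivity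
    linarith : _ ≤ (∑ m ∈ range b, Real.sin (((m + 1 : ℕ) : ℝ) * y) ^ 2 /
      (((m + 1 : ℕ) : ℝ)) ^ 2) + 1 / b))
  linarith

/-- The far zone. -/
lemma far_zone {b : ℕ} (hb : 7 ≤ b) {y : ℝ} (h0 : Real.pi ≤ b * y) (h1 : y ≤ Real.pi / 2) :
    Real.sin y ≤
      ∑ m ∈ range b, Real.sin (((m + 1 : ℕ) : ℝ) * y) ^ 2 / (((m + 1 : ℕ) : ℝ)) ^ 2 := by
  have hpi := Real.pi_pos
  have hpi1 := Real.pi_gt_d4
  have hpi2 := Real.pi_lt_d4
  have hbr : (7 : ℝ) ≤ b := by exact_mod_cast hb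
  have hy0 : 0 < y := by
    by_contra h
    push Not at h
    nlinarith
  have h2 := sum_sin_sq_ge (by omega : 1 ≤ b) hy0.le (by linarith : y ≤ Real.pi)
  refine le_trans ?_ h2
  have hb1 : 1 / (b : ℝ) ≤ 1 / 7 := one_div_le_one_div_of_le (by norm_num) hbr
  have hb2 : 1 / (b : ℝ) ≤ y / Real.pi := by
    rw [div_le_div_iff₀ (by linarith) hpi]
    linarith
  rcases le_or_gt y (1 / 2) with h | h
  · have h3 := (Real.sin_lt hy0).le
    have h4 : y / Real.pi ≤ y * 0.3184 := by
      rw [div_le_iff₀ hpi]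
      nlinarith
    nlinarith
  · set t := Real.pi / 2 - y with ht
    have ht0 : 0 ≤ t := by linarith
    have ht1 : t ≤ 1.0708 := by rw [ht]; linarith
    have h3 : Real.sin y = Real.cos t := by rw [ht, Real.cos_pi_div_two_sub]
    have h4 : Real.cos t ≤ 1 - t ^ 2 / 2 + t ^ 4 / 16 := by
      have h5 : Real.cos t = 1 - 2 * Real.sin (t / 2) ^ 2 := by
        have := Real.cos_two_mul' (t / 2)
        have h6 := Real.sin_sq_add_cos_sq (t / 2)
        rw [mul_div_cancel₀ t two_ne_zero] at this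
        linarith
      have h7 := Real.sin_ge_sub_cube (by linarith : 0 ≤ t / 2)
      have h8 : 0 ≤ t / 2 - (t / 2) ^ 3 / 6 := by nlinarith [sq_nonneg t]
      have h9 : (t / 2 - (t / 2) ^ 3 / 6) ^ 2 ≤ Real.sin (t / 2) ^ 2 := pow_le_pow_left₀ h8 h7 2
      rw [h5]
      nlinarith [sq_nonneg t, sq_nonneg (t ^ 2)]
    have h5 : y * (Real.pi - y) / 2 = Real.pi ^ 2 / 8 - t ^ 2 / 2 := by rw [ht]; ring
    rw [h5, h3]
    have h6 : t ^ 4 ≤ 1.3148 := by
      have : t ^ 2 ≤ 1.0708 ^ 2 := pow_le_pow_left₀ ht0 ht1 2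
      nlinarith [sq_nonneg t]
    have h7 : (9.869 : ℝ) ≤ Real.pi ^ 2 := by nlinarith
    linarith

/-- Concavity of the sine. -/
lemma sin_ge_linear {b a y : ℝ} (hb : 0 < b) (ha : 0 ≤ a) (hab : a ≤ b) (hy : 0 ≤ y)
    (hby : b * y ≤ Real.pi) : a * Real.sin (b * y) ≤ b * Real.sin (a * y) := by
  have hc := strictConcaveOn_sin_Icc.concaveOn
  have h1 : (0 : ℝ) ∈ Set.Icc (0 : ℝ) Real.pi := ⟨le_rfl, Real.pi_pos.le⟩
  have h2 : b * y ∈ Set.Icc (0 : ℝ) Real.pi := ⟨by positivity, hby⟩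
  have h3 := hc.2 h2 h1 (by positivity : 0 ≤ a / b)
    (by rw [sub_nonneg, div_le_one hb]; exact hab : 0 ≤ 1 - a / b) (by ring)
  simp only [smul_eq_mul, Real.sin_zero, mul_zero, add_zero] at h3
  have h4 : a / b * (b * y) = a * y := by field_simp
  rw [h4, div_mul_eq_mul_div, div_le_iff₀ hb] at h3
  linarith

/-- The pairing inequality in the near zone. -/
lemma pair_ge {b : ℕ} (hb : 1 ≤ b) {y : ℝ} (hy : 0 ≤ y) (hby : b * y ≤ Real.pi) :
    ∀ m : ℕ, 1 ≤ m → 2 * m ≤ b + 2 →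
      Real.sin y * Real.sin (b * y) * ((m : ℝ) * ((b : ℝ) + 1 - m)) ≤
        b * (Real.sin (m * y) * Real.sin (((b : ℝ) + 1 - m) * y)) := by
  have hbr : (1 : ℝ) ≤ b := by exact_mod_cast hb
  have hsy : 0 ≤ Real.sin y := Real.sin_nonneg_of_nonneg_of_le_pi hy (by nlinarith)
  intro m hm
  induction m, hm using Nat.le_induction with
  | base =>
    intro _
    push_cast
    rw [one_mul, one_mul, add_sub_cancel_right]
    linarith
  | succ m hm ih =>
    intro h2
    have h3 := ih (by omega)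
    have h4 : ((m + 1 : ℕ) : ℝ) = (m : ℝ) + 1 := by push_cast; ring
    rw [h4]
    -- the product identity
    have h5 : Real.sin (((m : ℝ) + 1) * y) * Real.sin (((b : ℝ) + 1 - (m + 1)) * y) =
        Real.sin (m * y) * Real.sin (((b : ℝ) + 1 - m) * y) +
          Real.sin y * Real.sin (((b : ℝ) - 2 * m) * y) := by
      have e1 : ((b : ℝ) + 1 - (m + 1)) * y = ((b : ℝ) + 1 - m) * y - y := by ring
      have e2 : ((m : ℝ) + 1) * y = m * y + y := by ring
      have e3 : ((b : ℝ) - 2 * m) * y = (((b : ℝ) + 1 - m) * y - y) - m * y := by ring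
      rw [e1, e2, e3]
      set A := (m : ℝ) * y
      set B := ((b : ℝ) + 1 - m) * y
      rw [Real.sin_add, Real.sin_sub (B - y) A, Real.sin_sub B y, Real.cos_sub B y]
      have := Real.sin_sq_add_cos_sq y
      have hc : Real.cos y ^ 2 = 1 - Real.sin y ^ 2 := by linarith
      linear_combination (Real.sin A * Real.sin B) * this
    rw [h5]
    have h6 : (0 : ℝ) ≤ (b : ℝ) - 2 * m := by
      have : 2 * m ≤ b := by omega
      have : (2 : ℝ) * m ≤ b := by exact_mod_cast this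
      linarith
    have h7 := sin_ge_linear (b := (b : ℝ)) (a := (b : ℝ) - 2 * m) (by linarith) h6
      (by linarith [(Nat.cast_nonneg m : (0 : ℝ) ≤ m)]) hy hby
    have h8 := mul_le_mul_of_nonneg_left h7 hsy
    nlinarith

/-- The near zone. -/
lemma near_zone {b : ℕ} (hb : 1 ≤ b) {y : ℝ} (hy : 0 ≤ y) (hby : b * y ≤ Real.pi) :
    Real.sin y * Real.sin (b * y) ≤
      ∑ m ∈ range b, Real.sin (((m + 1 : ℕ) : ℝ) * y) ^ 2 / (((m + 1 : ℕ) : ℝ)) ^ 2 := by
  have hbr : (1 : ℝ) ≤ b := by exact_mod_cast hb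
  have hbp : (0 : ℝ) < b := by linarith
  set a : ℕ → ℝ := fun m => Real.sin (((m + 1 : ℕ) : ℝ) * y) / (((m + 1 : ℕ) : ℝ)) with ha
  have h1 : ∀ m ∈ range b, Real.sin (((m + 1 : ℕ) : ℝ) * y) ^ 2 / (((m + 1 : ℕ) : ℝ)) ^ 2 =
      a m ^ 2 := fun m _ => by simp only [ha]; rw [div_pow]
  rw [Finset.sum_congr rfl h1]
  have h2 : ∑ m ∈ range b, a m * a (b - 1 - m) ≤ ∑ m ∈ range b, a m ^ 2 := by
    have e1 : ∑ m ∈ range b, a (b - 1 - m) ^ 2 = ∑ m ∈ range b, a m ^ 2 :=
      Finset.sum_range_reflect (fun m => a m ^ 2) b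
    have e2 : ∑ m ∈ range b, 2 * (a m * a (b - 1 - m)) ≤
        ∑ m ∈ range b, (a m ^ 2 + a (b - 1 - m) ^ 2) :=
      Finset.sum_le_sum fun m _ => by nlinarith [sq_nonneg (a m - a (b - 1 - m))]
    rw [← Finset.mul_sum, Finset.sum_add_distrib, e1] at e2
    linarith
  refine le_trans ?_ h2
  have h3 : ∀ m ∈ range b, Real.sin y * Real.sin (b * y) / b ≤ a m * a (b - 1 - m) := by
    intro m hm
    rw [mem_range] at hm
    have hn : ∀ m : ℕ, m < b → 2 * (m + 1) ≤ b + 2 →
        Real.sin y * Real.sin (b * y) / b ≤ a m * a (b - 1 - m) := by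
      intro m hm h4
      have h5 := pair_ge hb hy hby (m + 1) (by omega) h4
      have e1 : ((b - 1 - m + 1 : ℕ) : ℝ) = (b : ℝ) + 1 - ((m + 1 : ℕ) : ℝ) := by
        have : b - 1 - m + 1 = b - m := by omega
        rw [this, Nat.cast_sub hm.le]
        push_cast
        ring
      simp only [ha]
      rw [e1]
      have h6 : (0 : ℝ) < ((m + 1 : ℕ) : ℝ) := by positivity
      have h7 : (0 : ℝ) < (b : ℝ) + 1 - ((m + 1 : ℕ) : ℝ) := by
        have : ((m + 1 : ℕ) : ℝ) ≤ b := by exact_mod_cast hm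
        linarith
      rw [div_mul_div_comm, div_le_div_iff₀ hbp (by positivity)]
      linarith
    rcases Nat.lt_or_ge (b + 2) (2 * (m + 1)) with h4 | h4
    · have h5 := hn (b - 1 - m) (by omega) (by omega)
      have e1 : b - 1 - (b - 1 - m) = m := by omega
      rw [e1] at h5
      linarith [mul_comm (a m) (a (b - 1 - m))]
    · exact hn m hm h4
  have h4 := Finset.sum_le_sum h3
  rw [sum_const, card_range, nsmul_eq_mul] at h4
  have h5 : (b : ℝ) * (Real.sin y * Real.sin (b * y) / b) = Real.sin y * Real.sin (b * y) := by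
    field_simp
  linarith

/-- The average of all the Fejér kernels is a majorant of the kernel. -/
theorem phi_le_avg {b : ℕ} (hb : 7 ≤ b) (x : ℝ) :
    phi b x ≤ ∑ m ∈ range b, 1 / (b : ℝ) * phi (m + 1) x ^ 2 := by
  have hpi := Real.pi_pos
  have hbp : (0 : ℝ) < b := by
    have : 0 < b := by omega
    exact_mod_cast this
  -- reduction to `0 ≤ t ≤ 1 / 2`
  have key : ∀ t : ℝ, 0 ≤ t → t ≤ 1 / 2 → (∀ m : ℕ, |Real.sin (Real.pi * (m * x))| =
      |Real.sin (Real.pi * (m * t))|) → (t = 0 → ∀ m : ℕ, 0 < m → phi m x = 1) →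
      phi b x ≤ ∑ m ∈ range b, 1 / (b : ℝ) * phi (m + 1) x ^ 2 := by
    intro t ht0 ht1 hsin hint
    rcases ht0.eq_or_lt with h0 | h0
    · have h1 := hint h0.symm
      have h2 : ∀ m ∈ range b, 1 / (b : ℝ) * phi (m + 1) x ^ 2 = 1 / b := by
        intro m _
        rw [h1 (m + 1) (by omega)]
        ring
      rw [Finset.sum_congr rfl h2, sum_const, card_range, nsmul_eq_mul, h1 b (by omega)]
      field_simp
      exact le_rfl
    · set y := Real.pi * t with hy
      have hy0 : 0 < y := by positivity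
      have hy1 : y ≤ Real.pi / 2 := by rw [hy]; nlinarith
      have hs : 0 < Real.sin y := Real.sin_pos_of_pos_of_lt_pi hy0 (by linarith)
      have hx1 : |Real.sin (Real.pi * x)| = Real.sin y := by
        have := hsin 1
        rw [Nat.cast_one, one_mul, one_mul] at this
        rw [this, abs_of_pos hs]
      have hphi : ∀ m : ℕ, 0 < m → phi m x = |Real.sin (m * y)| / (m * Real.sin y) := by
        intro m hm
        have h1 := phi_mul_sin_avg m hm x
        rw [hx1, hsin m] at h1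
        have hmr : (0 : ℝ) < m := by exact_mod_cast hm
        rw [eq_div_iff (by positivity)]
        have e1 : Real.pi * (m * t) = m * y := by rw [hy]; ring
        rw [e1] at h1
        linarith
      have h1 : ∀ m ∈ range b, 1 / (b : ℝ) * phi (m + 1) x ^ 2 = 1 / (b * Real.sin y ^ 2) *
          (Real.sin (((m + 1 : ℕ) : ℝ) * y) ^ 2 / (((m + 1 : ℕ) : ℝ)) ^ 2) := by
        intro m _
        rw [hphi (m + 1) (by omega), div_pow, sq_abs]
        have : (0 : ℝ) < ((m + 1 : ℕ) : ℝ) := by positivity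
        field_simp
      rw [Finset.sum_congr rfl h1, ← Finset.mul_sum, hphi b (by omega)]
      have h2 : Real.sin y * |Real.sin (b * y)| ≤
          ∑ m ∈ range b, Real.sin (((m + 1 : ℕ) : ℝ) * y) ^ 2 / (((m + 1 : ℕ) : ℝ)) ^ 2 := by
        rcases le_or_gt ((b : ℝ) * y) Real.pi with h | h
        · rw [abs_of_nonneg (Real.sin_nonneg_of_nonneg_of_le_pi (by positivity) h)]
          exact near_zone (by omega) hy0.le h
        · have h3 := far_zone hb h.le hy1
          have h4 := Real.abs_sin_le_one (b * y)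
          nlinarith
      have h3 : |Real.sin (b * y)| / (b * Real.sin y) =
          1 / (b * Real.sin y ^ 2) * (Real.sin y * |Real.sin (b * y)|) := by
        field_simp
      rw [h3]
      exact mul_le_mul_of_nonneg_left h2 (by positivity)
  -- the nearest integer
  set n : ℤ := round x with hn
  have hr := abs_sub_round x
  have hfr : ∀ m : ℕ, |Real.sin (Real.pi * (m * x))| = |Real.sin (Real.pi * (m * |x - n|))| := by
    intro m
    have e1 : |Real.sin (Real.pi * (m * |x - n|))| = |Real.sin (Real.pi * (m * (x - n)))| := by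
      rcases abs_cases (x - n) with ⟨h, _⟩ | ⟨h, _⟩
      · rw [h]
      · rw [h]
        have : Real.pi * (m * (-(x - n))) = -(Real.pi * (m * (x - n))) := by ring
        rw [this, Real.sin_neg, abs_neg]
    have e2 : Real.pi * (m * (x - n)) = Real.pi * (m * x) - ((m : ℤ) * n : ℤ) * Real.pi := by
      push_cast; ring
    rw [e1, e2, Real.sin_sub_int_mul_pi, abs_mul, abs_zpow, abs_neg, abs_one, one_zpow, one_mul]
  refine key |x - n| (abs_nonneg _) hr hfr ?_
  intro h0 m hm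
  have h1 : x = 0 + n := by
    have := abs_eq_zero.mp h0
    linarith
  rw [h1, phi_add_int]
  unfold phi dir
  simp only [mul_zero, ex_zero, sum_const, card_range, nsmul_eq_mul, mul_one, Complex.norm_natCast]
  have : (m : ℝ) ≠ 0 := by exact_mod_cast hm.ne'
  exact div_self this

/-- The average is an admissible majorant. -/
theorem hasMaj_avg {b : ℕ} (hb : 7 ≤ b) : HasMaj b 1 1 (gbar b) := by
  have hbp : (0 : ℝ) < b := by
    have : 0 < b := by omega
    exact_mod_cast this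
  have h := hasMaj_of_mix (b := b) (fun _ => 1 / (b : ℝ)) (fun _ _ => by positivity) (by
    rw [sum_const, card_range, nsmul_eq_mul]
    field_simp) (phi_le_avg hb)
  have e : ∑ m ∈ range b, 1 / (b : ℝ) / ((m : ℝ) + 1) = gbar b := by
    unfold gbar
    rw [Finset.sum_div]
    refine Finset.sum_congr rfl fun m _ => ?_
    ring
  rw [e] at h
  exact h

end Pool.Agent.PalM
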