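import Mathlib

/-!
# A checker for the nonnegativity of polynomials on `[0, 1]` and `[0, 1] × [0, 1]`
-/

namespace Pool.Agent.PalM

/-- Addition of polynomials given by their lists of coefficients. -/
def padd : List ℤ → List ℤ → List ℤ
  | [], l => l
  | a :: l, [] => a :: l
  | a :: l, b :: m => (a + b) :: padd l m

/-- Evaluation. -/
def ev : List ℤ → ℝ → ℝ
  | [], _ => 0
  | a :: l, t => a + t * ev l t

/-- Multiplication by a constant. -/
def psm (c : ℤ) (l : List ℤ) : List ℤ := l.map (fun a => c * a)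

/-- The powers of `1 + u`. -/
def pw : ℕ → List ℤ
  | 0 => [1]
  | n + 1 => padd (pw n) (0 :: pw n)

/-- The polynomial `(1 + u) ^ n f (u / (1 + u))`, `n` the length of the list. -/
def gg1 : List ℤ → List ℤ
  | [] => []
  | a :: l => padd (psm a (pw (l.length + 1))) (0 :: gg1 l)

/-- The polynomial `2 ^ n f (t / 2)`. -/
def hlf : List ℤ → List ℤ
  | [] => []
  | a :: l => (a * 2 ^ (l.length + 1)) :: hlf l

/-- The polynomial `f (1 + t)`. -/
def sh : List ℤ → List ℤ
  | [] => []
  | a :: l => padd [a] (padd (sh l) (0 :: sh l))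

/-- The value at one. -/
def sm (l : List ℤ) : ℤ := l.sum

/-- The basic test. -/
def base (l : List ℤ) : Bool := (gg1 l).all (fun a => decide (0 ≤ a)) && decide (0 ≤ sm l)

/-- The test with subdivision. -/
def check : ℕ → List ℤ → Bool
  | 0, l => base l
  | d + 1, l => base l || (check d (hlf l) && check d (sh (hlf l)))

lemma ev_padd (t : ℝ) : ∀ l m : List ℤ, ev (padd l m) t = ev l t + ev m t := by
  intro l
  induction l with
  | nil => intro m; simp [padd, ev]
  | cons a l ih =>
    intro m
    cases m with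
    | nil => simp [padd, ev]
    | cons b m =>
      simp only [padd, ev, ih]
      push_cast
      ring

lemma ev_psm (c : ℤ) (t : ℝ) (l : List ℤ) : ev (psm c l) t = c * ev l t := by
  induction l with
  | nil => simp [psm, ev]
  | cons a l ih =>
    have : psm c (a :: l) = (c * a) :: psm c l := rfl
    rw [this, ev, ev, ih]
    push_cast
    ring

lemma ev_pw (t : ℝ) (n : ℕ) : ev (pw n) t = (1 + t) ^ n := by
  induction n with
  | zero => simp [pw, ev]
  | succ n ih =>
    rw [pw, ev_padd, ev, ih]
    push_cast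
    ring

lemma ev_gg1 {u : ℝ} (hu : 0 ≤ u) (l : List ℤ) :
    ev (gg1 l) u = (1 + u) ^ l.length * ev l (u / (1 + u)) := by
  have h1 : (1 + u) ≠ 0 := by positivity
  induction l with
  | nil => simp [gg1, ev]
  | cons a l ih =>
    rw [gg1, ev_padd, ev_psm, ev_pw, ev, ih, ev, List.length_cons]
    push_cast
    field_simp
    ring

lemma ev_hlf (t : ℝ) (l : List ℤ) : ev (hlf l) t = 2 ^ l.length * ev l (t / 2) := by
  induction l with
  | nil => simp [hlf, ev]
  | cons a l ih =>
    rw [hlf, ev, ih, ev, List.length_cons]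
    push_cast
    ring

lemma ev_sh (t : ℝ) (l : List ℤ) : ev (sh l) t = ev l (1 + t) := by
  induction l with
  | nil => simp [sh, ev]
  | cons a l ih =>
    rw [sh, ev_padd, ev_padd, ev, ev, ev, ev, ih]
    push_cast
    ring

lemma ev_one (l : List ℤ) : ev l 1 = sm l := by
  induction l with
  | nil => simp [sm, ev]
  | cons a l ih =>
    rw [ev, ih, sm, sm, List.sum_cons]
    push_cast
    ring

lemma ev_nonneg {u : ℝ} (hu : 0 ≤ u) (l : List ℤ) (h : ∀ a ∈ l, 0 ≤ a) : 0 ≤ ev l u := by
  induction l with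
  | nil => simp [ev]
  | cons a l ih =>
    rw [ev]
    have h1 : (0 : ℝ) ≤ a := by exact_mod_cast h a (List.mem_cons_self)
    have h2 := ih fun b hb => h b (List.mem_cons_of_mem _ hb)
    positivity

lemma base_sound {l : List ℤ} (h : base l = true) {t : ℝ} (h0 : 0 ≤ t) (h1 : t ≤ 1) :
    0 ≤ ev l t := by
  unfold base at h
  rw [Bool.and_eq_true, List.all_eq_true, decide_eq_true_eq] at h
  obtain ⟨h2, h3⟩ := h
  rcases h1.eq_or_lt with h4 | h4
  · rw [h4, ev_one]
    exact_mod_cast h3
  · have h5 : 0 < 1 - t := by linarith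
    have h6 : 0 ≤ t / (1 - t) := by positivity
    have h7 := ev_gg1 h6 l
    have h8 : 0 ≤ ev (gg1 l) (t / (1 - t)) := ev_nonneg h6 _ fun a ha => by
      have := h2 a ha
      simpa using this
    have h9 : t / (1 - t) / (1 + t / (1 - t)) = t := by
      field_simp
      ring
    rw [h9] at h7
    rw [h7] at h8
    have h10 : 0 < (1 + t / (1 - t)) ^ l.length := by positivity
    exact nonneg_of_mul_nonneg_right h8 h10

/-- The test is sound. -/
theorem check_sound : ∀ (d : ℕ) (l : List ℤ), check d l = true → ∀ t : ℝ, 0 ≤ t → t ≤ 1 →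
    0 ≤ ev l t := by
  intro d
  induction d with
  | zero => intro l h t h0 h1; exact base_sound h h0 h1
  | succ d ih =>
    intro l h t h0 h1
    rw [check, Bool.or_eq_true, Bool.and_eq_true] at h
    rcases h with h | ⟨h2, h3⟩
    · exact base_sound h h0 h1
    · have hp : (0 : ℝ) < 2 ^ l.length := by positivity
      rcases le_or_gt t (1 / 2) with h4 | h4
      · have h5 := ih _ h2 (2 * t) (by linarith) (by linarith)
        rw [ev_hlf] at h5
        have h6 : 2 * t / 2 = t := by ring
        rw [h6] at h5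
        exact nonneg_of_mul_nonneg_right h5 hp
      · have h5 := ih _ h3 (2 * t - 1) (by linarith) (by linarith)
        rw [ev_sh, ev_hlf] at h5
        have h6 : (1 + (2 * t - 1)) / 2 = t := by ring
        rw [h6] at h5
        exact nonneg_of_mul_nonneg_right h5 hp

/-! ### Two variables -/

/-- Addition of polynomials with polynomial coefficients. -/
def padd2 : List (List ℤ) → List (List ℤ) → List (List ℤ)
  | [], l => l
  | a :: l, [] => a :: l
  | a :: l, b :: m => padd a b :: padd2 l m

/-- Evaluation. -/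
def ev2 : List (List ℤ) → ℝ → ℝ → ℝ
  | [], _, _ => 0
  | a :: l, s, t => ev a s + t * ev2 l s t

/-- The product of a polynomial in `s` and a polynomial in `t`. -/
def ptn (a : List ℤ) (l : List ℤ) : List (List ℤ) := l.map (fun c => psm c a)

/-- The polynomial `(1 + u) ^ n f (s, u / (1 + u))`. -/
def gg2 : List (List ℤ) → List (List ℤ)
  | [] => []
  | a :: l => padd2 (ptn a (pw (l.length + 1))) ([] :: gg2 l)

/-- The polynomial `2 ^ n f (s, t / 2)`. -/
def hlf2 : List (List ℤ) → List (List ℤ)
  | [] => []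
  | a :: l => psm (2 ^ (l.length + 1)) a :: hlf2 l

/-- The polynomial `f (s, 1 + t)`. -/
def sh2 : List (List ℤ) → List (List ℤ)
  | [] => []
  | a :: l => padd2 [a] (padd2 (sh2 l) ([] :: sh2 l))

/-- The value at `t = 1`. -/
def sm2 : List (List ℤ) → List ℤ
  | [] => []
  | a :: l => padd a (sm2 l)

/-- The basic test. -/
def base2 (e : ℕ) (l : List (List ℤ)) : Bool := (gg2 l).all (fun a => check e a) && check e (sm2 l)

/-- The test with subdivision. -/
def check2 (e : ℕ) : ℕ → List (List ℤ) → Bool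
  | 0, l => base2 e l
  | d + 1, l => base2 e l || (check2 e d (hlf2 l) && check2 e d (sh2 (hlf2 l)))

lemma ev2_padd2 (s t : ℝ) : ∀ l m : List (List ℤ), ev2 (padd2 l m) s t = ev2 l s t + ev2 m s t := by
  intro l
  induction l with
  | nil => intro m; simp [padd2, ev2]
  | cons a l ih =>
    intro m
    cases m with
    | nil => simp [padd2, ev2]
    | cons b m =>
      simp only [padd2, ev2, ih, ev_padd]
      ring

lemma ev2_ptn (a : List ℤ) (s t : ℝ) (l : List ℤ) : ev2 (ptn a l) s t = ev a s * ev l t := by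
  induction l with
  | nil => simp [ptn, ev, ev2]
  | cons c l ih =>
    have : ptn a (c :: l) = psm c a :: ptn a l := rfl
    rw [this, ev2, ev, ih, ev_psm]
    ring

lemma ev2_gg2 {u : ℝ} (hu : 0 ≤ u) (s : ℝ) (l : List (List ℤ)) :
    ev2 (gg2 l) s u = (1 + u) ^ l.length * ev2 l s (u / (1 + u)) := by
  have h1 : (1 + u) ≠ 0 := by positivity
  induction l with
  | nil => simp [gg2, ev2]
  | cons a l ih =>
    rw [gg2, ev2_padd2, ev2_ptn, ev_pw, ev2, ih, ev2, List.length_cons, ev]
    field_simp
    ring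

lemma ev2_hlf2 (s t : ℝ) (l : List (List ℤ)) :
    ev2 (hlf2 l) s t = 2 ^ l.length * ev2 l s (t / 2) := by
  induction l with
  | nil => simp [hlf2, ev2]
  | cons a l ih =>
    rw [hlf2, ev2, ih, ev2, List.length_cons, ev_psm]
    push_cast
    ring

lemma ev2_sh2 (s t : ℝ) (l : List (List ℤ)) : ev2 (sh2 l) s t = ev2 l s (1 + t) := by
  induction l with
  | nil => simp [sh2, ev2]
  | cons a l ih =>
    rw [sh2, ev2_padd2, ev2_padd2, ev2, ev2, ev2, ev2, ih, ev]
    ring

lemma ev2_one (s : ℝ) (l : List (List ℤ)) : ev2 l s 1 = ev (sm2 l) s := by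
  induction l with
  | nil => simp [sm2, ev2, ev]
  | cons a l ih =>
    rw [ev2, ih, sm2, ev_padd]
    ring

lemma ev2_nonneg {s u : ℝ} (hu : 0 ≤ u) (l : List (List ℤ)) (h : ∀ a ∈ l, 0 ≤ ev a s) :
    0 ≤ ev2 l s u := by
  induction l with
  | nil => simp [ev2]
  | cons a l ih =>
    rw [ev2]
    have h1 := h a (List.mem_cons_self)
    have h2 := ih fun b hb => h b (List.mem_cons_of_mem _ hb)
    positivity

lemma base2_sound {e : ℕ} {l : List (List ℤ)} (h : base2 e l = true) {s t : ℝ} (hs0 : 0 ≤ s)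
    (hs1 : s ≤ 1) (h0 : 0 ≤ t) (h1 : t ≤ 1) : 0 ≤ ev2 l s t := by
  unfold base2 at h
  rw [Bool.and_eq_true, List.all_eq_true] at h
  obtain ⟨h2, h3⟩ := h
  rcases h1.eq_or_lt with h4 | h4
  · rw [h4, ev2_one]
    exact check_sound e _ h3 s hs0 hs1
  · have h5 : 0 < 1 - t := by linarith
    have h6 : 0 ≤ t / (1 - t) := by positivity
    have h7 := ev2_gg2 h6 s l
    have h8 : 0 ≤ ev2 (gg2 l) s (t / (1 - t)) := ev2_nonneg h6 _ fun a ha =>
      check_sound e _ (h2 a ha) s hs0 hs1
    have h9 : t / (1 - t) / (1 + t / (1 - t)) = t := by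
      field_simp
      ring
    rw [h9] at h7
    rw [h7] at h8
    have h10 : 0 < (1 + t / (1 - t)) ^ l.length := by positivity
    exact nonneg_of_mul_nonneg_right h8 h10

/-- The test in two variables is sound. -/
theorem check2_sound (e : ℕ) : ∀ (d : ℕ) (l : List (List ℤ)), check2 e d l = true →
    ∀ s t : ℝ, 0 ≤ s → s ≤ 1 → 0 ≤ t → t ≤ 1 → 0 ≤ ev2 l s t := by
  intro d
  induction d with
  | zero => intro l h s t hs0 hs1 h0 h1; exact base2_sound h hs0 hs1 h0 h1
  | succ d ih =>
    intro l h s t hs0 hs1 h0 h1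
    rw [check2, Bool.or_eq_true, Bool.and_eq_true] at h
    rcases h with h | ⟨h2, h3⟩
    · exact base2_sound h hs0 hs1 h0 h1
    · have hp : (0 : ℝ) < 2 ^ l.length := by positivity
      rcases le_or_gt t (1 / 2) with h4 | h4
      · have h5 := ih _ h2 s (2 * t) hs0 hs1 (by linarith) (by linarith)
        rw [ev2_hlf2] at h5
        have h6 : 2 * t / 2 = t := by ring
        rw [h6] at h5
        exact nonneg_of_mul_nonneg_right h5 hp
      · have h5 := ih _ h3 s (2 * t - 1) hs0 hs1 (by linarith) (by linarith)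
        rw [ev2_sh2, ev2_hlf2] at h5
        have h6 : (1 + (2 * t - 1)) / 2 = t := by ring
        rw [h6] at h5
        exact nonneg_of_mul_nonneg_right h5 hp

end Pool.Agent.PalM
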