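import Pool.Agent.PalM.Hol
import Pool.Agent.PalL.HasCen
import Pool.Agent.PalL.HasSq

/-!
# The central estimates from a majorant
-/

namespace Pool.Agent.PalM

open Finset Pool.Agent.Pal Pool.Agent.PalL

/-- Products that are not long. -/
lemma cen_mid {b L : ℕ} (hb : 2 ≤ b) (hL : 1 ≤ L) {γ z θ θ' : ℝ} (hγ0 : 0 ≤ γ) (hγ1 : γ ≤ 1)
    (h : HasMaj b L γ z) (hθ0 : 0 ≤ θ) (hθ : θ < θ') (hθ1 : θ' ≤ 1 / 2)
    (hz : z ≤ (b : ℝ) ^ (-(2 * θ' * L))) :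
    ∃ (σ δ C : ℝ), 0 < σ ∧ 0 < δ ∧ 0 < C ∧
    ∀ Λ ℓ D : ℕ, ℓ ≤ Λ → 2 ≤ D → Real.log D ≤ θ * Real.log b * Λ →
      (ℓ : ℝ) ≤ (1 - (θ' - θ) / 2) * Λ → Bd2 b σ δ C Λ ℓ D := by
  have hlb := log_pos_b hb
  set lb := Real.log b with hlbdef
  set τ := θ' - θ with hτ
  have hτ0 : 0 < τ := by rw [hτ]; linarith
  have hτ1 : τ ≤ 1 / 2 := by rw [hτ]; linarith
  obtain ⟨C, hC, hmain⟩ := T_plain hb hL hγ0 hγ1 h (hθ0.trans hθ.le) hz (η := τ / 32)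
    (by positivity)
  refine ⟨τ / 8 * lb, τ / 8, 2 * C, by positivity, by positivity, by positivity, ?_⟩
  intro Λ ℓ D hℓ hD hDL hℓ1
  have hDr : (2 : ℝ) ≤ D := by exact_mod_cast hD
  have hlogD : 0 < Real.log D := Real.log_pos (by linarith)
  have hΛ1 : 1 ≤ Λ := by
    rcases Nat.eq_zero_or_pos Λ with h0 | h0
    · exfalso
      rw [h0] at hDL
      simp at hDL
      linarith
    · exact h0
  have hΛr : (1 : ℝ) ≤ Λ := by exact_mod_cast hΛ1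
  have hℓr : (ℓ : ℝ) ≤ Λ := by exact_mod_cast hℓ
  have hsq := sqrt_nat_le Λ
  have h1 : τ / 8 * lb * Real.sqrt Λ ≤ τ / 8 * lb * Λ := mul_le_mul_of_nonneg_left hsq (by positivity)
  have h2 : τ / 8 * Real.log D ≤ τ / 8 * (1 / 2 * lb * Λ) := by
    refine mul_le_mul_of_nonneg_left (hDL.trans ?_) (by positivity)
    have : 0 ≤ lb * (Λ : ℝ) := by positivity
    nlinarith
  have hlΛ : 0 ≤ lb * (Λ : ℝ) := by positivity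
  have hτl : 0 ≤ τ * (lb * (Λ : ℝ)) := by positivity
  refine Bd2_of_exp2 hb hC.le (hmain ℓ D (by omega)) ?_ ?_
  · have h3 : lb * (ℓ : ℝ) * (1 - 2 * θ') ≤ lb * Λ * (1 - 2 * θ') := by
      refine mul_le_mul_of_nonneg_right ?_ (by linarith)
      exact mul_le_mul_of_nonneg_left hℓr hlb.le
    have h4 : lb * (Λ : ℝ) * (1 - 2 * θ') + 2 * (θ * lb * Λ) = lb * Λ - 2 * (τ * (lb * Λ)) := by
      rw [hτ]; ring
    nlinarith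
  · have h3 : lb * (ℓ : ℝ) ≤ lb * ((1 - τ / 2) * Λ) := mul_le_mul_of_nonneg_left hℓ1 hlb.le
    have h4 : τ / 32 * (lb * ((ℓ : ℝ) + 1)) ≤ τ / 32 * (lb * (2 * Λ)) := by
      refine mul_le_mul_of_nonneg_left (mul_le_mul_of_nonneg_left ?_ hlb.le) (by positivity)
      linarith
    nlinarith

/-- The parameters of the case of long products and large moduli. -/
lemma long_params {b : ℕ} (hb : 2 ≤ b) {θ θ' c0 : ℝ} (hθ0 : 0 ≤ θ) (hθ : θ < θ')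
    (hθ1 : θ' ≤ 1 / 2) (hc0 : 0 < c0) {Λ ℓ D : ℕ} (hΛ1 : 4 / (θ' - θ) ≤ (Λ : ℝ))
    (hΛ2 : 2 / c0 ≤ (Λ : ℝ)) (hD : 2 ≤ D)
    (hDL : Real.log D ≤ θ * Real.log b * Λ) (hℓ1 : (1 - (θ' - θ) / 2) * Λ < (ℓ : ℝ))
    (hDc : c0 * Real.log b * Λ ≤ Real.log D) :
    ⌊min (c0 / 2) ((θ' - θ) / 4) * Λ⌋₊ + 1 ≤ Nat.clog b D ∧
    Nat.clog b D + ⌊min (c0 / 2) ((θ' - θ) / 4) * Λ⌋₊ + 1 ≤ (ℓ + 1) / 2 ∧
    Real.log D ≤ θ' * (Real.log b * ℓ) := by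
  have hlb := log_pos_b hb
  set lb := Real.log b with hlbdef
  set τ := θ' - θ with hτ
  have hτ0 : 0 < τ := by rw [hτ]; linarith
  have hτ1 : τ ≤ 1 / 2 := by rw [hτ]; linarith
  set μ := min (c0 / 2) (τ / 4) with hμ
  have hμ0 : 0 < μ := by positivity
  have hμ1 : μ ≤ c0 / 2 := min_le_left _ _
  have hμ2 : μ ≤ τ / 4 := min_le_right _ _
  obtain ⟨k1, k2, k3, k4⟩ := clog_bounds hb hD
  set k := Nat.clog b D with hk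
  have hΛ0 : (0 : ℝ) ≤ Λ := Nat.cast_nonneg _
  have hg : ((⌊μ * Λ⌋₊ : ℕ) : ℝ) ≤ μ * Λ := Nat.floor_le (by positivity)
  have hτΛ : 4 ≤ τ * Λ := by rwa [div_le_iff₀ hτ0, mul_comm] at hΛ1
  have hcΛ : 2 ≤ c0 * Λ := by rwa [div_le_iff₀ hc0, mul_comm] at hΛ2
  have hkup : (k : ℝ) ≤ 1 + θ * Λ := by
    have : lb * k ≤ lb * (1 + θ * Λ) := by nlinarith
    exact le_of_mul_le_mul_left this hlb
  have hklo : c0 * Λ ≤ k := by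
    have : lb * (c0 * Λ) ≤ lb * k := by nlinarith
    exact le_of_mul_le_mul_left this hlb
  refine ⟨?_, ?_, ?_⟩
  · have h1 : ((⌊μ * Λ⌋₊ : ℕ) : ℝ) + 1 ≤ k := by
      have : μ * Λ ≤ c0 / 2 * Λ := mul_le_mul_of_nonneg_right hμ1 hΛ0
      linarith
    exact_mod_cast h1
  · have hm : (ℓ : ℝ) / 2 ≤ (((ℓ + 1) / 2 : ℕ) : ℝ) := by
      have : ℓ ≤ 2 * ((ℓ + 1) / 2) := by omega
      have : (ℓ : ℝ) ≤ 2 * (((ℓ + 1) / 2 : ℕ) : ℝ) := by exact_mod_cast this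
      linarith
    have h1 : (k : ℝ) + ((⌊μ * Λ⌋₊ : ℕ) : ℝ) + 1 ≤ (((ℓ + 1) / 2 : ℕ) : ℝ) := by
      have h2 : μ * Λ ≤ τ / 4 * Λ := mul_le_mul_of_nonneg_right hμ2 hΛ0
      have h3 : θ * (Λ : ℝ) + τ * Λ ≤ 1 / 2 * Λ := by
        have : θ + τ ≤ 1 / 2 := by rw [hτ]; linarith
        nlinarith
      nlinarith
    exact_mod_cast h1
  · have h1 : θ' * (lb * ((1 - τ / 2) * Λ)) ≤ θ' * (lb * ℓ) := by
      refine mul_le_mul_of_nonneg_left ?_ (by linarith)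
      exact mul_le_mul_of_nonneg_left hℓ1.le hlb.le
    refine hDL.trans (le_trans ?_ h1)
    have h2 : θ ≤ θ' * (1 - τ / 2) := by
      have : θ' * (τ / 2) ≤ 1 / 2 * (τ / 2) := mul_le_mul_of_nonneg_right hθ1 (by positivity)
      have : θ' = θ + τ := by rw [hτ]; ring
      nlinarith
    have h3 : 0 ≤ lb * (Λ : ℝ) := by positivity
    nlinarith

/-- Long products and large moduli. -/
lemma cen_long_large {b L : ℕ} (hb : 2 ≤ b) (hL : 1 ≤ L) {γ z θ θ' c0 : ℝ} (hγ0 : 0 ≤ γ)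
    (hγ1 : γ < 1) (h : HasMaj b L γ z) (hθ0 : 0 ≤ θ) (hθ : θ < θ') (hθ1 : θ' ≤ 1 / 2)
    (hz : z ≤ (b : ℝ) ^ (-(2 * θ' * L))) (hc0 : 0 < c0) :
    ∃ (σ δ C : ℝ) (Λ0 : ℕ), 0 < σ ∧ 0 < δ ∧ 0 < C ∧
    ∀ Λ ℓ D : ℕ, Λ0 ≤ Λ → ℓ ≤ Λ → 2 ≤ D → Real.log D ≤ θ * Real.log b * Λ →
      (1 - (θ' - θ) / 2) * Λ < (ℓ : ℝ) → c0 * Real.log b * Λ ≤ Real.log D →
      Bd2 b σ δ C Λ ℓ D := by
  have hlb := log_pos_b hb
  obtain ⟨r, hr, hsave⟩ := T_save hb hL hγ0 hγ1 h (hθ0.trans hθ.le) hz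
  set μ := min (c0 / 2) ((θ' - θ) / 4) with hμ
  have hμ0 : 0 < μ := by
    have : 0 < θ' - θ := by linarith
    positivity
  obtain ⟨C, hC, hmain⟩ := hsave (r * μ / (32 * Real.log b)) (by positivity)
  obtain ⟨Λ0, hΛ0⟩ := exists_nat_ge (max (max 1 (4 / (θ' - θ))) (max (2 / c0) (4 / μ)))
  refine ⟨r * μ / 4, r * μ / (4 * Real.log b), C, Λ0, by positivity, by positivity, hC, ?_⟩
  intro Λ ℓ D hΛ hℓΛ hD hDL hℓ1 hDc
  have hΛr : max (max 1 (4 / (θ' - θ))) (max (2 / c0) (4 / μ)) ≤ (Λ : ℝ) :=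
    hΛ0.trans (by exact_mod_cast hΛ)
  have a1 : (1 : ℝ) ≤ Λ := ((le_max_left _ _).trans (le_max_left _ _)).trans hΛr
  have a2 : 4 / (θ' - θ) ≤ (Λ : ℝ) := ((le_max_right _ _).trans (le_max_left _ _)).trans hΛr
  have a3 : 2 / c0 ≤ (Λ : ℝ) := ((le_max_left _ _).trans (le_max_right _ _)).trans hΛr
  have a4 : 4 / μ ≤ (Λ : ℝ) := ((le_max_right _ _).trans (le_max_right _ _)).trans hΛr
  have hμΛ : 4 ≤ μ * Λ := by rwa [div_le_iff₀ hμ0, mul_comm] at a4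
  obtain ⟨p1, p2, p3⟩ := long_params hb hθ0 hθ hθ1 hc0 a2 a3 hD hDL hℓ1 hDc
  obtain ⟨k1, k2, _, _⟩ := clog_bounds hb hD
  have hT := hmain ℓ (Nat.clog b D) ⌊μ * Λ⌋₊ D p1 p2 (by omega) k1 k2 p3
  refine Bd2_of_exp hb hC.le hT ?_
  set lb := Real.log b with hlbdef
  have hℓr : (ℓ : ℝ) ≤ Λ := by exact_mod_cast hℓΛ
  have hg : μ * Λ - 1 ≤ ((⌊μ * Λ⌋₊ : ℕ) : ℝ) := (Nat.sub_one_lt_floor _).le
  have hrg : r * (μ * Λ - 1) ≤ r * ((⌊μ * Λ⌋₊ : ℕ) : ℝ) := mul_le_mul_of_nonneg_left hg hr.le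
  have hsq := sqrt_nat_le Λ
  have h1 : r * μ / 4 * Real.sqrt Λ ≤ r * μ / 4 * Λ := mul_le_mul_of_nonneg_left hsq (by positivity)
  have h2 : r * μ / (4 * lb) * Real.log D ≤ r * μ / (4 * lb) * (1 / 2 * lb * Λ) := by
    refine mul_le_mul_of_nonneg_left (hDL.trans ?_) (by positivity)
    have : 0 ≤ lb * (Λ : ℝ) := by positivity
    nlinarith
  have h3 : r * μ / (4 * lb) * (1 / 2 * lb * Λ) = r * (μ * Λ) / 8 := by field_simp; ring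
  have h4 : r * μ / (32 * lb) * (lb * ((ℓ : ℝ) + 1)) = r * μ * ((ℓ : ℝ) + 1) / 32 := by
    field_simp
  have h5 : r * μ * ((ℓ : ℝ) + 1) / 32 ≤ r * μ * (2 * Λ) / 32 := by
    refine div_le_div_of_nonneg_right ?_ (by norm_num)
    exact mul_le_mul_of_nonneg_left (by linarith) (by positivity)
  have h6 : lb * (ℓ : ℝ) ≤ lb * Λ := mul_le_mul_of_nonneg_left hℓr hlb.le
  have h7 : r * 4 ≤ r * (μ * Λ) := mul_le_mul_of_nonneg_left hμΛ hr.le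
  rw [h4]
  rw [h3] at h2
  nlinarith

/-- The central estimate with all the parameters. -/
theorem cen_of_maj_aux {b L : ℕ} (hb : 2 ≤ b) (hL : 1 ≤ L) {γ z θ θ' : ℝ} (hγ0 : 0 ≤ γ)
    (hγ1 : γ < 1) (h : HasMaj b L γ z) (hθ0 : 0 ≤ θ) (hθ : θ < θ') (hθ1 : θ' ≤ 1 / 2)
    (hz : z ≤ (b : ℝ) ^ (-(2 * θ' * L))) : HasCen b θ := by
  have hlb := log_pos_b hb
  have hε : 0 < (θ' - θ) / 2 := by linarith
  have hε4 : (θ' - θ) / 2 ≤ 1 / 4 := by linarith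
  obtain ⟨σ2, δ2, C2, hσ2, hδ2, hC2, h2⟩ := cen_mid hb hL hγ0 hγ1.le h hθ0 hθ hθ1 hz
  obtain ⟨σ3, δ3, C3, c, Λ3, hσ3, hδ3, hC3, hc, h3⟩ := case_long_small2 hb hε hε4
  obtain ⟨σ4, δ4, C4, c0, Λ4, hσ4, hδ4, hC4, hc0, h4⟩ := case_long_mid2 hb hε hε4 hc
  obtain ⟨σ5, δ5, C5, Λ5, hσ5, hδ5, hC5, h5⟩ :=
    cen_long_large hb hL hγ0 hγ1 h hθ0 hθ hθ1 hz hc0
  obtain ⟨C6, hC6, h6⟩ := case_bounded2 hb (Λ3 + Λ4 + Λ5)
  have key : ∀ a2 a3 a4 a5 : ℝ,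
      min a2 (min a3 (min a4 (min a5 1))) ≤ a2 ∧
      min a2 (min a3 (min a4 (min a5 1))) ≤ a3 ∧
      min a2 (min a3 (min a4 (min a5 1))) ≤ a4 ∧
      min a2 (min a3 (min a4 (min a5 1))) ≤ a5 ∧
      min a2 (min a3 (min a4 (min a5 1))) ≤ 1 := by
    intro a2 a3 a4 a5
    refine ⟨min_le_left _ _, (min_le_right _ _).trans (min_le_left _ _),
      (min_le_right _ _).trans ((min_le_right _ _).trans (min_le_left _ _)),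
      (min_le_right _ _).trans ((min_le_right _ _).trans
        ((min_le_right _ _).trans (min_le_left _ _))),
      (min_le_right _ _).trans ((min_le_right _ _).trans ((min_le_right _ _).trans
        (min_le_right _ _)))⟩
  obtain ⟨m2, m3, m4, m5, m6⟩ := key σ2 σ3 σ4 σ5
  obtain ⟨n2, n3, n4, n5, n6⟩ := key δ2 δ3 δ4 δ5
  refine ⟨min σ2 (min σ3 (min σ4 (min σ5 1))),
    min δ2 (min δ3 (min δ4 (min δ5 1))), C2 + C3 + C4 + C5 + C6,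
    by positivity, by positivity, by positivity, ?_⟩
  intro Λ ℓ D hℓ hD hDL
  have hD1 : 1 ≤ D := by omega
  rcases Nat.lt_or_ge Λ (Λ3 + Λ4 + Λ5) with hΛ | hΛ
  · refine (h6 Λ ℓ D hΛ.le hℓ hD ?_).mono m6 n6 hD1 hC6.le (by linarith)
    have h7 : 0 ≤ Real.log b * (Λ : ℝ) := by positivity
    have h8 : θ * (Real.log b * (Λ : ℝ)) ≤ 1 * (Real.log b * (Λ : ℝ)) :=
      mul_le_mul_of_nonneg_right (by linarith) h7
    linarith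
  · rcases le_or_gt (ℓ : ℝ) ((1 - (θ' - θ) / 2) * Λ) with a2 | a2
    · exact (h2 Λ ℓ D hℓ hD hDL a2).mono m2 n2 hD1 hC2.le (by linarith)
    · rcases le_or_gt (Real.log D) (c * Real.sqrt Λ) with a3 | a3
      · exact (h3 Λ ℓ D (by omega) hℓ hD a2 a3).mono m3 n3 hD1 hC3.le (by linarith)
      · rcases le_or_gt (Real.log D) (c0 * Real.log b * Λ) with a4 | a4
        · exact (h4 Λ ℓ D (by omega) hℓ hD a2 a4 a3.le).mono m4 n4 hD1 hC4.le (by linarith)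
        · exact (h5 Λ ℓ D (by omega) hℓ hD hDL a2 a4.le).mono m5 n5 hD1 hC5.le (by linarith)

/-- The choice of the auxiliary level. -/
lemma exists_params {b L : ℕ} (hb : 2 ≤ b) {z θ : ℝ} (h : HasMaj b L 1 z)
    (hθ1 : θ < 1 / 2) (hz : z < (b : ℝ) ^ (-(2 * θ * L))) :
    ∃ (θ' γ z' : ℝ), θ < θ' ∧ θ' ≤ 1 / 2 ∧ 0 ≤ γ ∧ γ < 1 ∧ HasMaj b L γ z' ∧
      z' ≤ (b : ℝ) ^ (-(2 * θ' * L)) := by
  have hbp : (0 : ℝ) < b := by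
    have : 0 < b := by omega
    exact_mod_cast this
  have hcont : Continuous fun t : ℝ => (b : ℝ) ^ (-(2 * t * L)) := by
    refine Continuous.rpow continuous_const (by fun_prop) fun t => Or.inl hbp.ne'
  have h1 : ∀ᶠ t : ℝ in nhds θ, z < (b : ℝ) ^ (-(2 * t * L)) :=
    hcont.continuousAt.eventually (lt_mem_nhds hz)
  have h2 : ∀ᶠ t : ℝ in nhds θ, t < 1 / 2 := gt_mem_nhds hθ1
  obtain ⟨θ', hθ', h3, h4⟩ := (h1.and h2).exists_gt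
  have hz0 := h.nonneg
  set f : ℝ := (b : ℝ) ^ (-(2 * θ' * L)) with hf
  set δ : ℝ := min (f - z) (1 / 2) with hδ
  have hδ0 : 0 < δ := by
    have : 0 < f - z := by linarith
    positivity
  have hδ1 : δ ≤ 1 / 2 := min_le_right _ _
  have hδ2 : δ ≤ f - z := min_le_left _ _
  refine ⟨θ', 1 - δ, (1 - δ) * z + δ, hθ', h4.le, by linarith, by linarith,
    h.perturb hδ0.le (by linarith) hb, ?_⟩
  nlinarith

/-- **The central estimate from a majorant.** -/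
theorem cen_of_maj {b L : ℕ} (hb : 2 ≤ b) (hL : 1 ≤ L) {z θ : ℝ} (h : HasMaj b L 1 z)
    (hθ1 : θ < 1 / 2) (hθ0 : 0 ≤ θ) (hz : z < (b : ℝ) ^ (-(2 * θ * L))) : HasCen b θ := by
  obtain ⟨θ', γ, z', h1, h2, h3, h4, h5, h6⟩ := exists_params hb h hθ1 hz
  exact cen_of_maj_aux hb hL h3 h4 h5 hθ0 h1 h2 h6

/-- Square denominators: the case of products that are not long. -/
lemma sq_mid {b L : ℕ} (hb : 2 ≤ b) (hL : 1 ≤ L) {γ z θ θ' : ℝ} (hγ0 : 0 ≤ γ) (hγ1 : γ ≤ 1)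
    (h : HasMaj b L γ z) (hθ0 : 0 ≤ θ) (hθ : θ < θ') (hθ1 : θ' ≤ 1 / 2)
    (hz : z ≤ (b : ℝ) ^ (-(2 * θ' * L))) :
    ∃ (σ C : ℝ), 0 < σ ∧ 0 < C ∧
    ∀ Λ ℓ P : ℕ, ℓ ≤ Λ → 2 ≤ P → Real.log P ≤ θ * Real.log b * Λ →
      (ℓ : ℝ) ≤ (1 - (θ' - θ) / 2) * Λ → BdS b σ C Λ ℓ P := by
  have hlb := log_pos_b hb
  set lb := Real.log b with hlbdef
  set τ := θ' - θ with hτ
  have hτ0 : 0 < τ := by rw [hτ]; linarith
  have hτ1 : τ ≤ 1 / 2 := by rw [hτ]; linarith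
  obtain ⟨C, hC, hmain⟩ := TS_plain hb hL hγ0 hγ1 h (hθ0.trans hθ.le) hz (η := τ / 32)
    (by positivity)
  refine ⟨τ / 8 * lb, 2 * C, by positivity, by positivity, ?_⟩
  intro Λ ℓ D hℓ hD hDL hℓ1
  have hDr : (2 : ℝ) ≤ D := by exact_mod_cast hD
  have hlogD : 0 < Real.log D := Real.log_pos (by linarith)
  have hΛ1 : 1 ≤ Λ := by
    rcases Nat.eq_zero_or_pos Λ with h0 | h0
    · exfalso
      rw [h0] at hDL
      simp at hDL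
      linarith
    · exact h0
  have hΛr : (1 : ℝ) ≤ Λ := by exact_mod_cast hΛ1
  have hℓr : (ℓ : ℝ) ≤ Λ := by exact_mod_cast hℓ
  have hlΛ : 0 ≤ lb * (Λ : ℝ) := by positivity
  have hτl : 0 ≤ τ * (lb * (Λ : ℝ)) := by positivity
  refine BdS_of_exp2 hb hC.le (hmain ℓ D (by omega)) ?_ ?_
  · have h3 : lb * (ℓ : ℝ) * (1 - 2 * θ') ≤ lb * Λ * (1 - 2 * θ') := by
      refine mul_le_mul_of_nonneg_right ?_ (by linarith)
      exact mul_le_mul_of_nonneg_left hℓr hlb.le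
    have h4 : lb * (Λ : ℝ) * (1 - 2 * θ') + 2 * (θ * lb * Λ) = lb * Λ - 2 * (τ * (lb * Λ)) := by
      rw [hτ]; ring
    nlinarith
  · have h3 : lb * (ℓ : ℝ) ≤ lb * ((1 - τ / 2) * Λ) := mul_le_mul_of_nonneg_left hℓ1 hlb.le
    have h4 : τ / 32 * (lb * ((ℓ : ℝ) + 1)) ≤ τ / 32 * (lb * (2 * Λ)) := by
      refine mul_le_mul_of_nonneg_left (mul_le_mul_of_nonneg_left ?_ hlb.le) (by positivity)
      linarith
    nlinarith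

/-- Square denominators: the case of long products. -/
lemma sq_long {b L : ℕ} (hb : 2 ≤ b) (hL : 1 ≤ L) {γ z θ θ' c0 : ℝ} (hγ0 : 0 ≤ γ)
    (hγ1 : γ < 1) (h : HasMaj b L γ z) (hθ0 : 0 ≤ θ) (hθ : θ < θ') (hθ1 : θ' ≤ 1 / 2)
    (hz : z ≤ (b : ℝ) ^ (-(2 * θ' * L))) (hc0 : 0 < c0) :
    ∃ (σ C : ℝ) (Λ0 : ℕ), 0 < σ ∧ 0 < C ∧
    ∀ Λ ℓ P : ℕ, Λ0 ≤ Λ → ℓ ≤ Λ → 2 ≤ P → Real.log P ≤ θ * Real.log b * Λ →
      (1 - (θ' - θ) / 2) * Λ < (ℓ : ℝ) → c0 * Real.log b * Λ ≤ Real.log P →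
      BdS b σ C Λ ℓ P := by
  have hlb := log_pos_b hb
  obtain ⟨r, hr, hsave⟩ := TS_save hb hL hγ0 hγ1 h (hθ0.trans hθ.le) hz
  set μ := min (c0 / 2) ((θ' - θ) / 4) with hμ
  have hμ0 : 0 < μ := by
    have : 0 < θ' - θ := by linarith
    positivity
  obtain ⟨C, hC, hmain⟩ := hsave (r * μ / (32 * Real.log b)) (by positivity)
  obtain ⟨Λ0, hΛ0⟩ := exists_nat_ge (max (max 1 (4 / (θ' - θ))) (max (2 / c0) (4 / μ)))
  refine ⟨r * μ / 4, C, Λ0, by positivity, hC, ?_⟩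
  intro Λ ℓ D hΛ hℓΛ hD hDL hℓ1 hDc
  have hΛr : max (max 1 (4 / (θ' - θ))) (max (2 / c0) (4 / μ)) ≤ (Λ : ℝ) :=
    hΛ0.trans (by exact_mod_cast hΛ)
  have a1 : (1 : ℝ) ≤ Λ := ((le_max_left _ _).trans (le_max_left _ _)).trans hΛr
  have a2 : 4 / (θ' - θ) ≤ (Λ : ℝ) := ((le_max_right _ _).trans (le_max_left _ _)).trans hΛr
  have a3 : 2 / c0 ≤ (Λ : ℝ) := ((le_max_left _ _).trans (le_max_right _ _)).trans hΛr
  have a4 : 4 / μ ≤ (Λ : ℝ) := ((le_max_right _ _).trans (le_max_right _ _)).trans hΛr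
  have hμΛ : 4 ≤ μ * Λ := by rwa [div_le_iff₀ hμ0, mul_comm] at a4
  obtain ⟨p1, p2, p3⟩ := long_params hb hθ0 hθ hθ1 hc0 a2 a3 hD hDL hℓ1 hDc
  obtain ⟨k1, k2, _, _⟩ := clog_bounds hb hD
  have hT := hmain ℓ (Nat.clog b D) ⌊μ * Λ⌋₊ D p1 p2 (by omega) k1 k2 p3
  refine BdS_of_exp hb hC.le hT ?_
  set lb := Real.log b with hlbdef
  have hℓr : (ℓ : ℝ) ≤ Λ := by exact_mod_cast hℓΛ
  have hg : μ * Λ - 1 ≤ ((⌊μ * Λ⌋₊ : ℕ) : ℝ) := (Nat.sub_one_lt_floor _).le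
  have hrg : r * (μ * Λ - 1) ≤ r * ((⌊μ * Λ⌋₊ : ℕ) : ℝ) := mul_le_mul_of_nonneg_left hg hr.le
  have h4 : r * μ / (32 * lb) * (lb * ((ℓ : ℝ) + 1)) = r * μ * ((ℓ : ℝ) + 1) / 32 := by
    field_simp
  have h5 : r * μ * ((ℓ : ℝ) + 1) / 32 ≤ r * μ * (2 * Λ) / 32 := by
    refine div_le_div_of_nonneg_right ?_ (by norm_num)
    exact mul_le_mul_of_nonneg_left (by linarith) (by positivity)
  have h6 : lb * (ℓ : ℝ) ≤ lb * Λ := mul_le_mul_of_nonneg_left hℓr hlb.le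
  have h7 : r * 4 ≤ r * (μ * Λ) := mul_le_mul_of_nonneg_left hμΛ hr.le
  rw [h4]
  nlinarith

/-- **The estimate over the square denominators from a majorant.** -/
theorem sq_of_maj {b L : ℕ} (hb : 2 ≤ b) (hL : 1 ≤ L) {z θ : ℝ} (h : HasMaj b L 1 z)
    (hθ1 : θ < 1 / 2) (hθ0 : 0 ≤ θ) (hz : z < (b : ℝ) ^ (-(2 * θ * L))) : HasSq b θ := by
  obtain ⟨θ', γ, z', h1, h2, h3, h4, h5, h6⟩ := exists_params hb h hθ1 hz
  intro c0 hc0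
  obtain ⟨σ2, C2, hσ2, hC2, g2⟩ := sq_mid hb hL h3 h4.le h5 hθ0 h1 h2 h6
  obtain ⟨σ5, C5, Λ5, hσ5, hC5, g5⟩ := sq_long hb hL h3 h4 h5 hθ0 h1 h2 h6 hc0
  refine ⟨min σ2 σ5, C2 + C5, Λ5, by positivity, by positivity, ?_⟩
  intro Λ ℓ P hΛ hℓ hP hPL hPc
  rcases le_or_gt (ℓ : ℝ) ((1 - (θ' - θ) / 2) * Λ) with a2 | a2
  · exact (g2 Λ ℓ P hℓ hP hPL a2).mono (min_le_left _ _) hC2.le (by linarith)
  · exact (g5 Λ ℓ P hΛ hℓ hP hPL a2 hPc).mono (min_le_right _ _) hC5.le (by linarith)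

end Pool.Agent.PalM
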