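import Pool.Agent.PalM.Mix
import Pool.Agent.PalM.Bern
import Pool.Agent.PalL.Kernel
import Pool.Agent.PalM.Avg

/-!
# Majorants that are cosine polynomials with nonnegative coefficients
-/

namespace Pool.Agent.PalM

open Finset Pool.Agent.Pal Pool.Agent.PalL

/-- The cosine through exponentials. -/
lemma cos_eq_ex (t : ℝ) : ((Real.cos (2 * Real.pi * t) : ℝ) : ℂ) =
    ∑ e : Bool, (1 / 2 : ℂ) * ex ((if e then 1 else -1) * t) := by
  rw [Fintype.sum_bool, Complex.ofReal_cos, Complex.cos]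
  unfold ex
  simp only [if_true, Bool.false_eq_true, if_false, one_mul]
  push_cast
  rw [show (2 * (Real.pi : ℂ) * (-1 * t)) * Complex.I = -(2 * Real.pi * t) * Complex.I by ring]
  ring

/-- A product of cosines. -/
lemma prod_cos_eq {L : ℕ} (p : Fin L → ℤ) (x : Fin L → ℝ) :
    ((∏ r, Real.cos (2 * Real.pi * (p r * x r)) : ℝ) : ℂ) =
      ∑ e : Fin L → Bool, ((1 / 2 : ℝ) ^ L : ℂ) *
        ex (∑ r, ((if e r then (1 : ℤ) else -1) * p r : ℤ) * x r) := by
  rw [Complex.ofReal_prod]
  simp only [cos_eq_ex]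
  rw [Finset.prod_univ_sum, Fintype.piFinset_univ]
  refine Finset.sum_congr rfl fun e _ => ?_
  rw [Finset.prod_mul_distrib]
  congr 1
  · rw [Finset.prod_const, card_univ, Fintype.card_fin]
    push_cast
    rfl
  · have e1 : ∀ s : Finset (Fin L), ∏ r ∈ s, ex ((if e r then 1 else -1) * (p r * x r)) =
        ex (∑ r ∈ s, ((if e r then (1 : ℤ) else -1) * p r : ℤ) * x r) := by
      intro s
      classical
      induction s using Finset.induction_on with
      | empty => simp [ex_zero]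
      | insert a s ha ih =>
        rw [Finset.prod_insert ha, Finset.sum_insert ha, ih, ← ex_add]
        congr 2
        split_ifs <;> push_cast <;> ring
    exact e1 univ

/-- Cosine polynomials in independent variables are admissible. -/
theorem hasMaj_of_cos {b L : ℕ} (hb : 1 ≤ b) (c : (Fin L → Fin b) → ℝ) (hc : ∀ p, 0 ≤ c p)
    (hs : ∑ p, c p = 1) (p0 : Fin L → Fin b) (hp0 : ∀ r, (p0 r : ℕ) = 0)
    (hmaj : ∀ x : Fin L → ℝ, ∏ r, phi b (x r) ≤
      ∑ p, c p * ∏ r, Real.cos (2 * Real.pi * ((p r : ℕ) * x r))) :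
    HasMaj b L 1 (c p0) := by
  have hb' : (1 : ℤ) ≤ b := by exact_mod_cast hb
  set u : (Fin L → Fin b) × (Fin L → Bool) → Fin L → ℤ := fun i r =>
    (if i.2 r then (1 : ℤ) else -1) * ((i.1 r : ℕ) : ℤ) with hu
  have hu1 : ∀ i r, |u i r| < b := by
    intro i r
    have h := (i.1 r).2
    simp only [hu]
    split_ifs
    · rw [one_mul, Nat.abs_cast]; exact_mod_cast h
    · rw [neg_one_mul, abs_neg, Nat.abs_cast]; exact_mod_cast h
  refine ⟨(Fin L → Fin b) × (Fin L → Bool), inferInstance, fun i => c i.1 * (1 / 2) ^ L,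
    fun i => ∑ r : Fin L, u i r * (b : ℤ) ^ (r : ℕ),
    fun i => ∑ r : Fin L, u i r * (b : ℤ) ^ (L - 1 - (r : ℕ)),
    fun w v => ∑ p, c p * ∏ r : Fin L, Real.cos (2 * Real.pi * ((p r : ℕ) *
      ((b : ℝ) ^ (r : ℕ) * w + (b : ℝ) ^ (L - 1 - (r : ℕ)) * v))), ?_, ?_, ?_, ?_, ?_, ?_, ?_⟩
  · intro i
    exact mul_nonneg (hc _) (by positivity)
  · intro i
    exact digits_lt hb' L (u i) (hu1 i)
  · intro i
    have h := digits_lt hb' L (fun r => u i r.rev) (fun r => hu1 i _)
    have e : ∑ r : Fin L, u i r * (b : ℤ) ^ (L - 1 - (r : ℕ)) =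
        ∑ r : Fin L, u i r.rev * (b : ℤ) ^ (r : ℕ) := by
      rw [← Equiv.sum_comp Fin.revPerm]
      refine Finset.sum_congr rfl fun r _ => ?_
      rw [Fin.revPerm_apply, Fin.val_rev]
      congr 2
      have := r.2
      omega
    show |∑ r : Fin L, u i r * (b : ℤ) ^ (L - 1 - (r : ℕ))| < (b : ℤ) ^ L
    rw [e]
    exact h
  · intro w v
    rw [Fintype.sum_prod_type, Complex.ofReal_sum]
    refine Finset.sum_congr rfl fun p _ => ?_
    rw [Complex.ofReal_mul]
    have h := prod_cos_eq (fun r => ((p r : ℕ) : ℤ))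
      (fun r => (b : ℝ) ^ (r : ℕ) * w + (b : ℝ) ^ (L - 1 - (r : ℕ)) * v)
    simp only [Int.cast_natCast] at h
    rw [h, Finset.mul_sum]
    refine Finset.sum_congr rfl fun e _ => ?_
    rw [← mul_assoc]
    congr 2
    · push_cast; ring
    · push_cast
      rw [Finset.sum_mul, Finset.sum_mul, ← Finset.sum_add_distrib]
      refine Finset.sum_congr rfl fun r _ => ?_
      simp only [hu]
      push_cast
      ring
  · rw [Fintype.sum_prod_type]
    refine Eq.trans ?_ hs
    refine Finset.sum_congr rfl fun p _ => ?_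
    simp only
    rw [sum_const, card_univ, Fintype.card_fun, Fintype.card_bool, Fintype.card_fin, nsmul_eq_mul]
    push_cast
    have : (2 : ℝ) ^ L ≠ 0 := by positivity
    rw [one_div, inv_pow]
    field_simp
  · rw [Finset.sum_filter, Fintype.sum_prod_type]
    have h1 : ∀ p ∈ (univ : Finset (Fin L → Fin b)), p ≠ p0 →
        ∑ e : Fin L → Bool, (if (∑ r : Fin L, u (p, e) r * (b : ℤ) ^ (r : ℕ)) = 0 ∧
          (∑ r : Fin L, u (p, e) r * (b : ℤ) ^ (L - 1 - (r : ℕ))) = 0 then
            c p * (1 / 2) ^ L else 0) = 0 := by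
      intro p _ hp
      refine Finset.sum_eq_zero fun e _ => ?_
      rw [if_neg]
      rintro ⟨h, _⟩
      have h2 := digits_zero hb' L (u (p, e)) (hu1 (p, e)) h
      apply hp
      funext r
      have h3 := h2 r
      have h5 := hp0 r
      have h4 : ((p r : ℕ) : ℤ) = 0 := by
        simp only [hu] at h3
        split_ifs at h3 <;> omega
      exact Fin.ext (by omega)
    rw [Finset.sum_eq_single p0 h1 (fun h => absurd (mem_univ _) h)]
    calc ∑ e : Fin L → Bool, (if (∑ r : Fin L, u (p0, e) r * (b : ℤ) ^ (r : ℕ)) = 0 ∧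
          (∑ r : Fin L, u (p0, e) r * (b : ℤ) ^ (L - 1 - (r : ℕ))) = 0 then
            c p0 * (1 / 2) ^ L else 0)
        ≤ ∑ e : Fin L → Bool, c p0 * (1 / 2) ^ L := by
          refine Finset.sum_le_sum fun e _ => ?_
          have := mul_nonneg (hc p0) (by positivity : (0 : ℝ) ≤ (1 / 2) ^ L)
          split_ifs
          · exact le_rfl
          · exact this
      _ = c p0 := by
        rw [sum_const, card_univ, Fintype.card_fun, Fintype.card_bool, Fintype.card_fin,
          nsmul_eq_mul]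
        push_cast
        have : (2 : ℝ) ^ L ≠ 0 := by positivity
        rw [one_div, inv_pow]
        field_simp
  · intro w v
    rw [Real.rpow_one]
    have h := hmaj (fun r : Fin L => (b : ℝ) ^ (r : ℕ) * w + (b : ℝ) ^ (L - 1 - (r : ℕ)) * v)
    unfold Phi
    rw [← Fin.prod_univ_eq_prod_range
      (fun r => phi b ((b : ℝ) ^ r * w + (b : ℝ) ^ (L - 1 - r) * v)) L]
    exact h

end Pool.Agent.PalM
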