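import Pool.Agent.PalM.Major2

/-!
# The explicit family of majorants
-/

namespace Pool.Agent.PalM

open Finset Pool.Agent.Pal

/-- The harmonic sums. -/
noncomputable def HH (b : ℕ) : ℝ := ∑ m ∈ range b, 1 / ((m : ℝ) + 1)

lemma sum_fin_fin {α : Type*} [AddCommMonoid α] (m : ℕ) (f : ℕ → ℕ → α) :
    ∑ p : Fin m, ∑ q : Fin m, f p q = ∑ p ∈ range m, ∑ q ∈ range m, f p q := by
  rw [Finset.sum_range]
  refine Finset.sum_congr rfl fun p _ => ?_
  rw [Finset.sum_range]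

lemma phi_sq_eq {m : ℕ} (y : ℝ) : ((phi m y ^ 2 : ℝ) : ℂ) =
    ∑ p ∈ range m, ∑ q ∈ range m, ((1 / (m : ℝ) ^ 2 : ℝ) : ℂ) * ex (((p : ℤ) - (q : ℤ) : ℤ) * y) := by
  have h1 := norm_sq_sum_ex (range m) (fun n => n) y
  have h2 : ((phi m y ^ 2 : ℝ) : ℂ) = ((1 / (m : ℝ) ^ 2 : ℝ) : ℂ) * ((‖dir m y‖ ^ 2 : ℝ) : ℂ) := by
    rw [← Complex.ofReal_mul]
    congr 1
    unfold phi
    ring
  rw [h2]
  unfold dir
  rw [h1, Finset.mul_sum]
  refine Finset.sum_congr rfl fun p _ => ?_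
  rw [Finset.mul_sum]

/-- The weights of the mixture. -/
noncomputable def wt' (b m : ℕ) : ℝ := 17 / 20 / b + if m + 1 = b then 3 / 20 else 0

lemma wt'_nonneg (b m : ℕ) : 0 ≤ wt' b m := by
  unfold wt'
  split_ifs <;> positivity

/-- The sum against the weights. -/
lemma sum_wt' {b : ℕ} (hb : 1 ≤ b) {α : Type*} [AddCommGroup α] [Module ℝ α] (f : ℕ → α) :
    ∑ m ∈ range b, wt' b m • f m = (17 / 20 / (b : ℝ)) • ∑ m ∈ range b, f m +
      (3 / 20 : ℝ) • f (b - 1) := by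
  unfold wt'
  simp only [add_smul, Finset.sum_add_distrib]
  rw [← Finset.smul_sum]
  congr 1
  rw [Finset.sum_eq_single (b - 1)]
  · rw [if_pos (by omega)]
  · intro m hm hne
    rw [mem_range] at hm
    rw [if_neg (by omega), zero_smul]
  · intro h
    rw [mem_range] at h
    omega

/-- **The majorant as a mixture.** -/
theorem hasMaj {b : ℕ} (hb : 7 ≤ b) : HasMaj b 1 1 ((3 / 20 + 17 / 20 * HH b) / b) := by
  have hb0 : (b : ℝ) ≠ 0 := by
    have : b ≠ 0 := by omega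
    exact_mod_cast this
  set ι := Σ m : Fin b, Fin ((m : ℕ) + 1) × Fin ((m : ℕ) + 1) with hι
  have hsig : ∀ {α : Type} [AddCommMonoid α] (F : ℕ → ℕ → ℕ → α),
      ∑ i : ι, F i.1 i.2.1 i.2.2 = ∑ m ∈ range b, ∑ p ∈ range (m + 1), ∑ q ∈ range (m + 1), F m p q := by
    intro α _ F
    rw [Fintype.sum_sigma, Finset.sum_range]
    refine Finset.sum_congr rfl fun m _ => ?_
    rw [Fintype.sum_prod_type]
    exact sum_fin_fin _ (F m)
  refine ⟨ι, inferInstance, fun i => wt' b i.1 / (((i.1 : ℕ) : ℝ) + 1) ^ 2,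
    fun i => (((i.2.1 : ℕ) : ℤ) - ((i.2.2 : ℕ) : ℤ)),
    fun i => (((i.2.1 : ℕ) : ℤ) - ((i.2.2 : ℕ) : ℤ)),
    fun w v => 3 / 20 * phi b (w + v) ^ 2 + 17 / 20 * ((∑ m ∈ range b, phi (m + 1) (w + v) ^ 2) / b),
    ?_, ?_, ?_, ?_, ?_, ?_, ?_⟩
  · intro i
    exact div_nonneg (wt'_nonneg _ _) (by positivity)
  · intro i
    have h1 := i.1.isLt
    have h2 := i.2.1.isLt
    have h3 := i.2.2.isLt
    show |(((i.2.1 : ℕ) : ℤ) - ((i.2.2 : ℕ) : ℤ))| < (b : ℤ) ^ 1
    rw [pow_one, abs_lt]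
    constructor <;> omega
  · intro i
    have h1 := i.1.isLt
    have h2 := i.2.1.isLt
    have h3 := i.2.2.isLt
    show |(((i.2.1 : ℕ) : ℤ) - ((i.2.2 : ℕ) : ℤ))| < (b : ℤ) ^ 1
    rw [pow_one, abs_lt]
    constructor <;> omega
  · intro w v
    have e1 := hsig (fun m p q => ((wt' b m / ((m : ℝ) + 1) ^ 2 : ℝ) : ℂ) *
      ex ((((p : ℤ) - (q : ℤ) : ℤ) : ℝ) * w + (((p : ℤ) - (q : ℤ) : ℤ) : ℝ) * v))
    rw [e1]
    have e2 := sum_wt' (b := b) (by omega) (fun m => ((phi (m + 1) (w + v) ^ 2 : ℝ)))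
    have e3 : b - 1 + 1 = b := by omega
    simp only [smul_eq_mul, e3] at e2
    have e4 : (3 / 20 * phi b (w + v) ^ 2 + 17 / 20 * ((∑ m ∈ range b, phi (m + 1) (w + v) ^ 2) / b)) =
        ∑ m ∈ range b, wt' b m * phi (m + 1) (w + v) ^ 2 := by
      rw [e2]
      ring
    show ((3 / 20 * phi b (w + v) ^ 2 + 17 / 20 * ((∑ m ∈ range b, phi (m + 1) (w + v) ^ 2) / b) : ℝ) : ℂ) = _
    rw [e4, Complex.ofReal_sum]
    refine Finset.sum_congr rfl fun m _ => ?_
    rw [Complex.ofReal_mul, phi_sq_eq, Finset.mul_sum]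
    refine Finset.sum_congr rfl fun p _ => ?_
    rw [Finset.mul_sum]
    refine Finset.sum_congr rfl fun q _ => ?_
    rw [← mul_assoc, ← Complex.ofReal_mul]
    congr 2
    · push_cast
      ring
    · ring
  · have e1 := hsig (fun m _ _ => wt' b m / ((m : ℝ) + 1) ^ 2)
    rw [e1]
    have e2 : ∀ m ∈ range b, ∑ p ∈ range (m + 1), ∑ q ∈ range (m + 1), wt' b m / ((m : ℝ) + 1) ^ 2 =
        wt' b m • (1 : ℝ) := by
      intro m _
      rw [sum_const, sum_const, card_range, nsmul_eq_mul, nsmul_eq_mul]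
      push_cast
      field_simp
      simp
    rw [Finset.sum_congr rfl e2, sum_wt' (by omega), sum_const, card_range]
    simp only [nsmul_eq_mul, smul_eq_mul, mul_one]
    field_simp
    norm_num
  · rw [Finset.sum_filter]
    have e1 := hsig (fun m p q => if (((p : ℤ) - (q : ℤ)) = 0 ∧ ((p : ℤ) - (q : ℤ)) = 0) then
      wt' b m / ((m : ℝ) + 1) ^ 2 else 0)
    rw [e1]
    have e2 : ∀ m ∈ range b, ∑ p ∈ range (m + 1), ∑ q ∈ range (m + 1),
        (if (((p : ℤ) - (q : ℤ)) = 0 ∧ ((p : ℤ) - (q : ℤ)) = 0) then wt' b m / ((m : ℝ) + 1) ^ 2 else 0) =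
        wt' b m • (1 / ((m : ℝ) + 1)) := by
      intro m _
      have e3 : ∀ p ∈ range (m + 1), ∑ q ∈ range (m + 1),
          (if (((p : ℤ) - (q : ℤ)) = 0 ∧ ((p : ℤ) - (q : ℤ)) = 0) then wt' b m / ((m : ℝ) + 1) ^ 2 else 0) =
          wt' b m / ((m : ℝ) + 1) ^ 2 := by
        intro p hp
        rw [Finset.sum_eq_single p]
        · rw [if_pos (by omega)]
        · intro q _ hne
          rw [if_neg (by omega)]
        · intro h
          exact absurd hp h
      rw [Finset.sum_congr rfl e3, sum_const, card_range, nsmul_eq_mul, smul_eq_mul]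
      push_cast
      field_simp
    rw [Finset.sum_congr rfl e2, sum_wt' (by omega)]
    have e4 : b - 1 + 1 = b := by omega
    have e5 : ((b - 1 : ℕ) : ℝ) + 1 = b := by exact_mod_cast e4
    rw [e5]
    unfold HH
    simp only [smul_eq_mul]
    refine le_of_eq ?_
    ring
  · intro w v
    rw [Real.rpow_one]
    have e1 : Phi b 1 w v = phi b (w + v) := by
      unfold Phi
      rw [Finset.prod_range_one]
      simp
    rw [e1]
    exact phi_le_major hb (w + v)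

end Pool.Agent.PalM
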