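import Pool.Agent.PalM.Sum

/-!
# First moments from a majorant
-/

namespace Pool.Agent.PalM

open Finset Pool.Agent.Pal

lemma HasMaj.nonneg {b L : ℕ} {γ z : ℝ} (h : HasMaj b L γ z) : 0 ≤ z := by
  obtain ⟨ι, hι, c, h1, h2, G, hc, hh1, hh2, hG, hs, hz, hmaj⟩ := h
  exact (Finset.sum_nonneg fun i _ => hc i).trans hz

/-- Two-factor Hölder inequality. -/
lemma holder2 {ι : Type*} (s : Finset ι) (f F W : ι → ℝ) {A B σ : ℝ} (hA : 0 < A) (hB : 0 < B)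
    (hσ0 : 0 ≤ σ) (hσ1 : σ ≤ 1) (hF : ∀ x ∈ s, 0 ≤ F x) (hW : ∀ x ∈ s, 0 ≤ W x)
    (h : ∀ x ∈ s, f x ≤ F x ^ σ * W x ^ (1 - σ)) (h1 : ∑ x ∈ s, F x ≤ A) (h2 : ∑ x ∈ s, W x ≤ B) :
    ∑ x ∈ s, f x ≤ A ^ σ * B ^ (1 - σ) := by
  set t : ℝ := A ^ σ * B ^ (1 - σ) with ht
  have ht0 : 0 < t := mul_pos (Real.rpow_pos_of_pos hA _) (Real.rpow_pos_of_pos hB _)
  have key : ∀ x ∈ s, f x ≤ t * (σ * (F x / A) + (1 - σ) * (W x / B)) := by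
    intro x hx
    have e1 := Real.geom_mean_le_arith_mean2_weighted (w₁ := σ) (w₂ := 1 - σ) (p₁ := F x / A)
      (p₂ := W x / B) hσ0 (by linarith) (div_nonneg (hF x hx) hA.le) (div_nonneg (hW x hx) hB.le)
      (by ring)
    have e2 : F x ^ σ * W x ^ (1 - σ) = t * ((F x / A) ^ σ * (W x / B) ^ (1 - σ)) := by
      rw [Real.div_rpow (hF x hx) hA.le, Real.div_rpow (hW x hx) hB.le, ht]
      have a1 := (Real.rpow_pos_of_pos hA σ).ne'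
      have a2 := (Real.rpow_pos_of_pos hB (1 - σ)).ne'
      field_simp
    calc f x ≤ F x ^ σ * W x ^ (1 - σ) := h x hx
      _ = t * ((F x / A) ^ σ * (W x / B) ^ (1 - σ)) := e2
      _ ≤ _ := mul_le_mul_of_nonneg_left e1 ht0.le
  refine (Finset.sum_le_sum key).trans ?_
  rw [← Finset.mul_sum, Finset.sum_add_distrib, ← Finset.mul_sum, ← Finset.mul_sum,
    ← Finset.sum_div, ← Finset.sum_div]
  have e1 : (∑ x ∈ s, F x) / A ≤ 1 := (div_le_one hA).mpr h1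
  have e2 : (∑ x ∈ s, W x) / B ≤ 1 := (div_le_one hB).mpr h2
  have e3 : σ * ((∑ x ∈ s, F x) / A) + (1 - σ) * ((∑ x ∈ s, W x) / B) ≤ 1 := by nlinarith
  calc t * (σ * ((∑ x ∈ s, F x) / A) + (1 - σ) * ((∑ x ∈ s, W x) / B)) ≤ t * 1 :=
        mul_le_mul_of_nonneg_left e3 ht0.le
    _ = t := mul_one t

/-- The interpolation exponent. -/
noncomputable def sg (γ : ℝ) : ℝ := 1 / (2 - γ)

lemma sg_pos {γ : ℝ} (h : γ < 1) : 0 < sg γ := by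
  unfold sg
  have : 0 < 2 - γ := by linarith
  positivity

lemma sg_lt {γ : ℝ} (h : γ < 1) : sg γ < 1 := by
  unfold sg
  rw [div_lt_one (by linarith)]
  linarith

lemma sg_eq {γ : ℝ} (h : γ < 1) : γ * sg γ + 2 * (1 - sg γ) = 1 := by
  unfold sg
  have : (2 - γ) ≠ 0 := by
    have : 0 < 2 - γ := by linarith
    exact this.ne'
  field_simp
  ring

/-- Interpolation between the majorant and the second moment of an inner block. -/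
lemma mom_save {b ℓ m n' a : ℕ} (I : Finset (ℕ × ℕ)) {γ : ℝ} (hγ0 : 0 ≤ γ) (hγ1 : γ < 1)
    {F : ℝ → ℝ} (hF0 : ∀ α, 0 ≤ F α) (hF : ∀ α, (blk b ℓ 0 n' α) ^ γ ≤ F α) (hn' : n' ≤ m)
    {K V Y R : ℝ} (hK : 0 < K) (hV : 0 < V) (hY : 0 < Y) (hR : 0 < R)
    (h1 : ∑ x ∈ I, F (pt b x) ≤ K * V * Y)
    (h2 : ∑ x ∈ I, (blk b ℓ a m (pt b x)) ^ 2 ≤ K * V * R) :
    ∑ x ∈ I, blk b ℓ 0 m (pt b x) ≤ K * V * (Y ^ sg γ * R ^ (1 - sg γ)) := by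
  have s0 := sg_pos hγ1
  have s1 := sg_lt hγ1
  have h := holder2 I (fun x => blk b ℓ 0 m (pt b x)) (fun x => F (pt b x))
    (fun x => (blk b ℓ a m (pt b x)) ^ 2) (A := K * V * Y) (B := K * V * R) (σ := sg γ)
    (by positivity) (by positivity) s0.le s1.le (fun x _ => hF0 _) (fun x _ => sq_nonneg _)
    (by
      intro x _
      set f := blk b ℓ 0 m (pt b x) with hf
      have f0 : 0 ≤ f := blk_nonneg _ _ _ _ _
      have f1 : f ≤ blk b ℓ 0 n' (pt b x) := blk_le_of_le b ℓ le_rfl hn' _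
      have f2 : f ≤ blk b ℓ a m (pt b x) := blk_le_of_le b ℓ (Nat.zero_le a) le_rfl _
      have e1 : f = f ^ (γ * sg γ) * f ^ (2 * (1 - sg γ)) := by
        rw [← Real.rpow_add_of_nonneg f0 (mul_nonneg hγ0 s0.le) (by linarith), sg_eq hγ1,
          Real.rpow_one]
      have e2 : f ^ (γ * sg γ) ≤ F (pt b x) ^ sg γ := by
        rw [Real.rpow_mul f0]
        refine Real.rpow_le_rpow (Real.rpow_nonneg f0 _) ?_ s0.le
        exact (Real.rpow_le_rpow f0 f1 hγ0).trans (hF _)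
      have e3 : f ^ (2 * (1 - sg γ)) ≤ ((blk b ℓ a m (pt b x)) ^ 2) ^ (1 - sg γ) := by
        rw [Real.rpow_mul f0, Real.rpow_two]
        exact Real.rpow_le_rpow (sq_nonneg _) (pow_le_pow_left₀ f0 f2 2) (by linarith)
      calc f = f ^ (γ * sg γ) * f ^ (2 * (1 - sg γ)) := e1
        _ ≤ _ := mul_le_mul e2 e3 (Real.rpow_nonneg f0 _) (Real.rpow_nonneg (hF0 _) _)) h1 h2
  refine h.trans (le_of_eq ?_)
  rw [Real.mul_rpow (by positivity) hY.le, Real.mul_rpow (by positivity) hR.le]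
  have e1 : (K * V) ^ sg γ * (K * V) ^ (1 - sg γ) = K * V := by
    rw [← Real.rpow_add (by positivity)]
    rw [add_sub_cancel, Real.rpow_one]
  calc (K * V) ^ sg γ * Y ^ sg γ * ((K * V) ^ (1 - sg γ) * R ^ (1 - sg γ))
      = ((K * V) ^ sg γ * (K * V) ^ (1 - sg γ)) * (Y ^ sg γ * R ^ (1 - sg γ)) := by ring
    _ = _ := by rw [e1]

/-- The plain bound for the sum of a block by the sum of the majorant. -/
lemma mom_plain {b ℓ m n' : ℕ} (I : Finset (ℕ × ℕ)) {γ : ℝ} (hγ0 : 0 ≤ γ) (hγ1 : γ ≤ 1)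
    {F : ℝ → ℝ} (hF : ∀ α, (blk b ℓ 0 n' α) ^ γ ≤ F α) (hn' : n' ≤ m) :
    ∑ x ∈ I, blk b ℓ 0 m (pt b x) ≤ ∑ x ∈ I, F (pt b x) := by
  refine Finset.sum_le_sum fun x _ => ?_
  have f1 : blk b ℓ 0 m (pt b x) ≤ blk b ℓ 0 n' (pt b x) := blk_le_of_le b ℓ le_rfl hn' _
  have f0 : 0 ≤ blk b ℓ 0 n' (pt b x) := blk_nonneg _ _ _ _ _
  have f3 : blk b ℓ 0 n' (pt b x) ≤ 1 := blk_le_one _ _ _ _ _
  refine f1.trans (le_trans ?_ (hF _))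
  rcases hγ0.eq_or_lt with h | h
  · rw [← h, Real.rpow_zero]; exact f3
  · calc blk b ℓ 0 n' (pt b x) = blk b ℓ 0 n' (pt b x) ^ (1 : ℝ) := (Real.rpow_one _).symm
      _ ≤ _ := Real.rpow_le_rpow_of_exponent_ge_of_imp f0 f3 hγ1 (fun _ hc => by linarith)

/-- The numerical form of the diagonal term. -/
lemma diag_le {b L ℓ D : ℕ} (hb : 2 ≤ b) (hL : 1 ≤ L) {z θ : ℝ} (hz0 : 0 ≤ z) (hθ : 0 ≤ θ)
    (hz : z ≤ (b : ℝ) ^ (-(2 * θ * L))) (hD : 1 ≤ D) :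
    (D : ℝ) * z ^ ((ℓ + 1) / 2 / L) ≤
      Real.exp (2 * θ * L * Real.log b) * Real.exp (Real.log D - θ * (Real.log b * ℓ)) := by
  have hlb := log_pos_b hb
  have hbp : (0 : ℝ) < b := by
    have : 0 < b := by omega
    exact_mod_cast this
  have hDp : (0 : ℝ) < D := by exact_mod_cast hD
  set n := (ℓ + 1) / 2 / L with hn
  have h1 : z ^ n ≤ Real.exp (-(2 * θ * L * Real.log b * n)) := by
    calc z ^ n ≤ ((b : ℝ) ^ (-(2 * θ * L))) ^ n := pow_le_pow_left₀ hz0 hz n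
      _ = Real.exp (-(2 * θ * L * Real.log b * n)) := by
        rw [Real.rpow_def_of_pos hbp, ← Real.exp_nat_mul]
        congr 1
        ring
  have h2 : (ℓ : ℝ) / 2 - L ≤ L * n := by
    have h3 : (ℓ + 1) / 2 < L * (n + 1) := by
      rw [hn]
      exact Nat.lt_mul_div_succ _ (by omega)
    have h4 : ℓ ≤ 2 * (L * n) + 2 * L := by
      have : L * (n + 1) = L * n + L := by ring
      omega
    have h5 : (ℓ : ℝ) ≤ 2 * (L * n) + 2 * L := by exact_mod_cast h4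
    linarith
  have h3 : 2 * θ * Real.log b * ((ℓ : ℝ) / 2 - L) ≤ 2 * θ * Real.log b * (L * n) :=
    mul_le_mul_of_nonneg_left h2 (by positivity)
  calc (D : ℝ) * z ^ n ≤ D * Real.exp (-(2 * θ * L * Real.log b * n)) :=
        mul_le_mul_of_nonneg_left h1 hDp.le
    _ = Real.exp (Real.log D) * Real.exp (-(2 * θ * L * Real.log b * n)) := by
        rw [Real.exp_log hDp]
    _ ≤ _ := by
        rw [← Real.exp_add, ← Real.exp_add, Real.exp_le_exp]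
        linarith

/-- Numerical form of the bound without saving. -/
lemma num_plain {b L ℓ D : ℕ} (hb : 2 ≤ b) (hL : 1 ≤ L) {z θ η : ℝ} (hz0 : 0 ≤ z) (hθ : 0 ≤ θ)
    (hz : z ≤ (b : ℝ) ^ (-(2 * θ * L))) (hD : 1 ≤ D) {K V M : ℝ} (hK : 0 ≤ K) (hV : 0 ≤ V)
    (hM0 : 0 ≤ M)
    (hM : M ≤ K * V * ((D : ℝ) * z ^ ((ℓ + 1) / 2 / L) + ((b : ℝ) ^ (ℓ + 1)) ^ η)) :
    M ^ 2 ≤ (2 * (K * Real.exp (2 * θ * L * Real.log b)) ^ 2) * V ^ 2 *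
      (Real.exp (2 * (Real.log D - θ * (Real.log b * ℓ))) +
        Real.exp (2 * (η * (Real.log b * ((ℓ : ℝ) + 1))))) := by
  have hlb := log_pos_b hb
  have h1 := diag_le (ℓ := ℓ) hb hL hz0 hθ hz hD
  have h2 : ((b : ℝ) ^ (ℓ + 1)) ^ η = Real.exp (η * (Real.log b * ((ℓ : ℝ) + 1))) := by
    rw [pow_eq_exp hb, ← Real.exp_mul]
    congr 1
    push_cast
    ring
  rw [h2] at hM
  set CL := Real.exp (2 * θ * L * Real.log b) with hCL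
  have hCL1 : 1 ≤ CL := Real.one_le_exp (by positivity)
  set e1 := Real.exp (Real.log D - θ * (Real.log b * ℓ)) with he1
  set e2 := Real.exp (η * (Real.log b * ((ℓ : ℝ) + 1))) with he2
  have e10 : 0 < e1 := Real.exp_pos _
  have e20 : 0 < e2 := Real.exp_pos _
  have h3 : M ≤ K * V * (CL * (e1 + e2)) := by
    refine hM.trans (mul_le_mul_of_nonneg_left ?_ (mul_nonneg hK hV))
    nlinarith
  have h4 : Real.exp (2 * (Real.log D - θ * (Real.log b * ℓ))) = e1 ^ 2 := by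
    rw [he1, ← Real.exp_nat_mul]; norm_num
  have h5 : Real.exp (2 * (η * (Real.log b * ((ℓ : ℝ) + 1)))) = e2 ^ 2 := by
    rw [he2, ← Real.exp_nat_mul]; norm_num
  rw [h4, h5]
  calc M ^ 2 ≤ (K * V * (CL * (e1 + e2))) ^ 2 := pow_le_pow_left₀ hM0 h3 2
    _ = (K * CL) ^ 2 * V ^ 2 * (e1 + e2) ^ 2 := by ring
    _ ≤ (K * CL) ^ 2 * V ^ 2 * (2 * (e1 ^ 2 + e2 ^ 2)) := by
        refine mul_le_mul_of_nonneg_left ?_ (by positivity)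
        nlinarith [sq_nonneg (e1 - e2)]
    _ = _ := by ring

/-- Numerical form of the bound with a saving. -/
lemma num_save {b L ℓ D g : ℕ} (hb : 2 ≤ b) (hL : 1 ≤ L) {z θ η γ ρ : ℝ} (hz0 : 0 ≤ z)
    (hθ : 0 ≤ θ) (hz : z ≤ (b : ℝ) ^ (-(2 * θ * L))) (hD : 1 ≤ D) (hη : 0 ≤ η) (hγ1 : γ < 1)
    (hρ : 0 < ρ) {K V M : ℝ} (hK : 0 ≤ K) (hV : 0 ≤ V) (hM0 : 0 ≤ M)
    (hlog : Real.log D ≤ θ * (Real.log b * ℓ))
    (hM : M ≤ K * V * (((D : ℝ) * z ^ ((ℓ + 1) / 2 / L) + ((b : ℝ) ^ (ℓ + 1)) ^ η) ^ sg γ *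
      (ρ ^ g) ^ (1 - sg γ))) :
    M ^ 2 ≤ (K * (2 * Real.exp (2 * θ * L * Real.log b))) ^ 2 * V ^ 2 *
      Real.exp (2 * (η * (Real.log b * ((ℓ : ℝ) + 1))) - 2 * (1 - sg γ) * (-Real.log ρ) * g) := by
  have hlb := log_pos_b hb
  have h1 := diag_le (ℓ := ℓ) hb hL hz0 hθ hz hD
  have h2 : ((b : ℝ) ^ (ℓ + 1)) ^ η = Real.exp (η * (Real.log b * ((ℓ : ℝ) + 1))) := by
    rw [pow_eq_exp hb, ← Real.exp_mul]
    congr 1
    push_cast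
    ring
  rw [h2] at hM
  set CL := Real.exp (2 * θ * L * Real.log b) with hCL
  have hCL1 : 1 ≤ CL := Real.one_le_exp (by positivity)
  set e2 := Real.exp (η * (Real.log b * ((ℓ : ℝ) + 1))) with he2
  have e20 : 1 ≤ e2 := Real.one_le_exp (by positivity)
  have e10 : Real.exp (Real.log D - θ * (Real.log b * ℓ)) ≤ 1 := by
    rw [Real.exp_le_one_iff]; linarith
  have s0 := sg_pos hγ1
  have s1 := sg_lt hγ1
  have hY0 : 0 ≤ (D : ℝ) * z ^ ((ℓ + 1) / 2 / L) + e2 := by positivity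
  have h3 : (D : ℝ) * z ^ ((ℓ + 1) / 2 / L) + e2 ≤ 2 * CL * e2 := by
    have : CL * Real.exp (Real.log D - θ * (Real.log b * ℓ)) ≤ CL * 1 :=
      mul_le_mul_of_nonneg_left e10 (by linarith)
    nlinarith
  have h4 : ((D : ℝ) * z ^ ((ℓ + 1) / 2 / L) + e2) ^ sg γ ≤ 2 * CL * e2 := by
    have h5 : (1 : ℝ) ≤ 2 * CL * e2 := by nlinarith
    calc ((D : ℝ) * z ^ ((ℓ + 1) / 2 / L) + e2) ^ sg γ ≤ (2 * CL * e2) ^ sg γ :=
          Real.rpow_le_rpow hY0 h3 s0.le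
      _ ≤ (2 * CL * e2) ^ (1 : ℝ) := Real.rpow_le_rpow_of_exponent_le h5 s1.le
      _ = _ := Real.rpow_one _
  have h5 : (ρ ^ g) ^ (1 - sg γ) = Real.exp (-((1 - sg γ) * (-Real.log ρ) * g)) := by
    rw [← Real.rpow_natCast, ← Real.rpow_mul hρ.le, Real.rpow_def_of_pos hρ]
    congr 1
    ring
  rw [h5] at hM
  set e3 := Real.exp (-((1 - sg γ) * (-Real.log ρ) * g)) with he3
  have e30 : 0 < e3 := Real.exp_pos _
  have h6 : M ≤ K * V * ((2 * CL * e2) * e3) :=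
    hM.trans (mul_le_mul_of_nonneg_left (mul_le_mul_of_nonneg_right h4 e30.le) (mul_nonneg hK hV))
  have h7 : Real.exp (2 * (η * (Real.log b * ((ℓ : ℝ) + 1))) -
      2 * (1 - sg γ) * (-Real.log ρ) * g) = (e2 * e3) ^ 2 := by
    rw [he2, he3, ← Real.exp_add, ← Real.exp_nat_mul]
    congr 1
    push_cast
    ring
  rw [h7]
  calc M ^ 2 ≤ (K * V * ((2 * CL * e2) * e3)) ^ 2 := pow_le_pow_left₀ hM0 h6 2
    _ = _ := by ring

/-- The bound for `T` without saving. -/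
theorem T_plain {b L : ℕ} (hb : 2 ≤ b) (hL : 1 ≤ L) {γ z θ : ℝ} (hγ0 : 0 ≤ γ) (hγ1 : γ ≤ 1)
    (h : HasMaj b L γ z) (hθ : 0 ≤ θ) (hz : z ≤ (b : ℝ) ^ (-(2 * θ * L))) {η : ℝ} (hη : 0 < η) :
    ∃ C : ℝ, 0 < C ∧ ∀ ℓ D : ℕ, 1 ≤ D →
      (T b ℓ D) ^ 2 ≤ C * (D : ℝ) ^ 2 * (Real.exp (2 * (Real.log D - θ * (Real.log b * ℓ))) +
        Real.exp (2 * (η * (Real.log b * ((ℓ : ℝ) + 1))))) := by
  obtain ⟨Cd, hCd, hdiv⟩ := card_divisors_le_rpow hη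
  have hBp := BB_pos hb
  have hz0 := h.nonneg
  refine ⟨2 * ((2 * BB b * Cd) * Real.exp (2 * θ * L * Real.log b)) ^ 2, by positivity, ?_⟩
  intro ℓ D hD
  have hnL : (ℓ + 1) / 2 / L * L ≤ (ℓ + 1) / 2 := Nat.div_mul_le_self _ _
  obtain ⟨F, hF0, hF1, hF2⟩ := maj_J hb h hη hCd hdiv (ℓ := ℓ) (n := (ℓ + 1) / 2 / L) (D := D)
    (by omega) hD
  have h1 := mom_plain (m := (ℓ + 1) / 2) (J b D) hγ0 hγ1 hF1 hnL
  have hX : 0 < ((b : ℝ) ^ (ℓ + 1)) ^ η := by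
    have : (0 : ℝ) < b := by
      have : 0 < b := by omega
      exact_mod_cast this
    positivity
  have hDr : (1 : ℝ) ≤ D := by exact_mod_cast hD
  refine num_plain hb hL hz0 hθ hz hD (K := 2 * BB b * Cd) (V := D) (by positivity) (by positivity)
    (T_nonneg _ _ _) ?_
  refine h1.trans (hF2.trans ?_)
  have e1 : 0 ≤ (D : ℝ) * z ^ ((ℓ + 1) / 2 / L) := by positivity
  calc 2 * BB b * ((D : ℝ) ^ 2 * z ^ ((ℓ + 1) / 2 / L) + D * (Cd * ((b : ℝ) ^ (ℓ + 1)) ^ η))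
      = 2 * BB b * D * (D * z ^ ((ℓ + 1) / 2 / L) + Cd * ((b : ℝ) ^ (ℓ + 1)) ^ η) := by ring
    _ ≤ 2 * BB b * D * (Cd * (D * z ^ ((ℓ + 1) / 2 / L)) + Cd * ((b : ℝ) ^ (ℓ + 1)) ^ η) := by
        refine mul_le_mul_of_nonneg_left ?_ (by positivity)
        nlinarith
    _ = _ := by ring

/-- The bound for `T` with a saving. -/
theorem T_save {b L : ℕ} (hb : 2 ≤ b) (hL : 1 ≤ L) {γ z θ : ℝ} (hγ0 : 0 ≤ γ) (hγ1 : γ < 1)
    (h : HasMaj b L γ z) (hθ : 0 ≤ θ) (hz : z ≤ (b : ℝ) ^ (-(2 * θ * L))) :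
    ∃ r : ℝ, 0 < r ∧ ∀ η : ℝ, 0 < η → ∃ C : ℝ, 0 < C ∧ ∀ ℓ k g D : ℕ, g + 1 ≤ k →
      k + g + 1 ≤ (ℓ + 1) / 2 → 1 ≤ D → (D : ℝ) ≤ (b : ℝ) ^ k → (b : ℝ) ^ k ≤ b * D →
      Real.log D ≤ θ * (Real.log b * ℓ) →
      (T b ℓ D) ^ 2 ≤ C * (D : ℝ) ^ 2 *
        Real.exp (2 * (η * (Real.log b * ((ℓ : ℝ) + 1))) - r * g) := by
  obtain ⟨C1, ρ, hC1, hρ0, hρ1, hmain⟩ := exists_main_sq hb
  have s0 := sg_pos hγ1
  have s1 := sg_lt hγ1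
  have hlogρ : Real.log ρ < 0 := Real.log_neg hρ0 hρ1
  refine ⟨2 * (1 - sg γ) * (-Real.log ρ), by
    have : 0 < 1 - sg γ := by linarith
    have : 0 < -Real.log ρ := by linarith
    positivity, ?_⟩
  intro η hη
  obtain ⟨Cd, hCd, hdiv⟩ := card_divisors_le_rpow hη
  have hBp := BB_pos hb
  have hz0 := h.nonneg
  have hbp : (0 : ℝ) < b := by
    have : 0 < b := by omega
    exact_mod_cast this
  set K : ℝ := 2 * BB b * Cd + C1 * b with hK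
  have hK0 : 0 < K := by positivity
  refine ⟨(K * (2 * Real.exp (2 * θ * L * Real.log b))) ^ 2, by positivity, ?_⟩
  intro ℓ k g D hgk hkm hD hDk hkD hlog
  have hnL : (ℓ + 1) / 2 / L * L ≤ (ℓ + 1) / 2 := Nat.div_mul_le_self _ _
  obtain ⟨F, hF0, hF1, hF2⟩ := maj_J hb h hη hCd hdiv (ℓ := ℓ) (n := (ℓ + 1) / 2 / L) (D := D)
    (by omega) hD
  have hX : 0 < ((b : ℝ) ^ (ℓ + 1)) ^ η := by positivity
  have hDr : (1 : ℝ) ≤ D := by exact_mod_cast hD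
  have hDp : (0 : ℝ) < D := by linarith
  have e1 : 0 ≤ (D : ℝ) * z ^ ((ℓ + 1) / 2 / L) := by positivity
  set Y : ℝ := (D : ℝ) * z ^ ((ℓ + 1) / 2 / L) + ((b : ℝ) ^ (ℓ + 1)) ^ η with hY
  have hY0 : 0 < Y := by positivity
  have hS1 : ∑ x ∈ J b D, F (pt b x) ≤ K * D * Y := by
    refine hF2.trans ?_
    calc 2 * BB b * ((D : ℝ) ^ 2 * z ^ ((ℓ + 1) / 2 / L) + D * (Cd * ((b : ℝ) ^ (ℓ + 1)) ^ η))
        = 2 * BB b * D * (D * z ^ ((ℓ + 1) / 2 / L) + Cd * ((b : ℝ) ^ (ℓ + 1)) ^ η) := by ring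
      _ ≤ 2 * BB b * D * (Cd * (D * z ^ ((ℓ + 1) / 2 / L)) + Cd * ((b : ℝ) ^ (ℓ + 1)) ^ η) := by
          refine mul_le_mul_of_nonneg_left ?_ (by positivity)
          nlinarith
      _ = (2 * BB b * Cd) * D * Y := by rw [hY]; ring
      _ ≤ K * D * Y := by
          refine mul_le_mul_of_nonneg_right (mul_le_mul_of_nonneg_right ?_ hDp.le) hY0.le
          rw [hK]
          have : 0 ≤ C1 * (b : ℝ) := by positivity
          linarith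
  have hS2 : ∑ x ∈ J b D, (blk b ℓ ((ℓ + 1) / 2 - k - g - 1) ((ℓ + 1) / 2) (pt b x)) ^ 2 ≤
      K * D * ρ ^ g := by
    refine (hmain ℓ k g D hgk hkm hDk).trans ?_
    refine mul_le_mul_of_nonneg_right ?_ (by positivity)
    calc C1 * (b : ℝ) ^ k ≤ C1 * (b * D) := mul_le_mul_of_nonneg_left hkD hC1.le
      _ = (C1 * b) * D := by ring
      _ ≤ K * D := by
        refine mul_le_mul_of_nonneg_right ?_ hDp.le
        rw [hK]
        have : 0 ≤ 2 * BB b * Cd := by positivity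
        linarith
  have hm := mom_save (J b D) hγ0 hγ1 hF0 hF1 hnL hK0 hDp hY0 (pow_pos hρ0 g) hS1 hS2
  exact num_save hb hL hz0 hθ hz hD hη.le hγ1 hρ0 hK0.le hDp.le (T_nonneg _ _ _) hlog hm

/-- The bound for `TS` without saving. -/
theorem TS_plain {b L : ℕ} (hb : 2 ≤ b) (hL : 1 ≤ L) {γ z θ : ℝ} (hγ0 : 0 ≤ γ) (hγ1 : γ ≤ 1)
    (h : HasMaj b L γ z) (hθ : 0 ≤ θ) (hz : z ≤ (b : ℝ) ^ (-(2 * θ * L))) {η : ℝ} (hη : 0 < η) :
    ∃ C : ℝ, 0 < C ∧ ∀ ℓ P : ℕ, 1 ≤ P →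
      (TS b ℓ P) ^ 2 ≤ C * (P : ℝ) ^ 4 * (Real.exp (2 * (Real.log P - θ * (Real.log b * ℓ))) +
        Real.exp (2 * (η * (Real.log b * ((ℓ : ℝ) + 1))))) := by
  obtain ⟨Cd, hCd, hdiv⟩ := card_divisors_le_rpow hη
  have hBp := BB_pos hb
  have hz0 := h.nonneg
  refine ⟨2 * ((4 * BB b * Cd) * Real.exp (2 * θ * L * Real.log b)) ^ 2, by positivity, ?_⟩
  intro ℓ P hP
  have hnL : (ℓ + 1) / 2 / L * L ≤ (ℓ + 1) / 2 := Nat.div_mul_le_self _ _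
  obtain ⟨F, hF0, hF1, hF2⟩ := maj_JS hb h hη hCd hdiv (ℓ := ℓ) (n := (ℓ + 1) / 2 / L) (P := P)
    (by omega) hP
  have h1 := mom_plain (m := (ℓ + 1) / 2) (JS b P) hγ0 hγ1 hF1 hnL
  have hX : 0 < ((b : ℝ) ^ (ℓ + 1)) ^ η := by
    have : (0 : ℝ) < b := by
      have : 0 < b := by omega
      exact_mod_cast this
    positivity
  have hPr : (1 : ℝ) ≤ P := by exact_mod_cast hP
  have e4 : (P : ℝ) ^ 4 = ((P : ℝ) ^ 2) ^ 2 := by ring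
  rw [e4]
  refine num_plain hb hL hz0 hθ hz hP (K := 4 * BB b * Cd) (V := (P : ℝ) ^ 2) (by positivity)
    (by positivity) (TS_nonneg _ _ _) ?_
  refine h1.trans (hF2.trans ?_)
  have e1 : 0 ≤ (P : ℝ) * z ^ ((ℓ + 1) / 2 / L) := by positivity
  calc 4 * BB b * ((P : ℝ) ^ 3 * z ^ ((ℓ + 1) / 2 / L) +
        (P : ℝ) ^ 2 * (Cd * ((b : ℝ) ^ (ℓ + 1)) ^ η))
      = 4 * BB b * (P : ℝ) ^ 2 * (P * z ^ ((ℓ + 1) / 2 / L) + Cd * ((b : ℝ) ^ (ℓ + 1)) ^ η) := by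
        ring
    _ ≤ 4 * BB b * (P : ℝ) ^ 2 *
        (Cd * (P * z ^ ((ℓ + 1) / 2 / L)) + Cd * ((b : ℝ) ^ (ℓ + 1)) ^ η) := by
        refine mul_le_mul_of_nonneg_left ?_ (by positivity)
        nlinarith
    _ = _ := by ring

/-- The bound for `TS` with a saving. -/
theorem TS_save {b L : ℕ} (hb : 2 ≤ b) (hL : 1 ≤ L) {γ z θ : ℝ} (hγ0 : 0 ≤ γ) (hγ1 : γ < 1)
    (h : HasMaj b L γ z) (hθ : 0 ≤ θ) (hz : z ≤ (b : ℝ) ^ (-(2 * θ * L))) :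
    ∃ r : ℝ, 0 < r ∧ ∀ η : ℝ, 0 < η → ∃ C : ℝ, 0 < C ∧ ∀ ℓ k g P : ℕ, g + 1 ≤ k →
      k + g + 1 ≤ (ℓ + 1) / 2 → 1 ≤ P → (P : ℝ) ≤ (b : ℝ) ^ k → (b : ℝ) ^ k ≤ b * P →
      Real.log P ≤ θ * (Real.log b * ℓ) →
      (TS b ℓ P) ^ 2 ≤ C * (P : ℝ) ^ 4 *
        Real.exp (2 * (η * (Real.log b * ((ℓ : ℝ) + 1))) - r * g) := by
  obtain ⟨C1, ρ, hC1, hρ0, hρ1, hmain⟩ := exists_main_sq_fam hb
  have s0 := sg_pos hγ1
  have s1 := sg_lt hγ1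
  have hlogρ : Real.log ρ < 0 := Real.log_neg hρ0 hρ1
  refine ⟨2 * (1 - sg γ) * (-Real.log ρ), by
    have : 0 < 1 - sg γ := by linarith
    have : 0 < -Real.log ρ := by linarith
    positivity, ?_⟩
  intro η hη
  obtain ⟨Cd, hCd, hdiv⟩ := card_divisors_le_rpow hη
  have hBp := BB_pos hb
  have hz0 := h.nonneg
  have hbp : (0 : ℝ) < b := by
    have : 0 < b := by omega
    exact_mod_cast this
  set K : ℝ := 4 * BB b * Cd + C1 * (4 * BB b) * b with hK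
  have hK0 : 0 < K := by positivity
  refine ⟨(K * (2 * Real.exp (2 * θ * L * Real.log b))) ^ 2, by positivity, ?_⟩
  intro ℓ k g P hgk hkm hP hPk hkP hlog
  have hnL : (ℓ + 1) / 2 / L * L ≤ (ℓ + 1) / 2 := Nat.div_mul_le_self _ _
  obtain ⟨F, hF0, hF1, hF2⟩ := maj_JS hb h hη hCd hdiv (ℓ := ℓ) (n := (ℓ + 1) / 2 / L) (P := P)
    (by omega) hP
  have hX : 0 < ((b : ℝ) ^ (ℓ + 1)) ^ η := by positivity
  have hPr : (1 : ℝ) ≤ P := by exact_mod_cast hP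
  have hPp : (0 : ℝ) < P := by linarith
  have hP2 : (0 : ℝ) < (P : ℝ) ^ 2 := by positivity
  have e1 : 0 ≤ (P : ℝ) * z ^ ((ℓ + 1) / 2 / L) := by positivity
  set Y : ℝ := (P : ℝ) * z ^ ((ℓ + 1) / 2 / L) + ((b : ℝ) ^ (ℓ + 1)) ^ η with hY
  have hY0 : 0 < Y := by positivity
  have hS1 : ∑ x ∈ JS b P, F (pt b x) ≤ K * (P : ℝ) ^ 2 * Y := by
    refine hF2.trans ?_
    calc 4 * BB b * ((P : ℝ) ^ 3 * z ^ ((ℓ + 1) / 2 / L) +
          (P : ℝ) ^ 2 * (Cd * ((b : ℝ) ^ (ℓ + 1)) ^ η))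
        = 4 * BB b * (P : ℝ) ^ 2 * (P * z ^ ((ℓ + 1) / 2 / L) + Cd * ((b : ℝ) ^ (ℓ + 1)) ^ η) := by
          ring
      _ ≤ 4 * BB b * (P : ℝ) ^ 2 *
          (Cd * (P * z ^ ((ℓ + 1) / 2 / L)) + Cd * ((b : ℝ) ^ (ℓ + 1)) ^ η) := by
          refine mul_le_mul_of_nonneg_left ?_ (by positivity)
          nlinarith
      _ = (4 * BB b * Cd) * (P : ℝ) ^ 2 * Y := by rw [hY]; ring
      _ ≤ K * (P : ℝ) ^ 2 * Y := by
          refine mul_le_mul_of_nonneg_right (mul_le_mul_of_nonneg_right ?_ hP2.le) hY0.le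
          rw [hK]
          have : 0 ≤ C1 * (4 * BB b) * (b : ℝ) := by positivity
          linarith
  have hPk2 : (P : ℝ) ^ 2 ≤ (b : ℝ) ^ (2 * k) := by
    rw [mul_comm, pow_mul]; exact pow_le_pow_left₀ hPp.le hPk 2
  have hS2 : ∑ x ∈ JS b P, (blk b ℓ ((ℓ + 1) / 2 - k - g - 1) ((ℓ + 1) / 2) (pt b x)) ^ 2 ≤
      K * (P : ℝ) ^ 2 * ρ ^ g := by
    refine (hmain (JS b P) _ _ (fam_JS hb P) ℓ k g hgk hkm hPk2).trans ?_
    refine mul_le_mul_of_nonneg_right ?_ (by positivity)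
    calc C1 * (4 * BB b * P) * (b : ℝ) ^ k ≤ C1 * (4 * BB b * P) * (b * P) :=
          mul_le_mul_of_nonneg_left hkP (by positivity)
      _ = (C1 * (4 * BB b) * b) * (P : ℝ) ^ 2 := by ring
      _ ≤ K * (P : ℝ) ^ 2 := by
        refine mul_le_mul_of_nonneg_right ?_ hP2.le
        rw [hK]
        have : 0 ≤ 4 * BB b * Cd := by positivity
        linarith
  have hm := mom_save (JS b P) hγ0 hγ1 hF0 hF1 hnL hK0 hP2 hY0 (pow_pos hρ0 g) hS1 hS2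
  have e4 : (P : ℝ) ^ 4 = ((P : ℝ) ^ 2) ^ 2 := by ring
  rw [e4]
  exact num_save hb hL hz0 hθ hz hP hη.le hγ1 hρ0 hK0.le hP2.le (TS_nonneg _ _ _) hlog hm

end Pool.Agent.PalM
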