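import Pool.Agent.PalM.SmallDefs

/-!
# A majorant in base 3
-/

namespace Pool.Agent.PalM

open Finset Pool.Agent.Pal

/-- The table of the coefficients. -/
def M3 : Fin 3 → Fin 3 → ℕ :=
  ![![6402, 4168, 1538],
    ![4168, 1642, 272],
    ![1538, 272, 0]]

/-- A polynomial. -/
def P3p : List (List ℤ) :=
  [[0, 51, 32580, 0],
   [51, -45638, -9792, 0],
   [32580, -9792, 0],
   [0]]

lemma P3p_check : check2 8 6 P3p = true := by decide +kernel

/-- A polynomial. -/
def P3m : List (List ℤ) :=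
  [[90000, -119949, 32580, 0],
   [-119949, 114362, -9792, 0],
   [32580, -9792, 0],
   [0]]

lemma P3m_check : check2 4 4 P3m = true := by decide +kernel

/-- The majorant. -/
lemma maj_three (X Y : ℝ) (hX : -1 ≤ X) (hX1 : X ≤ 1) (hY : -1 ≤ Y) (hY1 : Y ≤ 1) :
    |1 + 2 * X| / 3 * (|1 + 2 * Y| / 3) * 20000 ≤
      ∑ p, ∑ q, (M3 p q : ℝ) * (cp p X * cp q Y) := by
  have h1 := check2_sound 8 6 P3p P3p_check ((1 - X) / 2) ((1 - Y) / 2) (by linarith)
    (by linarith) (by linarith) (by linarith)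
  have h2 := check2_sound 4 4 P3m P3m_check ((1 - X) / 2) ((1 - Y) / 2) (by linarith)
    (by linarith) (by linarith) (by linarith)
  have e1 : ev2 P3p ((1 - X) / 2) ((1 - Y) / 2) =
      45000 * ((∑ p, ∑ q, (M3 p q : ℝ) * (cp p X * cp q Y)) / 20000 -
        (1 + 2 * X) * (1 + 2 * Y) / 9) := by
    simp only [Fin.sum_univ_succ, Fin.sum_univ_zero, M3]
    simp [cp, Fin.succ, P3p, ev2, ev]
    ring
  have e2 : ev2 P3m ((1 - X) / 2) ((1 - Y) / 2) =
      45000 * ((∑ p, ∑ q, (M3 p q : ℝ) * (cp p X * cp q Y)) / 20000 +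
        (1 + 2 * X) * (1 + 2 * Y) / 9) := by
    simp only [Fin.sum_univ_succ, Fin.sum_univ_zero, M3]
    simp [cp, Fin.succ, P3m, ev2, ev]
    ring
  rw [e1] at h1
  rw [e2] at h2
  have h3 : |1 + 2 * X| / 3 * (|1 + 2 * Y| / 3) = |(1 + 2 * X) * (1 + 2 * Y)| / 9 := by
    rw [abs_mul]; ring
  rw [h3]
  rcases abs_cases ((1 + 2 * X) * (1 + 2 * Y)) with ⟨h4, _⟩ | ⟨h4, _⟩ <;> rw [h4] <;> linarith

/-- A majorant in base `3`. -/
theorem hasMaj_three : HasMaj 3 2 1 (3201 / 10000) := by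
  have h := hasMaj_two (b := 3) (by norm_num) M3 (D := 20000) (by norm_num) (by decide) 0 rfl
    (by
      intro x y
      rw [phi_three, phi_three]
      push_cast
      exact maj_three _ _ (Real.neg_one_le_cos _) (Real.cos_le_one _) (Real.neg_one_le_cos _)
        (Real.cos_le_one _))
  have e : ((M3 0 0 : ℕ) : ℝ) / ((20000 : ℕ) : ℝ) = 3201 / 10000 := by
    simp [M3]
    norm_num
  rwa [e] at h

end Pool.Agent.PalM
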