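import Pool.Agent.PalM.SmallDefs

/-!
# A majorant in base 4
-/

namespace Pool.Agent.PalM

open Finset Pool.Agent.Pal

/-- The table of the coefficients. -/
def M4 : Fin 4 → Fin 4 → ℕ :=
  ![![4390, 3252, 1740, 654],
    ![3252, 1986, 958, 208],
    ![1740, 958, 0, 0],
    ![654, 208, 0, 0]]

/-- A polynomial. -/
def P4p : List (List ℤ) :=
  [[0, 46, 45437, -108128, 98492, -41376, 6896, 0],
   [46, -71424, 52620, 73840, -97520, 39936, -6656, 0],
   [45437, 52620, -96014, -1920, 48760, -19968, 3328, 0],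
   [-108128, 73840, -1920, -20000, 0],
   [98492, -97520, 48760, 0],
   [-41376, 39936, -19968, 0],
   [6896, -6656, 3328, 0],
   [0]]

lemma P4p_check : check2 8 6 P4p = true := by decide +kernel

/-- A polynomial. -/
def P4m : List (List ℤ) :=
  [[10000, -49954, 105437, -128128, 98492, -41376, 6896, 0],
   [-49954, 178576, -247380, 173840, -97520, 39936, -6656, 0],
   [105437, -247380, 263986, -121920, 48760, -19968, 3328, 0],
   [-128128, 173840, -121920, 20000, 0],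
   [98492, -97520, 48760, 0],
   [-41376, 39936, -19968, 0],
   [6896, -6656, 3328, 0],
   [0]]

lemma P4m_check : check2 4 4 P4m = true := by decide +kernel

/-- The majorant, for nonnegative cosines. -/
lemma maj_four_aux (c d : ℝ) (hc : 0 ≤ c) (hc1 : c ≤ 1) (hd : 0 ≤ d) (hd1 : d ≤ 1) :
    |8 * c ^ 3 - 4 * c| / 4 * (|8 * d ^ 3 - 4 * d| / 4) * 20000 ≤
      ∑ p, ∑ q, (M4 p q : ℝ) * (cp p (2 * c ^ 2 - 1) * cp q (2 * d ^ 2 - 1)) := by
  have h1 := check2_sound 8 6 P4p P4p_check (1 - c) (1 - d) (by linarith)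
    (by linarith) (by linarith) (by linarith)
  have h2 := check2_sound 4 4 P4m P4m_check (1 - c) (1 - d) (by linarith)
    (by linarith) (by linarith) (by linarith)
  have e1 : ev2 P4p (1 - c) (1 - d) =
      5000 * ((∑ p, ∑ q, (M4 p q : ℝ) * (cp p (2 * c ^ 2 - 1) * cp q (2 * d ^ 2 - 1))) / 20000 -
        (8 * c ^ 3 - 4 * c) * (8 * d ^ 3 - 4 * d) / 16) := by
    simp only [Fin.sum_univ_succ, Fin.sum_univ_zero, M4]
    simp [cp, Fin.succ, P4p, ev2, ev]
    ring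
  have e2 : ev2 P4m (1 - c) (1 - d) =
      5000 * ((∑ p, ∑ q, (M4 p q : ℝ) * (cp p (2 * c ^ 2 - 1) * cp q (2 * d ^ 2 - 1))) / 20000 +
        (8 * c ^ 3 - 4 * c) * (8 * d ^ 3 - 4 * d) / 16) := by
    simp only [Fin.sum_univ_succ, Fin.sum_univ_zero, M4]
    simp [cp, Fin.succ, P4m, ev2, ev]
    ring
  rw [e1] at h1
  rw [e2] at h2
  have h3 : |8 * c ^ 3 - 4 * c| / 4 * (|8 * d ^ 3 - 4 * d| / 4) =
      |(8 * c ^ 3 - 4 * c) * (8 * d ^ 3 - 4 * d)| / 16 := by
    rw [abs_mul]; ring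
  rw [h3]
  rcases abs_cases ((8 * c ^ 3 - 4 * c) * (8 * d ^ 3 - 4 * d)) with ⟨h4, _⟩ | ⟨h4, _⟩ <;>
    rw [h4] <;> linarith

lemma abs_four (c : ℝ) : |8 * c ^ 3 - 4 * c| = |8 * (|c|) ^ 3 - 4 * (|c|)| := by
  have e1 : 8 * c ^ 3 - 4 * c = c * (8 * c ^ 2 - 4) := by ring
  have e2 : 8 * |c| ^ 3 - 4 * |c| = |c| * (8 * c ^ 2 - 4) := by
    rw [← sq_abs c]; ring
  rw [e1, e2, abs_mul, abs_mul, abs_abs]

/-- A majorant in base `4`. -/
theorem hasMaj_four : HasMaj 4 2 1 (439 / 2000) := by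
  have h := hasMaj_two (b := 4) (by norm_num) M4 (D := 20000) (by norm_num) (by decide) 0 rfl
    (by
      intro x y
      have h1 := maj_four_aux |Real.cos (Real.pi * x)| |Real.cos (Real.pi * y)| (abs_nonneg _)
        (Real.abs_cos_le_one _) (abs_nonneg _) (Real.abs_cos_le_one _)
      rw [← abs_four, ← abs_four, sq_abs, sq_abs] at h1
      rw [phi_four, phi_four, cos_two_pi, cos_two_pi]
      push_cast
      exact h1)
  have e : ((M4 0 0 : ℕ) : ℝ) / ((20000 : ℕ) : ℝ) = 439 / 2000 := by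
    simp [M4]
    norm_num
  rwa [e] at h

end Pool.Agent.PalM
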