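import Pool.Agent.PalM.SmallDefs

/-!
# A majorant in base 5
-/

namespace Pool.Agent.PalM

open Finset Pool.Agent.Pal

/-- The table of the coefficients. -/
def M5 : Fin 5 → Fin 5 → ℕ :=
  ![![3260, 2666, 1522, 858, 370],
    ![2666, 1994, 1020, 532, 158],
    ![1522, 1020, 318, 88, 0],
    ![858, 532, 88, 0, 0],
    ![370, 158, 0, 0, 0]]

/-- A polynomial. -/
def P5p : List (List ℤ) :=
  [[0, 22, 14376, -22808, 8448, 0],
   [22, -21895, 8904, 17184, -5056, 0],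
   [14376, 8904, -14608, -2816, 0],
   [-22808, 17184, -2816, 0],
   [8448, -5056, 0],
   [0]]

lemma P5p_check : check2 8 6 P5p = true := by decide +kernel

/-- A polynomial. -/
def P5m : List (List ℤ) :=
  [[5000, -19978, 30376, -22808, 8448, 0],
   [-19978, 58105, -55096, 17184, -5056, 0],
   [30376, -55096, 36592, -2816, 0],
   [-22808, 17184, -2816, 0],
   [8448, -5056, 0],
   [0]]

lemma P5m_check : check2 4 4 P5m = true := by decide +kernel

/-- The majorant. -/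
lemma maj_five (X Y : ℝ) (hX : -1 ≤ X) (hX1 : X ≤ 1) (hY : -1 ≤ Y) (hY1 : Y ≤ 1) :
    |4 * X ^ 2 + 2 * X - 1| / 5 * (|4 * Y ^ 2 + 2 * Y - 1| / 5) * 20000 ≤
      ∑ p, ∑ q, (M5 p q : ℝ) * (cp p X * cp q Y) := by
  have h1 := check2_sound 8 6 P5p P5p_check ((1 - X) / 2) ((1 - Y) / 2) (by linarith)
    (by linarith) (by linarith) (by linarith)
  have h2 := check2_sound 4 4 P5m P5m_check ((1 - X) / 2) ((1 - Y) / 2) (by linarith)
    (by linarith) (by linarith) (by linarith)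
  have e1 : ev2 P5p ((1 - X) / 2) ((1 - Y) / 2) =
      2500 * ((∑ p, ∑ q, (M5 p q : ℝ) * (cp p X * cp q Y)) / 20000 -
        (4 * X ^ 2 + 2 * X - 1) * (4 * Y ^ 2 + 2 * Y - 1) / 25) := by
    simp only [Fin.sum_univ_succ, Fin.sum_univ_zero, M5]
    simp [cp, Fin.succ, P5p, ev2, ev]
    ring
  have e2 : ev2 P5m ((1 - X) / 2) ((1 - Y) / 2) =
      2500 * ((∑ p, ∑ q, (M5 p q : ℝ) * (cp p X * cp q Y)) / 20000 +
        (4 * X ^ 2 + 2 * X - 1) * (4 * Y ^ 2 + 2 * Y - 1) / 25) := by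
    simp only [Fin.sum_univ_succ, Fin.sum_univ_zero, M5]
    simp [cp, Fin.succ, P5m, ev2, ev]
    ring
  rw [e1] at h1
  rw [e2] at h2
  have h3 : |4 * X ^ 2 + 2 * X - 1| / 5 * (|4 * Y ^ 2 + 2 * Y - 1| / 5) =
      |(4 * X ^ 2 + 2 * X - 1) * (4 * Y ^ 2 + 2 * Y - 1)| / 25 := by
    rw [abs_mul]; ring
  rw [h3]
  rcases abs_cases ((4 * X ^ 2 + 2 * X - 1) * (4 * Y ^ 2 + 2 * Y - 1)) with ⟨h4, _⟩ | ⟨h4, _⟩ <;>
    rw [h4] <;> linarith

/-- A majorant in base `5`. -/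
theorem hasMaj_five : HasMaj 5 2 1 (163 / 1000) := by
  have h := hasMaj_two (b := 5) (by norm_num) M5 (D := 20000) (by norm_num) (by decide) 0 rfl
    (by
      intro x y
      rw [phi_five, phi_five]
      push_cast
      exact maj_five _ _ (Real.neg_one_le_cos _) (Real.cos_le_one _) (Real.neg_one_le_cos _)
        (Real.cos_le_one _))
  have e : ((M5 0 0 : ℕ) : ℝ) / ((20000 : ℕ) : ℝ) = 163 / 1000 := by
    simp [M5]
    norm_num
  rwa [e] at h

end Pool.Agent.PalM
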