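import Pool.Agent.PalM.SmallDefs

/-!
# A majorant in base 6
-/

namespace Pool.Agent.PalM

open Finset Pool.Agent.Pal

/-- The table of the coefficients. -/
def M6 : Fin 6 → ℕ := ![3638, 2967, 1756, 1074, 515, 50]

/-- A polynomial. -/
def P6p : List ℤ :=
  [0, 118, 535441, -2954496, 6969824, -9384832, 8082432, -4631040, 1730880, -384000, 38400, 0]

lemma P6p_check : check 4 P6p = true := by decide +kernel

/-- A polynomial. -/
def P6m : List ℤ :=
  [30000, -349882, 1655441, -4394496, 7769824, -9544832, 8082432, -4631040, 1730880, -384000, 38400, 0]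

lemma P6m_check : check 5 P6m = true := by decide +kernel

/-- The majorant, for nonnegative cosines. -/
lemma maj_six_aux (c : ℝ) (hc : 0 ≤ c) (hc1 : c ≤ 1) :
    |32 * c ^ 5 - 32 * c ^ 3 + 6 * c| / 6 * 10000 ≤
      ∑ p, (M6 p : ℝ) * cp p (2 * c ^ 2 - 1) := by
  have h1 := check_sound 4 P6p P6p_check (1 - c) (by linarith) (by linarith)
  have h2 := check_sound 5 P6m P6m_check (1 - c) (by linarith) (by linarith)
  have e1 : ev P6p (1 - c) =
      15000 * ((∑ p, (M6 p : ℝ) * cp p (2 * c ^ 2 - 1)) / 10000 -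
        (32 * c ^ 5 - 32 * c ^ 3 + 6 * c) / 6) := by
    simp only [Fin.sum_univ_succ, Fin.sum_univ_zero, M6]
    simp [cp, Fin.succ, P6p, ev]
    ring
  have e2 : ev P6m (1 - c) =
      15000 * ((∑ p, (M6 p : ℝ) * cp p (2 * c ^ 2 - 1)) / 10000 +
        (32 * c ^ 5 - 32 * c ^ 3 + 6 * c) / 6) := by
    simp only [Fin.sum_univ_succ, Fin.sum_univ_zero, M6]
    simp [cp, Fin.succ, P6m, ev]
    ring
  rw [e1] at h1
  rw [e2] at h2
  rcases abs_cases (32 * c ^ 5 - 32 * c ^ 3 + 6 * c) with ⟨h4, _⟩ | ⟨h4, _⟩ <;>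
    rw [h4] <;> linarith

lemma abs_six (c : ℝ) : |32 * c ^ 5 - 32 * c ^ 3 + 6 * c| =
    |32 * (|c|) ^ 5 - 32 * (|c|) ^ 3 + 6 * (|c|)| := by
  have e1 : 32 * c ^ 5 - 32 * c ^ 3 + 6 * c = c * (32 * (c ^ 2) ^ 2 - 32 * c ^ 2 + 6) := by ring
  have e2 : 32 * |c| ^ 5 - 32 * |c| ^ 3 + 6 * |c| =
      |c| * (32 * (c ^ 2) ^ 2 - 32 * c ^ 2 + 6) := by
    rw [← sq_abs c]; ring
  rw [e1, e2, abs_mul, abs_mul, abs_abs]

/-- A majorant in base `6`. -/
theorem hasMaj_six : HasMaj 6 1 1 (1819 / 5000) := by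
  have h := hasMaj_one (b := 6) (by norm_num) M6 (D := 10000) (by norm_num) (by decide) 0 rfl
    (by
      intro x
      have h1 := maj_six_aux |Real.cos (Real.pi * x)| (abs_nonneg _) (Real.abs_cos_le_one _)
      rw [← abs_six, sq_abs] at h1
      rw [phi_six, cos_two_pi]
      push_cast
      exact h1)
  have e : ((M6 0 : ℕ) : ℝ) / ((10000 : ℕ) : ℝ) = 1819 / 5000 := by
    simp [M6]
    norm_num
  rwa [e] at h

end Pool.Agent.PalM
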