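import Pool.Agent.PalM.Cen
import Pool.Agent.PalM.Family
import Pool.Agent.PalM.Small3
import Pool.Agent.PalM.Small4
import Pool.Agent.PalM.Small5
import Pool.Agent.PalM.Small6
import Pool.Agent.PalL.Rate

/-!
# The level of distribution of the palindromes, all bases
-/

namespace Pool.Agent.PalM

open Finset Pool.Agent.Pal Pool.Agent.PalL

/-- The level of distribution that is proved in base `b`. -/
noncomputable def lev (b : ℕ) : ℝ :=
  if 7 ≤ b then 1 / 2 - Real.log ((3 + 17 * ∑ m ∈ range b, 1 / ((m : ℝ) + 1)) / 20) /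
    (2 * Real.log b)
  else if b = 6 then Real.log (5000 / 1819) / (2 * Real.log 6)
  else if b = 5 then Real.log (1000 / 163) / (4 * Real.log 5)
  else if b = 4 then Real.log (2000 / 439) / (4 * Real.log 4)
  else if b = 3 then Real.log (10000 / 3201) / (4 * Real.log 3)
  else 1 / 4

lemma lt_rpow_of_lt {b L : ℕ} (hb : 2 ≤ b) (hL : 1 ≤ L) {z θ : ℝ} (hz : 0 < z)
    (h : θ < Real.log z⁻¹ / (2 * L * Real.log b)) : z < (b : ℝ) ^ (-(2 * θ * L)) := by
  have hlb := log_pos_b hb
  have hb0 : (0 : ℝ) < b := by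
    have : 0 < b := by omega
    exact_mod_cast this
  have hL0 : (0 : ℝ) < L := by
    have : 0 < L := by omega
    exact_mod_cast this
  rw [lt_div_iff₀ (by positivity), Real.log_inv] at h
  rw [Real.rpow_def_of_pos hb0]
  rw [← Real.log_lt_iff_lt_exp hz]
  linarith

/-- The central estimate and the estimate for squares, at all levels below `lev b`. -/
theorem cen_sq_lev {b : ℕ} (hb : 3 ≤ b) {θ : ℝ} (hθ0 : 0 ≤ θ) (hθ2 : θ < 1 / 2) (hθ : θ < lev b) :
    HasCen b θ ∧ HasSq b θ := by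
  have hb2 : 2 ≤ b := by omega
  have key : ∀ (L : ℕ) (z : ℝ), 1 ≤ L → 0 < z → HasMaj b L 1 z →
      θ < Real.log z⁻¹ / (2 * L * Real.log b) → HasCen b θ ∧ HasSq b θ := by
    intro L z hL hz hmaj h
    have h1 := lt_rpow_of_lt hb2 hL hz h
    exact ⟨cen_of_maj hb2 hL hmaj hθ2 hθ0 h1, sq_of_maj hb2 hL hmaj hθ2 hθ0 h1⟩
  unfold lev at hθ
  split_ifs at hθ with h7 h6 h5 h4 h3
  · have hlb := log_pos_b hb2
    have hb0 : (0 : ℝ) < b := by
      have : 0 < b := by omega
      exact_mod_cast this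
    have hH : 0 ≤ HH b := by
      unfold HH
      exact Finset.sum_nonneg fun m _ => by positivity
    have hz : 0 < (3 / 20 + 17 / 20 * HH b) / (b : ℝ) := by positivity
    refine key 1 _ le_rfl hz (hasMaj h7) ?_
    refine hθ.trans_eq ?_
    have e1 : (3 + 17 * ∑ m ∈ range b, 1 / ((m : ℝ) + 1)) / 20 = 3 / 20 + 17 / 20 * HH b := by
      unfold HH; ring
    rw [e1, Real.log_inv, Real.log_div (by positivity) hb0.ne']
    push_cast
    field_simp
    ring
  · subst h6
    refine key 1 _ le_rfl (by norm_num) hasMaj_six ?_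
    norm_num at hθ ⊢
    exact hθ
  · subst h5
    refine key 2 _ (by norm_num) (by norm_num) hasMaj_five ?_
    norm_num at hθ ⊢
    exact hθ
  · subst h4
    refine key 2 _ (by norm_num) (by norm_num) hasMaj_four ?_
    norm_num at hθ ⊢
    exact hθ
  · subst h3
    refine key 2 _ (by norm_num) (by norm_num) hasMaj_three ?_
    norm_num at hθ ⊢
    exact hθ
  · omega

/-- The level is less than `1/2`. -/
lemma lev_le (b : ℕ) (hb : 2 ≤ b) : lev b ≤ 1 / 2 := by
  have hlb := log_pos_b hb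
  unfold lev
  split_ifs with h7 h6 h5 h4 h3
  · have h1 : (1 : ℝ) ≤ ∑ m ∈ range b, 1 / ((m : ℝ) + 1) := by
      calc (1 : ℝ) = 1 / (((0 : ℕ) : ℝ) + 1) := by norm_num
        _ ≤ _ := Finset.single_le_sum (f := fun m : ℕ => 1 / ((m : ℝ) + 1))
            (fun _ _ => by positivity) (mem_range.mpr (by omega))
    have h2 : 0 ≤ Real.log ((3 + 17 * ∑ m ∈ range b, 1 / ((m : ℝ) + 1)) / 20) :=
      Real.log_nonneg (by linarith)
    have h3 : 0 ≤ Real.log ((3 + 17 * ∑ m ∈ range b, 1 / ((m : ℝ) + 1)) / 20) /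
      (2 * Real.log b) := by positivity
    linarith
  · have h1 : Real.log (5000 / 1819) ≤ Real.log 6 := Real.log_le_log (by norm_num) (by norm_num)
    subst h6
    push_cast at hlb
    rw [div_le_iff₀ (by positivity)]
    linarith
  · have h1 : Real.log (1000 / 163) ≤ Real.log (5 ^ 2) :=
      Real.log_le_log (by norm_num) (by norm_num)
    rw [Real.log_pow] at h1
    push_cast at h1
    subst h5
    push_cast at hlb
    rw [div_le_iff₀ (by positivity)]
    linarith
  · have h1 : Real.log (2000 / 439) ≤ Real.log (4 ^ 2) :=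
      Real.log_le_log (by norm_num) (by norm_num)
    rw [Real.log_pow] at h1
    push_cast at h1
    subst h4
    push_cast at hlb
    rw [div_le_iff₀ (by positivity)]
    linarith
  · have h1 : Real.log (10000 / 3201) ≤ Real.log (3 ^ 2) :=
      Real.log_le_log (by norm_num) (by norm_num)
    rw [Real.log_pow] at h1
    push_cast at h1
    subst h3
    push_cast at hlb
    rw [div_le_iff₀ (by positivity)]
    linarith
  · norm_num

/-- **Level of distribution of the palindromes**, all bases. -/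
theorem level_all {b : ℕ} (hb : 2 ≤ b) {θ : ℝ} (hθ : θ < lev b) :
    ∃ (σ C : ℝ), 0 < σ ∧ 0 < C ∧ ∀ x : ℝ, 1 ≤ x → ∀ (y : ℕ → ℝ), (∀ q, y q ≤ x) → ∀ (a : ℕ → ℤ),
      ∑ q ∈ (Icc 1 ⌊x ^ θ⌋₊).filter (fun q => q.Coprime b),
        |(palCount b ⌊y q⌋₊ q (a q) : ℝ) -
          (Nat.gcd q (b ^ 2 - 1) : ℕ) / q *
            (palCount b ⌊y q⌋₊ (Nat.gcd q (b ^ 2 - 1)) (a q) : ℝ)| ≤
      C * (palCount b ⌊x⌋₊ 1 0 : ℝ) * Real.exp (-σ * Real.sqrt (Real.log x)) := by
  have hθ2 : θ < 1 / 2 := lt_of_lt_of_le hθ (lev_le b hb)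
  set θ' : ℝ := max θ 0 with hθ'
  have h0 : 0 ≤ θ' := le_max_right _ _
  have h1 : θ' < 1 / 2 := max_lt hθ2 (by norm_num)
  have hcen : HasCen b θ' := by
    rcases le_total θ 0 with h | h
    · rw [hθ', max_eq_right h]; exact cen_quarter hb (by norm_num)
    · rw [hθ', max_eq_left h]
      rcases Nat.lt_or_ge 2 b with h2 | h2
      · exact (cen_sq_lev h2 h hθ2 hθ).1
      · have hb2 : b = 2 := by omega
        subst hb2
        refine cen_quarter le_rfl ?_
        unfold lev at hθ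
        norm_num at hθ
        linarith
  obtain ⟨σ, C, hσ, hC, hmain⟩ := level_gen hb h0 h1 hcen
  refine ⟨σ, C, hσ, hC, ?_⟩
  intro x hx y hy a
  refine le_trans ?_ (hmain x hx y hy a)
  refine sum_le_sum_of_subset_of_nonneg ?_ fun _ _ _ => abs_nonneg _
  refine filter_subset_filter _ (Icc_subset_Icc le_rfl ?_)
  refine Nat.floor_le_floor (Real.rpow_le_rpow_of_exponent_le hx ?_)
  exact le_max_left _ _

end Pool.Agent.PalM
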