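import Pool.Agent.PalSieve.Squares

/-!
# Positive definite majorants of the kernels over a block of sites
-/

namespace Pool.Agent.PalM

open Finset Pool.Agent.Pal

/-- The product of the kernels over a block of `L` consecutive sites. -/
noncomputable def Phi (b L : ℕ) (w v : ℝ) : ℝ :=
  ∏ r ∈ range L, phi b ((b : ℝ) ^ r * w + (b : ℝ) ^ (L - 1 - r) * v)

/-- The power `γ` of the block kernel has a positive definite majorant, of degree less than `b ^ L`
in both variables, with the value `1` at the origin and a mean at most `z`. -/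
def HasMaj (b L : ℕ) (γ z : ℝ) : Prop :=
  ∃ (ι : Type) (_ : Fintype ι) (c : ι → ℝ) (h h' : ι → ℤ) (G : ℝ → ℝ → ℝ),
    (∀ i, 0 ≤ c i) ∧ (∀ i, |h i| < (b : ℤ) ^ L) ∧ (∀ i, |h' i| < (b : ℤ) ^ L) ∧
    (∀ w v, (G w v : ℂ) = ∑ i, (c i : ℂ) * ex (h i * w + h' i * v)) ∧
    ∑ i, c i = 1 ∧ (∑ i with h i = 0 ∧ h' i = 0, c i) ≤ z ∧
    ∀ w v, Phi b L w v ^ γ ≤ G w v

lemma Phi_nonneg (b L : ℕ) (w v : ℝ) : 0 ≤ Phi b L w v :=
  Finset.prod_nonneg fun _ _ => phi_nonneg _ _

lemma Phi_le_one (b L : ℕ) (w v : ℝ) : Phi b L w v ≤ 1 :=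
  Finset.prod_le_one (fun _ _ => phi_nonneg _ _) fun _ _ => phi_le_one _ _

/-- A convex combination with the constant `1` majorises a smaller power. -/
lemma HasMaj.perturb {b L : ℕ} {z : ℝ} (h : HasMaj b L 1 z) {δ : ℝ} (hδ : 0 ≤ δ) (hδ1 : δ ≤ 1)
    (hb : 2 ≤ b) : HasMaj b L (1 - δ) ((1 - δ) * z + δ) := by
  obtain ⟨ι, hι, c, h1, h2, G, hc, hh1, hh2, hG, hs, hz, hmaj⟩ := h
  have hbL : (0 : ℤ) < (b : ℤ) ^ L := by
    have : (0 : ℤ) < b := by omega
    positivity
  refine ⟨Option ι, inferInstance, fun o => o.elim δ (fun i => (1 - δ) * c i),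
    fun o => o.elim 0 h1, fun o => o.elim 0 h2, fun w v => (1 - δ) * G w v + δ,
    ?_, ?_, ?_, ?_, ?_, ?_, ?_⟩
  · intro i
    cases i with
    | none => exact hδ
    | some i => exact mul_nonneg (by linarith) (hc i)
  · intro i
    cases i with
    | none => simpa using hbL
    | some i => exact hh1 i
  · intro i
    cases i with
    | none => simpa using hbL
    | some i => exact hh2 i
  · intro w v
    rw [Fintype.sum_option]
    simp only [Option.elim]
    push_cast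
    rw [hG, Finset.mul_sum]
    rw [zero_mul, zero_mul, add_zero, ex_zero, mul_one, add_comm]
    congr 1
    refine Finset.sum_congr rfl fun i _ => ?_
    ring
  · rw [Fintype.sum_option]
    simp only [Option.elim]
    rw [← Finset.mul_sum, hs]
    ring
  · rw [Finset.sum_filter, Fintype.sum_option]
    simp only [Option.elim]
    rw [if_pos (by simp), ← Finset.sum_filter, ← Finset.mul_sum]
    have : (1 - δ) * ∑ i with h1 i = 0 ∧ h2 i = 0, c i ≤ (1 - δ) * z :=
      mul_le_mul_of_nonneg_left hz (by linarith)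
    linarith
  · intro w v
    have e1 := hmaj w v
    rw [Real.rpow_one] at e1
    have p0 := Phi_nonneg b L w v
    have e2 : Phi b L w v ^ (1 - δ) ≤ (1 - δ) * Phi b L w v + δ * 1 := by
      have := Real.geom_mean_le_arith_mean2_weighted (w₁ := 1 - δ) (w₂ := δ) (p₁ := Phi b L w v)
        (p₂ := 1) (by linarith) hδ p0 zero_le_one (by ring)
      rwa [Real.one_rpow, mul_one] at this
    have e3 : (1 - δ) * Phi b L w v ≤ (1 - δ) * G w v := mul_le_mul_of_nonneg_left e1 (by linarith)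
    show _ ≤ (1 - δ) * G w v + δ
    linarith

/-- The block decomposition of the product over the outer sites. -/
lemma blk_eq_prod (b ℓ L : ℕ) (α : ℝ) : ∀ n : ℕ, 2 * (n * L) ≤ ℓ + 1 →
    blk b ℓ 0 (n * L) α = ∏ j ∈ range n,
      Phi b L ((b : ℝ) ^ (j * L) * α) ((b : ℝ) ^ (ℓ + 1 - (j + 1) * L) * α) := by
  intro n
  induction n with
  | zero => intro _; simp [blk]
  | succ n ih =>
    intro h
    have h0 : 2 * (n * L) ≤ ℓ + 1 := by
      have : n * L ≤ (n + 1) * L := Nat.mul_le_mul_right _ (by omega)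
      omega
    rw [Finset.prod_range_succ, ← ih h0]
    have e1 : (n + 1) * L = n * L + L := by ring
    rw [← blk_mul b ℓ (Nat.zero_le (n * L)) (by omega : n * L ≤ (n + 1) * L)]
    congr 1
    unfold blk Phi
    rw [e1, Finset.prod_Ico_eq_prod_range, Nat.add_sub_cancel_left]
    refine Finset.prod_congr rfl fun r hr => ?_
    rw [mem_range] at hr
    congr 1
    unfold wt
    have e2 : ℓ - (n * L + r) = (L - 1 - r) + (ℓ + 1 - (n * L + L)) := by omega
    rw [e2]
    push_cast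
    rw [pow_add, pow_add]
    ring

/-- Sums over all fractions of products of exponential polynomials. -/
lemma sum_prod_eq {ι : Type} [Fintype ι] {κ : Type} (n : ℕ) (c : ι → ℝ)
    (f : Fin n → ι → ℤ) (g : Fin n → ℝ → ℝ)
    (hg : ∀ j α, (g j α : ℂ) = ∑ i, (c i : ℂ) * ex (f j i * α)) (Q : Finset κ) (q : κ → ℕ)
    (hq : ∀ k ∈ Q, 0 < q k) :
    ∑ k ∈ Q, ∑ a ∈ range (q k), ∏ j, g j ((a : ℝ) / q k) =
      ∑ p : Fin n → ι, (∏ j, c (p j)) *
        ∑ k ∈ Q, (if (q k : ℤ) ∣ ∑ j, f j (p j) then (q k : ℝ) else 0) := by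
  have key : ((∑ k ∈ Q, ∑ a ∈ range (q k), ∏ j, g j ((a : ℝ) / q k) : ℝ) : ℂ) =
      ((∑ p : Fin n → ι, (∏ j, c (p j)) *
        ∑ k ∈ Q, (if (q k : ℤ) ∣ ∑ j, f j (p j) then (q k : ℝ) else 0) : ℝ) : ℂ) := by
    have e0 : ∀ α : ℝ, ((∏ j, g j α : ℝ) : ℂ) = ∑ p : Fin n → ι,
        ((∏ j, c (p j) : ℝ) : ℂ) * ex (((∑ j, f j (p j) : ℤ) : ℝ) * α) := by
      intro α
      rw [Complex.ofReal_prod]
      simp only [hg]
      rw [Finset.prod_univ_sum, Fintype.piFinset_univ]
      refine Finset.sum_congr rfl fun p _ => ?_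
      rw [Finset.prod_mul_distrib, Complex.ofReal_prod]
      congr 1
      have e1 : ∀ s : Finset (Fin n), ∏ j ∈ s, ex ((f j (p j) : ℝ) * α) =
          ex (((∑ j ∈ s, f j (p j) : ℤ) : ℝ) * α) := by
        intro s
        classical
        induction s using Finset.induction_on with
        | empty => simp [ex_zero]
        | insert a s ha ih =>
          rw [Finset.prod_insert ha, Finset.sum_insert ha, ih, ← ex_add]
          congr 1
          push_cast
          ring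
      exact e1 univ
    rw [Complex.ofReal_sum]
    have e2 : ∀ k ∈ Q, ((∑ a ∈ range (q k), ∏ j, g j ((a : ℝ) / q k) : ℝ) : ℂ) =
        ∑ p : Fin n → ι, ((∏ j, c (p j) : ℝ) : ℂ) *
          (if (q k : ℤ) ∣ ∑ j, f j (p j) then (q k : ℂ) else 0) := by
      intro k hk
      rw [Complex.ofReal_sum, Finset.sum_congr rfl fun (a : ℕ) _ => e0 ((a : ℝ) / (q k : ℝ)),
        Finset.sum_comm]
      refine Finset.sum_congr rfl fun p _ => ?_
      rw [← Finset.mul_sum]
      congr 1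
      rw [← sum_ex_eq (hq k hk)]
      refine Finset.sum_congr rfl fun a _ => ?_
      congr 1
      ring
    rw [Finset.sum_congr rfl e2, Finset.sum_comm, Complex.ofReal_sum]
    refine Finset.sum_congr rfl fun p _ => ?_
    rw [← Finset.mul_sum, Complex.ofReal_mul, Complex.ofReal_sum]
    congr 1
    refine Finset.sum_congr rfl fun k _ => ?_
    split_ifs <;> simp
  exact_mod_cast key

/-- Bound for the sums over all fractions. -/
lemma sum_prod_le {ι : Type} [Fintype ι] {κ : Type} (n : ℕ) (c : ι → ℝ) (hc : ∀ i, 0 ≤ c i)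
    (hs : ∑ i, c i = 1) (Z : ι → Prop) [DecidablePred Z] {z : ℝ} (hz : ∑ i with Z i, c i ≤ z)
    (f : Fin n → ι → ℤ) (g : Fin n → ℝ → ℝ)
    (hg : ∀ j α, (g j α : ℂ) = ∑ i, (c i : ℂ) * ex (f j i * α)) (Q : Finset κ) (q : κ → ℕ)
    (hq : ∀ k ∈ Q, 0 < q k) {V U : ℝ} (hU0 : 0 ≤ U)
    (huniq : ∀ p : Fin n → ι, ∑ j, f j (p j) = 0 → ∀ j, Z (p j))
    (hV : ∑ k ∈ Q, (q k : ℝ) ≤ V)
    (hU : ∀ p : Fin n → ι, ∑ j, f j (p j) ≠ 0 →
      ∑ k ∈ Q, (if (q k : ℤ) ∣ ∑ j, f j (p j) then (q k : ℝ) else 0) ≤ U) :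
    ∑ k ∈ Q, ∑ a ∈ range (q k), ∏ j, g j ((a : ℝ) / q k) ≤ V * z ^ n + U := by
  classical
  rw [sum_prod_eq n c f g hg Q q hq]
  have hP0 : ∀ p : Fin n → ι, 0 ≤ ∏ j, c (p j) := fun p => Finset.prod_nonneg fun j _ => hc _
  have hV0 : 0 ≤ V := le_trans (Finset.sum_nonneg fun _ _ => Nat.cast_nonneg _) hV
  have h1 : ∀ p : Fin n → ι, (∏ j, c (p j)) *
        ∑ k ∈ Q, (if (q k : ℤ) ∣ ∑ j, f j (p j) then (q k : ℝ) else 0) ≤
      V * ∏ j, (if Z (p j) then c (p j) else 0) + U * ∏ j, c (p j) := by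
    intro p
    by_cases h0 : ∑ j, f j (p j) = 0
    · have h2 : ∏ j, (if Z (p j) then c (p j) else 0) = ∏ j, c (p j) :=
        Finset.prod_congr rfl fun j _ => if_pos (huniq p h0 j)
      rw [h2, h0]
      simp only [dvd_zero, if_true]
      have h3 : (∏ j, c (p j)) * ∑ k ∈ Q, (q k : ℝ) ≤ (∏ j, c (p j)) * V :=
        mul_le_mul_of_nonneg_left hV (hP0 p)
      have h4 : 0 ≤ U * ∏ j, c (p j) := mul_nonneg hU0 (hP0 p)
      linarith
    · have h3 : (∏ j, c (p j)) *
        ∑ k ∈ Q, (if (q k : ℤ) ∣ ∑ j, f j (p j) then (q k : ℝ) else 0) ≤ (∏ j, c (p j)) * U :=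
        mul_le_mul_of_nonneg_left (hU p h0) (hP0 p)
      have h4 : 0 ≤ V * ∏ j, (if Z (p j) then c (p j) else 0) := by
        refine mul_nonneg hV0 (Finset.prod_nonneg fun j _ => ?_)
        split_ifs
        · exact hc _
        · exact le_rfl
      linarith
  refine (Finset.sum_le_sum fun p _ => h1 p).trans ?_
  rw [Finset.sum_add_distrib, ← Finset.mul_sum, ← Finset.mul_sum]
  have e1 : ∑ p : Fin n → ι, ∏ j, c (p j) = 1 := by
    have h := Finset.prod_univ_sum (fun _ : Fin n => (univ : Finset ι)) (fun _ i => c i)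
    rw [Fintype.piFinset_univ] at h
    rw [← h]
    simp [hs]
  have e2 : ∑ p : Fin n → ι, ∏ j, (if Z (p j) then c (p j) else 0) =
      (∑ i with Z i, c i) ^ n := by
    have h := Finset.prod_univ_sum (fun _ : Fin n => (univ : Finset ι))
      (fun _ i => if Z i then c i else 0)
    rw [Fintype.piFinset_univ] at h
    rw [← h]
    simp [Finset.sum_filter]
  rw [e1, e2, mul_one]
  have h0 : 0 ≤ ∑ i with Z i, c i := Finset.sum_nonneg fun i _ => hc i
  have h5 : (∑ i with Z i, c i) ^ n ≤ z ^ n := pow_le_pow_left₀ h0 hz n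
  have := mul_le_mul_of_nonneg_left h5 hV0
  linarith

end Pool.Agent.PalM
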