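import Pool.Agent.PalM.Taylor
import Pool.Agent.PalSieve.Mertens
import Pool.Agent.PalSieve.Squares

/-!
# An explicit positive definite majorant of the Dirichlet kernel
-/

namespace Pool.Agent.PalM

open Finset Pool.Agent.Pal

/-- The sum `∑_{m ≤ b} sin^2(m z) / m^2`. -/
noncomputable def SS (b : ℕ) (z : ℝ) : ℝ := ∑ m ∈ range b, Real.sin (((m : ℝ) + 1) * z) ^ 2 / ((m : ℝ) + 1) ^ 2

lemma hasSum_cos {x : ℝ} (hx0 : 0 ≤ x) (hx1 : x ≤ 1) :
    HasSum (fun n : ℕ => 1 / (n : ℝ) ^ 2 * Real.cos (2 * Real.pi * n * x))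
      (Real.pi ^ 2 * (x ^ 2 - x + 1 / 6)) := by
  have h := hasSum_one_div_nat_pow_mul_cos (k := 1) one_ne_zero (x := x) ⟨hx0, hx1⟩
  convert h using 1
  simp [Polynomial.bernoulli, Finset.sum_range_succ, bernoulli]
  ring_nf

lemma hasSum_one_sub_cos {x : ℝ} (hx0 : 0 ≤ x) (hx1 : x ≤ 1) :
    HasSum (fun n : ℕ => 1 / (n : ℝ) ^ 2 * (1 - Real.cos (2 * Real.pi * n * x)))
      (Real.pi ^ 2 * (x * (1 - x))) := by
  have h1 := hasSum_cos (x := 0) le_rfl zero_le_one
  have h2 := hasSum_cos hx0 hx1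
  have h3 := h1.sub h2
  have e1 : (fun n : ℕ => 1 / (n : ℝ) ^ 2 * (1 - Real.cos (2 * Real.pi * n * x))) =
      fun n : ℕ => 1 / (n : ℝ) ^ 2 * Real.cos (2 * Real.pi * n * 0) -
        1 / (n : ℝ) ^ 2 * Real.cos (2 * Real.pi * n * x) := by
    funext n
    rw [mul_zero, Real.cos_zero]
    ring
  have e2 : Real.pi ^ 2 * (x * (1 - x)) =
      Real.pi ^ 2 * (0 ^ 2 - 0 + 1 / 6) - Real.pi ^ 2 * (x ^ 2 - x + 1 / 6) := by ring
  rw [e1, e2]
  exact h3

lemma sum_inv_sq_tail (b N : ℕ) (hb : 1 ≤ b) :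
    ∑ n ∈ Ico (b + 1) N, 1 / (n : ℝ) ^ 2 ≤ 2 / (2 * (b : ℝ) + 1) := by
  rcases Nat.lt_or_ge N (b + 1) with h | h
  · rw [Ico_eq_empty (by omega), sum_empty]
    positivity
  have key : ∀ M : ℕ, b + 1 ≤ M → ∑ n ∈ Ico (b + 1) M, 1 / (n : ℝ) ^ 2 ≤
      2 / (2 * (b : ℝ) + 1) - 2 / (2 * (M : ℝ) - 1) := by
    intro M hM
    induction M, hM using Nat.le_induction with
    | base =>
      rw [Ico_self, sum_empty]
      push_cast
      rw [show (2 : ℝ) * (b + 1) - 1 = 2 * b + 1 by ring]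
      simp
    | succ M hM ih =>
      rw [Finset.sum_Ico_succ_top hM]
      have hMr : (2 : ℝ) ≤ M := by
        have : 2 ≤ M := by omega
        exact_mod_cast this
      have h1 : (1 : ℝ) / (M : ℝ) ^ 2 ≤ 2 / (2 * (M : ℝ) - 1) - 2 / (2 * ((M + 1 : ℕ) : ℝ) - 1) := by
        push_cast
        rw [show (2 : ℝ) * (M + 1) - 1 = 2 * M + 1 by ring, div_sub_div _ _ (by linarith) (by linarith),
          div_le_div_iff₀ (by positivity) (by nlinarith)]
        nlinarith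
      linarith
  have h1 := key N h
  have hN : (1 : ℝ) ≤ N := by
    have : 1 ≤ N := by omega
    exact_mod_cast this
  have h2 : 0 ≤ 2 / (2 * (N : ℝ) - 1) := div_nonneg (by norm_num) (by linarith)
  linarith

/-- The tail of the cosine series. -/
lemma cos_tail {b : ℕ} {x : ℝ} (hs : 0 < Real.sin (Real.pi * x)) (N : ℕ) :
    |∑ n ∈ Ico (b + 1) N, 1 / (n : ℝ) ^ 2 * Real.cos (2 * Real.pi * n * x)| ≤
      1 / (Real.sin (Real.pi * x) * ((b : ℝ) + 1) ^ 2) := by
  set s := Real.sin (Real.pi * x) with hsdef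
  rcases Nat.lt_or_ge N (b + 1) with h | h
  · rw [Ico_eq_empty (by omega), sum_empty, abs_zero]
    positivity
  set E : ℕ → ℝ := fun k => Real.sin ((2 * (k : ℝ) - 1) * (Real.pi * x)) / (2 * s) with hE
  set g : ℕ → ℝ := fun k => 1 / (k : ℝ) ^ 2 with hg
  have h1 := Sv.abel_bound (E := E) (g := g) (M := 1 / (2 * s)) (n := b + 1) (by
      intro k _
      simp only [hE]
      rw [abs_div, abs_of_pos (by positivity : 0 < 2 * s)]
      exact div_le_div_of_nonneg_right (Real.abs_sin_le_one _) (by positivity))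
    (by
      intro k hk
      simp only [hg]
      have hk0 : (0 : ℝ) < k := by
        have : 0 < k := by omega
        exact_mod_cast this
      refine one_div_le_one_div_of_le (by positivity) ?_
      refine pow_le_pow_left₀ hk0.le ?_ 2
      push_cast
      linarith)
    (by intro k _; simp only [hg]; positivity) h
  have h2 : ∀ k ∈ Ico (b + 1) N, (E (k + 1) - E k) * g k =
      1 / (k : ℝ) ^ 2 * Real.cos (2 * Real.pi * k * x) := by
    intro k _
    simp only [hE, hg]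
    have e1 : Real.sin ((2 * ((k + 1 : ℕ) : ℝ) - 1) * (Real.pi * x)) -
        Real.sin ((2 * (k : ℝ) - 1) * (Real.pi * x)) = 2 * s * Real.cos (2 * Real.pi * k * x) := by
      rw [Real.sin_sub_sin]
      have e2 : ((2 * ((k + 1 : ℕ) : ℝ) - 1) * (Real.pi * x) - (2 * (k : ℝ) - 1) * (Real.pi * x)) / 2 =
          Real.pi * x := by push_cast; ring
      have e3 : ((2 * ((k + 1 : ℕ) : ℝ) - 1) * (Real.pi * x) + (2 * (k : ℝ) - 1) * (Real.pi * x)) / 2 =
          2 * Real.pi * k * x := by push_cast; ring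
      rw [e2, e3]
    rw [← sub_div, e1]
    field_simp
  rw [Finset.sum_congr rfl h2] at h1
  refine h1.trans (le_of_eq ?_)
  simp only [hg]
  push_cast
  field_simp

/-- Lower bound for the sum of squares. -/
lemma SS_ge {b : ℕ} (hb : 1 ≤ b) {x : ℝ} (hx0 : 0 < x) (hx1 : x ≤ 1 / 2) :
    Real.pi ^ 2 * (x * (1 - x)) / 2 - 1 / (2 * (b : ℝ) + 1) -
      1 / (2 * (Real.sin (Real.pi * x) * ((b : ℝ) + 1) ^ 2)) ≤ SS b (Real.pi * x) := by
  have hpi := Real.pi_pos
  have hs : 0 < Real.sin (Real.pi * x) := Real.sin_pos_of_pos_of_lt_pi (by positivity) (by nlinarith)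
  set s := Real.sin (Real.pi * x) with hsdef
  have hsum := hasSum_one_sub_cos (x := x) hx0.le (by linarith)
  have hfin : ∀ N : ℕ, ∑ n ∈ range N, 1 / (n : ℝ) ^ 2 * (1 - Real.cos (2 * Real.pi * n * x)) ≤
      2 * SS b (Real.pi * x) + 2 / (2 * (b : ℝ) + 1) + 1 / (s * ((b : ℝ) + 1) ^ 2) := by
    intro N
    have h1 : ∑ n ∈ range (b + 1), 1 / (n : ℝ) ^ 2 * (1 - Real.cos (2 * Real.pi * n * x)) =
        2 * SS b (Real.pi * x) := by
      rw [Finset.sum_range_succ']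
      simp only [Nat.cast_zero, mul_zero, zero_mul, Real.cos_zero, sub_self, add_zero]
      unfold SS
      rw [Finset.mul_sum]
      refine Finset.sum_congr rfl fun m _ => ?_
      have e1 : 2 * Real.pi * ((m + 1 : ℕ) : ℝ) * x = 2 * (((m : ℝ) + 1) * (Real.pi * x)) := by
        push_cast; ring
      rw [e1, Real.cos_two_mul, Real.cos_sq']
      push_cast
      ring
    have h2 : ∑ n ∈ range N, 1 / (n : ℝ) ^ 2 * (1 - Real.cos (2 * Real.pi * n * x)) ≤
        ∑ n ∈ range (b + 1), 1 / (n : ℝ) ^ 2 * (1 - Real.cos (2 * Real.pi * n * x)) +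
        ∑ n ∈ Ico (b + 1) (max N (b + 1)), 1 / (n : ℝ) ^ 2 * (1 - Real.cos (2 * Real.pi * n * x)) := by
      have e1 : ∑ n ∈ range (b + 1), 1 / (n : ℝ) ^ 2 * (1 - Real.cos (2 * Real.pi * n * x)) +
        ∑ n ∈ Ico (b + 1) (max N (b + 1)), 1 / (n : ℝ) ^ 2 * (1 - Real.cos (2 * Real.pi * n * x)) =
          ∑ n ∈ range (max N (b + 1)), 1 / (n : ℝ) ^ 2 * (1 - Real.cos (2 * Real.pi * n * x)) := by
        rw [range_eq_Ico, range_eq_Ico, Finset.sum_Ico_consecutive _ (Nat.zero_le _) (le_max_right _ _)]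
      rw [e1]
      refine sum_le_sum_of_subset_of_nonneg ?_ fun n _ _ => ?_
      · intro n hn
        rw [mem_range] at hn ⊢
        exact lt_of_lt_of_le hn (le_max_left _ _)
      · have := Real.cos_le_one (2 * Real.pi * n * x)
        exact mul_nonneg (by positivity) (by linarith)
    have h3 : ∑ n ∈ Ico (b + 1) (max N (b + 1)), 1 / (n : ℝ) ^ 2 *
        (1 - Real.cos (2 * Real.pi * n * x)) =
        ∑ n ∈ Ico (b + 1) (max N (b + 1)), 1 / (n : ℝ) ^ 2 -
        ∑ n ∈ Ico (b + 1) (max N (b + 1)), 1 / (n : ℝ) ^ 2 * Real.cos (2 * Real.pi * n * x) := by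
      rw [← Finset.sum_sub_distrib]
      refine Finset.sum_congr rfl fun n _ => ?_
      ring
    have h4 := sum_inv_sq_tail b (max N (b + 1)) hb
    have h5 := (abs_le.mp (cos_tail (b := b) hs (max N (b + 1)))).1
    rw [h1, h3] at h2
    linarith
  have hle := le_of_tendsto' hsum.tendsto_sum_nat hfin
  have e1 : 1 / (2 * (s * ((b : ℝ) + 1) ^ 2)) = (1 / (s * ((b : ℝ) + 1) ^ 2)) / 2 := by
    field_simp
  have e2 : (2 : ℝ) / (2 * (b : ℝ) + 1) = 2 * (1 / (2 * (b : ℝ) + 1)) := by ring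
  rw [e1]
  rw [e2] at hle
  linarith

end Pool.Agent.PalM
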