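import Pool.Agent.PalM.Major
import Pool.Agent.PalM.Maj

/-!
# An explicit positive definite majorant of the Dirichlet kernel: the inequality
-/

namespace Pool.Agent.PalM

open Finset Pool.Agent.Pal

lemma sum_two (b : ℕ) : ∑ m ∈ range b, ((m : ℝ) + 1) ^ 2 =
    (b : ℝ) * (b + 1) * (2 * b + 1) / 6 := by
  induction b with
  | zero => simp
  | succ b ih => rw [Finset.sum_range_succ, ih]; push_cast; ring

lemma sum_four (b : ℕ) : ∑ m ∈ range b, ((m : ℝ) + 1) ^ 4 =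
    (b : ℝ) * (b + 1) * (2 * b + 1) * (3 * b ^ 2 + 3 * b - 1) / 30 := by
  induction b with
  | zero => simp
  | succ b ih => rw [Finset.sum_range_succ, ih]; push_cast; ring

lemma sum_six (b : ℕ) : ∑ m ∈ range b, ((m : ℝ) + 1) ^ 6 =
    (b : ℝ) * (b + 1) * (2 * b + 1) * (3 * b ^ 4 + 6 * b ^ 3 - 3 * b + 1) / 42 := by
  induction b with
  | zero => simp
  | succ b ih => rw [Finset.sum_range_succ, ih]; push_cast; ring

/-- The lower bound near the origin. -/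
lemma SS_ge_near (b : ℕ) {z : ℝ} (hz : 0 ≤ z) :
    (b : ℝ) * z ^ 2 - (b : ℝ) * (b + 1) * (2 * b + 1) / 6 * z ^ 4 / 3 +
      2 * ((b : ℝ) * (b + 1) * (2 * b + 1) * (3 * b ^ 2 + 3 * b - 1) / 30) * z ^ 6 / 45 -
      (b : ℝ) * (b + 1) * (2 * b + 1) * (3 * b ^ 4 + 6 * b ^ 3 - 3 * b + 1) / 42 * z ^ 8 / 315 ≤
      SS b z := by
  rw [← sum_two, ← sum_four, ← sum_six]
  have h1 : ∀ m ∈ range b, z ^ 2 - ((m : ℝ) + 1) ^ 2 * z ^ 4 / 3 +
      2 * ((m : ℝ) + 1) ^ 4 * z ^ 6 / 45 - ((m : ℝ) + 1) ^ 6 * z ^ 8 / 315 ≤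
      Real.sin (((m : ℝ) + 1) * z) ^ 2 / ((m : ℝ) + 1) ^ 2 := by
    intro m _
    have hm : (0 : ℝ) < (m : ℝ) + 1 := by positivity
    rw [le_div_iff₀ (by positivity)]
    have h := sin_sq_ge (u := ((m : ℝ) + 1) * z) (by positivity)
    refine le_trans (le_of_eq ?_) h
    ring
  have h2 := Finset.sum_le_sum h1
  unfold SS
  refine le_trans (le_of_eq ?_) h2
  rw [Finset.sum_sub_distrib, Finset.sum_add_distrib, Finset.sum_sub_distrib, sum_const, card_range,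
    nsmul_eq_mul, ← Finset.sum_div, ← Finset.sum_div, ← Finset.sum_div, ← Finset.sum_mul,
    ← Finset.sum_mul, ← Finset.sum_mul, ← Finset.mul_sum]

/-- The inequality near the origin. -/
lemma near {b : ℕ} (hb : 7 ≤ b) {z : ℝ} (hz : 0 < z) (h : (b : ℝ) * z ≤ 12 / 5) :
    Real.sin z * Real.sin (b * z) ≤ 3 / 20 / b * Real.sin (b * z) ^ 2 + 17 / 20 * SS b z := by
  obtain ⟨t, rfl⟩ : ∃ t, b = 7 + t := ⟨b - 7, by omega⟩
  set B : ℝ := ((7 + t : ℕ) : ℝ) with hB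
  have hBt : B = 7 + (t : ℝ) := by rw [hB]; push_cast; ring
  have ht : (0 : ℝ) ≤ t := Nat.cast_nonneg t
  have hB7 : 7 ≤ B := by rw [hBt]; linarith
  have hBp : 0 < B := by linarith
  have hpi := Real.pi_gt_three
  have hBz : 0 < B * z := by positivity
  have hsB : 0 ≤ Real.sin (B * z) := Real.sin_nonneg_of_nonneg_of_le_pi hBz.le (by linarith)
  have h1 : Real.sin z * Real.sin (B * z) ≤ z * (B * z - (B * z) ^ 3 / 6 + (B * z) ^ 5 / 120) :=
    mul_le_mul (Real.sin_le hz.le) (sin_le5 hBz.le) hsB hz.le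
  have h2 : 3 / 20 / B * ((B * z) ^ 2 - (B * z) ^ 4 / 3 + 2 * (B * z) ^ 6 / 45 - (B * z) ^ 8 / 315) ≤
      3 / 20 / B * Real.sin (B * z) ^ 2 :=
    mul_le_mul_of_nonneg_left (sin_sq_ge hBz.le) (by positivity)
  have h2' : 3 / 20 / B * ((B * z) ^ 2 - (B * z) ^ 4 / 3 + 2 * (B * z) ^ 6 / 45 - (B * z) ^ 8 / 315) =
      3 / 20 * (B * z ^ 2 - B ^ 3 * z ^ 4 / 3 + 2 * B ^ 5 * z ^ 6 / 45 - B ^ 7 * z ^ 8 / 315) := by
    field_simp
  rw [h2'] at h2
  have h3 := SS_ge_near (7 + t) hz.le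
  rw [← hB] at h3
  -- the coefficients
  have c4 : 0 ≤ B ^ 3 / 6 - B ^ 3 / 20 - 17 / 60 * (B * (B + 1) * (2 * B + 1) / 6) := by
    have : B ^ 3 / 6 - B ^ 3 / 20 - 17 / 60 * (B * (B + 1) * (2 * B + 1) / 6) =
        B * (8 * B ^ 2 - 51 * B - 17) / 360 := by ring
    rw [this]
    have : 0 ≤ 8 * B ^ 2 - 51 * B - 17 := by nlinarith
    positivity
  set c6 : ℝ := 3 / 20 * (2 / 45) * B ^ 5 + 17 / 20 * (2 / 45) *
    (B * (B + 1) * (2 * B + 1) * (3 * B ^ 2 + 3 * B - 1) / 30) - B ^ 5 / 120 with hc6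
  set c8 : ℝ := 3 / 20 / 315 * B ^ 7 + 17 / 20 / 315 *
    (B * (B + 1) * (2 * B + 1) * (3 * B ^ 4 + 6 * B ^ 3 - 3 * B + 1) / 42) with hc8
  have hc8p : 0 ≤ c8 := by
    rw [hc8, hBt]
    have : (3 : ℝ) * (7 + t) ^ 4 + 6 * (7 + t) ^ 3 - 3 * (7 + t) + 1 =
      3 * t ^ 4 + 90 * t ^ 3 + 1008 * t ^ 2 + 4995 * t + 9241 := by ring
    rw [this]
    positivity
  have c68 : 144 / 25 * c8 ≤ c6 * B ^ 2 := by
    have : c6 * B ^ 2 - 144 / 25 * c8 = B ^ 3 * (c6 * B ^ 2 - 144 / 25 * c8) / B ^ 3 := by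
      field_simp
    rw [← sub_nonneg]
    rw [hc6, hc8, hBt]
    ring_nf
    positivity
  have hw : z ^ 2 * B ^ 2 ≤ 144 / 25 := by
    have : (B * z) ^ 2 ≤ (12 / 5) ^ 2 := pow_le_pow_left₀ hBz.le h 2
    nlinarith
  have h68 : c8 * z ^ 2 ≤ c6 := by
    have h4 : c8 * z ^ 2 * B ^ 2 ≤ c6 * B ^ 2 := by
      calc c8 * z ^ 2 * B ^ 2 = c8 * (z ^ 2 * B ^ 2) := by ring
        _ ≤ c8 * (144 / 25) := mul_le_mul_of_nonneg_left hw hc8p
        _ ≤ c6 * B ^ 2 := by linarith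
    exact le_of_mul_le_mul_right h4 (by positivity)
  have h5 : 0 ≤ z ^ 4 * (B ^ 3 / 6 - B ^ 3 / 20 - 17 / 60 * (B * (B + 1) * (2 * B + 1) / 6)) +
      z ^ 6 * (c6 - c8 * z ^ 2) := by
    have : 0 ≤ c6 - c8 * z ^ 2 := by linarith
    positivity
  have h6 : 3 / 20 * (B * z ^ 2 - B ^ 3 * z ^ 4 / 3 + 2 * B ^ 5 * z ^ 6 / 45 - B ^ 7 * z ^ 8 / 315) +
      17 / 20 * (B * z ^ 2 - B * (B + 1) * (2 * B + 1) / 6 * z ^ 4 / 3 +
      2 * (B * (B + 1) * (2 * B + 1) * (3 * B ^ 2 + 3 * B - 1) / 30) * z ^ 6 / 45 -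
      B * (B + 1) * (2 * B + 1) * (3 * B ^ 4 + 6 * B ^ 3 - 3 * B + 1) / 42 * z ^ 8 / 315) -
      z * (B * z - (B * z) ^ 3 / 6 + (B * z) ^ 5 / 120) =
      z ^ 4 * (B ^ 3 / 6 - B ^ 3 / 20 - 17 / 60 * (B * (B + 1) * (2 * B + 1) / 6)) +
      z ^ 6 * (c6 - c8 * z ^ 2) := by
    rw [hc6, hc8]
    ring
  linarith

lemma aux_q1 {q : ℝ} (h1 : 1 ≤ q) (h2 : q ≤ 1.616) : (0.0120 : ℝ) ≤ q * (0.075 - q / 24) := by
  have h : 0 ≤ (q - 1) * (1.616 - q) := mul_nonneg (by linarith) (by linarith)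
  norm_num at h h2 ⊢
  linarith

lemma aux_q2 {q P s : ℝ} (hP : (9.869 : ℝ) ≤ P) (hc : s ≤ 1 - q / 2 + q ^ 2 / 24) :
    (0.01334 : ℝ) + q * (0.075 - q / 24) ≤ 17 / 40 * (P / 4 - q) - 17 / 300 + 3 / 140 - s := by
  norm_num at hP ⊢
  linarith

lemma aux_small {z s W α β γ : ℝ} (hz : 0 < z) (k0 : β ≤ 5 / 12 * z)
    (k1 : 17 / 20 * α ≤ 17 / 40 * β) (k2 : γ ≤ 0.0882 * z)
    (k3 : z * (1.3351 - 0.1275) ≤ 17 / 20 * (W / 2)) (hsz : s ≤ z) :
    s - 3 / 20 * β ≤ 17 / 20 * (W / 2 - α - γ) := by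
  norm_num at k2 k3
  linarith

lemma bulk_key {z : ℝ} (hz3 : 3 / 10 ≤ z) (hz1 : z ≤ Real.pi / 2) :
    17 / 2560 / Real.sin z ≤ 17 / 40 * (z * (Real.pi - z)) - 17 / 300 + 3 / 140 - Real.sin z := by
  have hpi := Real.pi_pos
  have hpi1 := Real.pi_gt_d4
  have hpi2 := Real.pi_lt_d4
  have hz0 : 0 < z := by linarith
  set s := Real.sin z with hs
  have hs0 : 0 < s := Real.sin_pos_of_pos_of_lt_pi hz0 (by linarith)
  rw [div_le_iff₀ hs0]
  set v := Real.pi / 2 - z with hv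
  have hv0 : 0 ≤ v := by rw [hv]; linarith
  have hsv : s = Real.cos v := by rw [hv, hs, Real.cos_pi_div_two_sub]
  have hzv : z * (Real.pi - z) = Real.pi ^ 2 / 4 - v ^ 2 := by rw [hv]; ring
  have hpisq : (9.869 : ℝ) ≤ Real.pi ^ 2 := by
    have : (3.1415 : ℝ) ^ 2 ≤ Real.pi ^ 2 := pow_le_pow_left₀ (by norm_num) hpi1.le 2
    norm_num at this ⊢
    linarith
  have hc := cos_le4 hv0
  rw [← hsv] at hc
  have hvle : v ≤ 1.2708 := by
    rw [hv]
    norm_num at hpi2 ⊢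
    linarith
  have hq1 : 1 - v ^ 2 / 2 ≤ s := by
    rw [hsv]
    exact Real.one_sub_sq_div_two_le_cos
  have hqle : v ^ 2 ≤ 1.616 := by
    have : v ^ 2 ≤ (1.2708 : ℝ) ^ 2 := pow_le_pow_left₀ hv0 hvle 2
    norm_num at this ⊢
    linarith
  have hq0 : 0 ≤ v ^ 2 := sq_nonneg _
  have hq4 : v ^ 4 = (v ^ 2) ^ 2 := by ring
  rw [hq4] at hc
  rw [hzv]
  have hs3 : (0.2955 : ℝ) ≤ s := by
    have e1 : Real.sin (3 / 10) ≤ s := by
      rw [hs]
      exact Real.sin_le_sin_of_le_of_le_pi_div_two (by linarith) hz1 hz3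
    have e2 := sin_ge3 (x := 3 / 10) (by norm_num)
    norm_num at e2 ⊢
    linarith
  generalize v ^ 2 = q at *
  have hP := aux_q2 hpisq hc
  generalize 17 / 40 * (Real.pi ^ 2 / 4 - q) - 17 / 300 + 3 / 140 - s = F at *
  rcases le_or_gt q 1 with hq | hq
  · have hs5 : 1 / 2 ≤ s := by linarith
    have e1 : (0.01334 : ℝ) ≤ F := by
      have : 0 ≤ q * (0.075 - q / 24) := mul_nonneg hq0 (by norm_num; linarith)
      linarith
    calc (17 : ℝ) / 2560 ≤ 0.01334 * (1 / 2) := by norm_num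
      _ ≤ _ := mul_le_mul e1 hs5 (by norm_num) (by linarith)
  · have e1 : (0.0253 : ℝ) ≤ F := by
      have := aux_q1 hq.le hqle
      norm_num at this hP ⊢
      linarith
    calc (17 : ℝ) / 2560 ≤ 0.0253 * 0.2955 := by norm_num
      _ ≤ _ := mul_le_mul e1 hs3 (by norm_num) (by linarith)

/-- The inequality away from the origin. -/
lemma far {b : ℕ} (hb : 7 ≤ b) {x : ℝ} (hx0 : 0 < x) (hx1 : x ≤ 1 / 2)
    (h : 12 / 5 ≤ (b : ℝ) * (Real.pi * x)) {σ : ℝ} (hσ1 : σ ≤ 1) :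
    Real.sin (Real.pi * x) * σ ≤ 3 / 20 / b * σ ^ 2 + 17 / 20 * SS b (Real.pi * x) := by
  have hpi := Real.pi_pos
  have hpi1 := Real.pi_gt_d4
  have hpi2 := Real.pi_lt_d4
  have hB7 : (7 : ℝ) ≤ b := by exact_mod_cast hb
  have hBp : (0 : ℝ) < b := by linarith
  have hSS := SS_ge (b := b) (by omega) hx0 hx1
  set z := Real.pi * x with hz
  have hz0 : 0 < z := by positivity
  have hz1 : z ≤ Real.pi / 2 := by rw [hz]; nlinarith
  have hzz : Real.pi ^ 2 * (x * (1 - x)) = z * (Real.pi - z) := by rw [hz]; ring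
  rw [hzz] at hSS
  set s := Real.sin z with hs
  have hs0 : 0 < s := Real.sin_pos_of_pos_of_lt_pi hz0 (by linarith)
  have hJ : 2 / Real.pi * z ≤ s := Real.mul_le_sin hz0.le hz1
  -- reduction to `σ = 1`
  have h1 : 3 / 10 / (b : ℝ) ≤ s := by
    rw [div_le_iff₀ hBp]
    have e1 : (2 : ℝ) / 3.1416 ≤ 2 / Real.pi := div_le_div_of_nonneg_left (by norm_num) hpi hpi2.le
    have e2 : (2 : ℝ) / 3.1416 * z ≤ s := le_trans (mul_le_mul_of_nonneg_right e1 hz0.le) hJ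
    have e3 : (2 : ℝ) / 3.1416 * z * b ≤ s * b := mul_le_mul_of_nonneg_right e2 hBp.le
    have e4 : (2 : ℝ) / 3.1416 * (12 / 5) ≤ 2 / 3.1416 * (b * z) :=
      mul_le_mul_of_nonneg_left h (by norm_num)
    norm_num at e3 e4
    linarith
  have h2 : s * σ - 3 / 20 / b * σ ^ 2 ≤ s - 3 / 20 / b := by
    have e1 : 0 ≤ (1 - σ) * (s - 3 / 20 / b * (1 + σ)) := by
      refine mul_nonneg (by linarith) ?_
      have e2 : 3 / 20 / (b : ℝ) * (1 + σ) ≤ 3 / 20 / b * 2 :=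
        mul_le_mul_of_nonneg_left (by linarith) (by positivity)
      have e3 : 3 / 20 / (b : ℝ) * 2 = 3 / 10 / b := by ring
      linarith
    nlinarith
  suffices hmain : s - 3 / 20 / b ≤ 17 / 20 * (z * (Real.pi - z) / 2 - 1 / (2 * (b : ℝ) + 1) -
      1 / (2 * (s * ((b : ℝ) + 1) ^ 2))) by linarith
  rcases le_or_gt (3 / 10) z with hz3 | hz3
  · -- the bulk
    have k1 : 17 / 20 * (1 / (2 * (b : ℝ) + 1)) - 3 / 20 / b ≤ 17 / 20 * (1 / 15) - 3 / 20 / 7 := by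
      have e1 : (17 : ℝ) / 20 * (1 / 15) - 3 / 20 / 7 - (17 / 20 * (1 / (2 * (b : ℝ) + 1)) - 3 / 20 / b) =
          ((b : ℝ) - 7) * (148 * b - 45) / (2100 * b * (2 * b + 1)) := by
        field_simp
        ring
      have e2 : 0 ≤ ((b : ℝ) - 7) * (148 * b - 45) / (2100 * b * (2 * b + 1)) := by
        have : 0 ≤ (b : ℝ) - 7 := by linarith
        have : 0 ≤ 148 * (b : ℝ) - 45 := by linarith
        positivity
      linarith
    have k2 : 1 / (2 * (s * ((b : ℝ) + 1) ^ 2)) ≤ 1 / (128 * s) := by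
      refine one_div_le_one_div_of_le (by positivity) ?_
      have : (8 : ℝ) ^ 2 ≤ ((b : ℝ) + 1) ^ 2 := pow_le_pow_left₀ (by norm_num) (by linarith) 2
      nlinarith
    have key := bulk_key hz3 hz1
    rw [← hs] at key
    have k3 : 17 / 20 * (1 / (128 * s)) = 17 / 2560 / s := by field_simp; norm_num
    have k4 : 17 / 20 * (1 / (2 * (s * ((b : ℝ) + 1) ^ 2))) ≤ 17 / 2560 / s := by
      rw [← k3]
      exact mul_le_mul_of_nonneg_left k2 (by norm_num)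
    linarith
  · -- small `z`
    have hbz : 12 / 5 / z ≤ (b : ℝ) := by rw [div_le_iff₀ hz0]; exact h
    have k0 : 1 / (b : ℝ) ≤ 5 / 12 * z := by
      rw [div_le_iff₀ hBp]
      nlinarith
    have k1 : 17 / 20 * (1 / (2 * (b : ℝ) + 1)) ≤ 17 / 40 * (1 / b) := by
      have : 1 / (2 * (b : ℝ) + 1) ≤ 1 / (2 * b) := one_div_le_one_div_of_le (by positivity) (by linarith)
      have e1 : 1 / (2 * (b : ℝ)) = 1 / 2 * (1 / b) := by field_simp
      linarith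
    have hs1 : 0.985 * z ≤ s := by
      have e1 := sin_ge3 hz0.le
      have e2 : z ^ 3 / 6 ≤ 0.015 * z := by
        have : z ^ 2 ≤ (3 / 10) ^ 2 := pow_le_pow_left₀ hz0.le hz3.le 2
        norm_num at this ⊢
        nlinarith
      norm_num at e2 ⊢
      linarith
    have k2 : 1 / (2 * (s * ((b : ℝ) + 1) ^ 2)) ≤ 0.0882 * z := by
      rw [div_le_iff₀ (by positivity)]
      have e1 : (b : ℝ) ^ 2 ≤ ((b : ℝ) + 1) ^ 2 := pow_le_pow_left₀ hBp.le (by linarith) 2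
      have e2 : (12 / 5) ^ 2 ≤ ((b : ℝ) * z) ^ 2 := pow_le_pow_left₀ (by norm_num) h 2
      have e3 : 0.985 * z * (b : ℝ) ^ 2 ≤ s * ((b : ℝ) + 1) ^ 2 :=
        mul_le_mul hs1 e1 (by positivity) hs0.le
      have e4 : 0.0882 * z * (2 * (0.985 * z * (b : ℝ) ^ 2)) ≤
          0.0882 * z * (2 * (s * ((b : ℝ) + 1) ^ 2)) :=
        mul_le_mul_of_nonneg_left (by linarith) (by positivity)
      have e5 : 0.0882 * z * (2 * (0.985 * z * (b : ℝ) ^ 2)) = 0.0882 * 2 * 0.985 * ((b : ℝ) * z) ^ 2 := by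
        ring
      norm_num at e2 e4 e5 ⊢
      linarith
    have hsz : s ≤ z := Real.sin_le hz0.le
    have k3 : z * (1.3351 - 0.1275) ≤ 17 / 20 * (z * (Real.pi - z) / 2) := by
      norm_num at hpi1 ⊢
      nlinarith
    have k4 : 3 / 20 / (b : ℝ) = 3 / 20 * (1 / b) := by ring
    rw [k4]
    exact aux_small hz0 k0 k1 k2 k3 hsz

lemma phi_mul_sin {m : ℕ} (hm : 1 ≤ m) (x : ℝ) :
    phi m x * (m * |Real.sin (Real.pi * x)|) = |Real.sin (m * (Real.pi * x))| := by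
  have hm0 : (m : ℝ) ≠ 0 := by
    have : m ≠ 0 := by omega
    exact_mod_cast this
  have h1 : ‖dir m x‖ * ‖ex x - 1‖ = ‖ex (m * x) - 1‖ := by rw [← norm_mul, dir_mul]
  rw [norm_ex_sub_one, norm_ex_sub_one] at h1
  have h2 : Real.pi * (m * x) = m * (Real.pi * x) := by ring
  rw [h2] at h1
  have h3 : ‖dir m x‖ * |Real.sin (Real.pi * x)| = |Real.sin (m * (Real.pi * x))| := by linarith
  rw [← h3]
  unfold phi
  field_simp

lemma phi_neg (m : ℕ) (x : ℝ) : phi m (-x) = phi m x := by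
  unfold phi dir
  congr 1
  rw [← Complex.norm_conj, map_sum]
  congr 1
  refine Finset.sum_congr rfl fun n _ => ?_
  rw [← ex_neg]
  congr 1
  ring

lemma phi_zero {m : ℕ} (hm : 1 ≤ m) : phi m 0 = 1 := by
  have hm0 : (m : ℝ) ≠ 0 := by
    have : m ≠ 0 := by omega
    exact_mod_cast this
  unfold phi dir
  simp [ex_zero, hm0]

/-- The inequality on `[0, 1/2]`. -/
lemma phi_le_major_aux {b : ℕ} (hb : 7 ≤ b) {x : ℝ} (hx0 : 0 ≤ x) (hx1 : x ≤ 1 / 2) :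
    phi b x ≤ 3 / 20 * phi b x ^ 2 + 17 / 20 * ((∑ m ∈ range b, phi (m + 1) x ^ 2) / b) := by
  have hB7 : (7 : ℝ) ≤ b := by exact_mod_cast hb
  have hBp : (0 : ℝ) < b := by linarith
  rcases eq_or_lt_of_le hx0 with h0 | h0
  · rw [← h0, phi_zero (by omega)]
    have : ∀ m ∈ range b, phi (m + 1) (0 : ℝ) ^ 2 = 1 := by
      intro m _
      rw [phi_zero (by omega), one_pow]
    rw [Finset.sum_congr rfl this, sum_const, card_range, nsmul_eq_mul, mul_one,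
      div_self hBp.ne']
    norm_num
  have hpi := Real.pi_pos
  set z := Real.pi * x with hz
  have hz0 : 0 < z := by positivity
  have hz1 : z ≤ Real.pi / 2 := by rw [hz]; nlinarith
  have hs0 : 0 < Real.sin z := Real.sin_pos_of_pos_of_lt_pi hz0 (by linarith)
  set s := Real.sin z with hs
  -- the values of the kernels
  have hphi : ∀ m : ℕ, 1 ≤ m → phi m x = |Real.sin (m * z)| / (m * s) := by
    intro m hm
    have hm0 : (0 : ℝ) < m := by
      have : 0 < m := by omega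
      exact_mod_cast this
    rw [eq_div_iff (by positivity), ← phi_mul_sin hm x, ← hz, abs_of_pos hs0]
  have hsum : ∑ m ∈ range b, phi (m + 1) x ^ 2 = SS b z / s ^ 2 := by
    unfold SS
    rw [Finset.sum_div]
    refine Finset.sum_congr rfl fun m _ => ?_
    rw [hphi (m + 1) (by omega), div_pow, sq_abs]
    push_cast
    field_simp
  rw [hsum, hphi b (by omega)]
  set σ := |Real.sin (b * z)| with hσ
  have hσ1 : σ ≤ 1 := Real.abs_sin_le_one _
  have hmain : s * σ ≤ 3 / 20 / b * σ ^ 2 + 17 / 20 * SS b z := by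
    rcases le_or_gt ((b : ℝ) * z) (12 / 5) with h | h
    · have h1 := near hb hz0 h
      have h2 : 0 ≤ Real.sin (b * z) := by
        refine Real.sin_nonneg_of_nonneg_of_le_pi (by positivity) ?_
        have := Real.pi_gt_three
        linarith
      rw [hσ, abs_of_nonneg h2]
      exact h1
    · exact far hb h0 hx1 h.le hσ1
  have e1 : σ / (b * s) = s * σ / (b * s ^ 2) := by field_simp
  have e2 : 3 / 20 * (σ / (b * s)) ^ 2 + 17 / 20 * (SS b z / s ^ 2 / b) =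
      (3 / 20 / b * σ ^ 2 + 17 / 20 * SS b z) / (b * s ^ 2) := by field_simp
  rw [e2, e1]
  exact div_le_div_of_nonneg_right hmain (by positivity)

/-- **An explicit positive definite majorant.** -/
theorem phi_le_major {b : ℕ} (hb : 7 ≤ b) (x : ℝ) :
    phi b x ≤ 3 / 20 * phi b x ^ 2 + 17 / 20 * ((∑ m ∈ range b, phi (m + 1) x ^ 2) / b) := by
  have hred : ∃ t : ℝ, 0 ≤ t ∧ t ≤ 1 / 2 ∧ ∀ m : ℕ, phi m x = phi m t := by
    refine ⟨|x - round x|, abs_nonneg _, abs_sub_round x, ?_⟩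
    intro m
    have h1 : phi m x = phi m (x - round x) := by
      have := phi_add_int m (x - round x) (round x)
      rw [← this]; congr 1; ring
    rw [h1]
    rcases abs_cases (x - round x) with h | h
    · rw [h.1]
    · rw [h.1, phi_neg]
  obtain ⟨t, ht0, ht1, ht⟩ := hred
  simp only [ht]
  exact phi_le_major_aux hb ht0 ht1

end Pool.Agent.PalM
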