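import Pool.Agent.PalM.Cen

/-!
# Majorants that are mixtures of Fejér kernels
-/

namespace Pool.Agent.PalM

open Finset Pool.Agent.Pal

lemma Phi_one (b : ℕ) (w v : ℝ) : Phi b 1 w v = phi b (w + v) := by
  simp [Phi]

/-- The square of a kernel as an exponential sum. -/
lemma phi_sq_mix (m : ℕ) (x : ℝ) :
    ((phi m x ^ 2 : ℝ) : ℂ) = ∑ a : Fin m, ∑ a' : Fin m,
      (((1 / (m : ℝ) ^ 2 : ℝ)) : ℂ) * ex ((((a : ℕ) : ℤ) - ((a' : ℕ) : ℤ) : ℤ) * x) := by
  have h := norm_sq_sum_ex (range m) (fun n => n) x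
  have h1 : phi m x ^ 2 = 1 / (m : ℝ) ^ 2 * ‖∑ n ∈ range m, ex (n * x)‖ ^ 2 := by
    unfold phi dir
    rw [div_pow]
    ring
  rw [h1, Complex.ofReal_mul, h, Finset.mul_sum]
  rw [← Fin.sum_univ_eq_sum_range (fun a => ((1 / (m : ℝ) ^ 2 : ℝ) : ℂ) *
    ∑ h' ∈ range m, ex (((a : ℤ) - (h' : ℤ) : ℤ) * x)) m]
  refine Finset.sum_congr rfl fun a _ => ?_
  rw [Finset.mul_sum, ← Fin.sum_univ_eq_sum_range (fun a' => ((1 / (m : ℝ) ^ 2 : ℝ) : ℂ) *
    ex (((a : ℕ) - (a' : ℤ) : ℤ) * x)) m]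

/-- Mixtures of Fejér kernels are admissible. -/
theorem hasMaj_of_mix {b : ℕ} (c : ℕ → ℝ) (hc : ∀ m < b, 0 ≤ c m)
    (hs : ∑ m ∈ range b, c m = 1)
    (hmaj : ∀ x, phi b x ≤ ∑ m ∈ range b, c m * phi (m + 1) x ^ 2) :
    HasMaj b 1 1 (∑ m ∈ range b, c m / ((m : ℝ) + 1)) := by
  have hcount : ∀ m : Fin b, ∑ a : Fin ((m : ℕ) + 1), ∑ a' : Fin ((m : ℕ) + 1),
      c m / ((m : ℝ) + 1) ^ 2 = c m := by
    intro m
    rw [Finset.sum_const, Finset.sum_const, card_univ, Fintype.card_fin, nsmul_eq_mul,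
      nsmul_eq_mul]
    push_cast
    have : ((m : ℕ) : ℝ) + 1 ≠ 0 := by positivity
    field_simp
  refine ⟨(Σ m : Fin b, Fin ((m : ℕ) + 1) × Fin ((m : ℕ) + 1)), inferInstance,
    fun i => c i.1 / (((i.1 : ℕ) : ℝ) + 1) ^ 2,
    fun i => ((i.2.1 : ℕ) : ℤ) - ((i.2.2 : ℕ) : ℤ), fun i => ((i.2.1 : ℕ) : ℤ) - ((i.2.2 : ℕ) : ℤ),
    fun w v => ∑ m ∈ range b, c m * phi (m + 1) (w + v) ^ 2, ?_, ?_, ?_, ?_, ?_, ?_, ?_⟩
  · intro i
    exact div_nonneg (hc _ i.1.2) (by positivity)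
  · rintro ⟨m, a, a'⟩
    have h1 := m.2
    have h2 := a.2
    have h3 := a'.2
    rw [pow_one, abs_lt]
    constructor <;> simp only <;> omega
  · rintro ⟨m, a, a'⟩
    have h1 := m.2
    have h2 := a.2
    have h3 := a'.2
    rw [pow_one, abs_lt]
    constructor <;> simp only <;> omega
  · intro w v
    rw [Fintype.sum_sigma, Complex.ofReal_sum,
      ← Fin.sum_univ_eq_sum_range (fun m => ((c m * phi (m + 1) (w + v) ^ 2 : ℝ) : ℂ)) b]
    refine Finset.sum_congr rfl fun m _ => ?_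
    rw [Complex.ofReal_mul, phi_sq_mix, Fintype.sum_prod_type, Finset.mul_sum]
    refine Finset.sum_congr rfl fun a _ => ?_
    rw [Finset.mul_sum]
    refine Finset.sum_congr rfl fun a' _ => ?_
    rw [← mul_assoc, ← Complex.ofReal_mul]
    congr 2
    · push_cast; ring
    · ring
  · refine Eq.trans ?_ hs
    rw [Fintype.sum_sigma, ← Fin.sum_univ_eq_sum_range c b]
    refine Finset.sum_congr rfl fun m _ => ?_
    rw [Fintype.sum_prod_type]
    exact hcount m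
  · refine le_of_eq ?_
    rw [Finset.sum_filter, Fintype.sum_sigma,
      ← Fin.sum_univ_eq_sum_range (fun m => c m / ((m : ℝ) + 1)) b]
    refine Finset.sum_congr rfl fun m _ => ?_
    rw [Fintype.sum_prod_type]
    have h1 : ∀ a : Fin ((m : ℕ) + 1), ∑ a' : Fin ((m : ℕ) + 1),
        (if (((a : ℕ) : ℤ) - ((a' : ℕ) : ℤ) = 0 ∧ ((a : ℕ) : ℤ) - ((a' : ℕ) : ℤ) = 0) then
          c m / (((m : ℕ) : ℝ) + 1) ^ 2 else 0) = c m / (((m : ℕ) : ℝ) + 1) ^ 2 := by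
      intro a
      rw [Finset.sum_eq_single a]
      · simp
      · intro a' _ ha'
        rw [if_neg]
        rintro ⟨h, _⟩
        apply ha'
        ext
        omega
      · intro h
        exact absurd (mem_univ a) h
    rw [Finset.sum_congr rfl fun a _ => h1 a, Finset.sum_const, card_univ, Fintype.card_fin,
      nsmul_eq_mul]
    push_cast
    have : ((m : ℕ) : ℝ) + 1 ≠ 0 := by positivity
    field_simp
  · intro w v
    rw [Phi_one, Real.rpow_one]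
    exact hmaj _

end Pool.Agent.PalM
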