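import Pool.Agent.PalM.Cos
import Pool.Agent.PalM.Bern

/-!
# Majorants in the small bases: general lemmas
-/

namespace Pool.Agent.PalM

open Finset Pool.Agent.Pal

/-- The Chebyshev polynomials. -/
def cp : ℕ → ℝ → ℝ
  | 0, _ => 1
  | 1, X => X
  | (n + 2), X => 2 * X * cp (n + 1) X - cp n X

lemma cos_eq_cp (x : ℝ) : ∀ n : ℕ, Real.cos (2 * Real.pi * (n * x)) = cp n (Real.cos (2 * Real.pi * x))
  | 0 => by simp [cp]
  | 1 => by simp [cp]
  | (n + 2) => by
    rw [cp, ← cos_eq_cp x (n + 1), ← cos_eq_cp x n]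
    have h1 := Real.cos_add (2 * Real.pi * ((n + 1 : ℕ) * x)) (2 * Real.pi * x)
    have h2 := Real.cos_sub (2 * Real.pi * ((n + 1 : ℕ) * x)) (2 * Real.pi * x)
    have e1 : 2 * Real.pi * ((n + 1 : ℕ) * x) + 2 * Real.pi * x =
        2 * Real.pi * ((n + 2 : ℕ) * x) := by push_cast; ring
    have e2 : 2 * Real.pi * ((n + 1 : ℕ) * x) - 2 * Real.pi * x = 2 * Real.pi * (n * x) := by
      push_cast; ring
    rw [e1] at h1
    rw [e2] at h2
    linarith

/-- Integral tables in one variable. -/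
lemma hasMaj_one {b : ℕ} (hb : 1 ≤ b) (M : Fin b → ℕ) {D : ℕ} (hD : 0 < D)
    (hs : ∑ p, M p = D) (z0 : Fin b) (hz0 : (z0 : ℕ) = 0)
    (hmaj : ∀ x, phi b x * D ≤ ∑ p, (M p : ℝ) * cp p (Real.cos (2 * Real.pi * x))) :
    HasMaj b 1 1 (M z0 / D) := by
  have hD' : (0 : ℝ) < D := by exact_mod_cast hD
  have h := hasMaj_of_cos (b := b) (L := 1) hb (fun p => (M (p 0) : ℝ) / D)
    (fun p => by positivity) (by
      rw [← (Equiv.funUnique (Fin 1) (Fin b)).symm.sum_comp]
      simp only [Equiv.funUnique_symm_apply, uniqueElim_const]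
      rw [← Finset.sum_div]
      have : (∑ p, (M p : ℝ)) = D := by exact_mod_cast hs
      rw [this, div_self hD'.ne']) (fun _ => z0) (fun _ => hz0) (by
      intro x
      rw [← (Equiv.funUnique (Fin 1) (Fin b)).symm.sum_comp]
      simp only [Equiv.funUnique_symm_apply, uniqueElim_const, Finset.univ_unique,
        Finset.prod_singleton]
      have h1 := hmaj (x default)
      rw [← le_div_iff₀ hD', Finset.sum_div] at h1
      refine h1.trans (le_of_eq ?_)
      refine Finset.sum_congr rfl fun p _ => ?_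
      rw [cos_eq_cp]
      ring)
  exact h

/-- Integral tables in two variables. -/
lemma hasMaj_two {b : ℕ} (hb : 1 ≤ b) (M : Fin b → Fin b → ℕ) {D : ℕ} (hD : 0 < D)
    (hs : ∑ p, ∑ q, M p q = D) (z0 : Fin b) (hz0 : (z0 : ℕ) = 0)
    (hmaj : ∀ x y, phi b x * phi b y * D ≤ ∑ p, ∑ q, (M p q : ℝ) *
      (cp p (Real.cos (2 * Real.pi * x)) * cp q (Real.cos (2 * Real.pi * y)))) :
    HasMaj b 2 1 (M z0 z0 / D) := by
  have hD' : (0 : ℝ) < D := by exact_mod_cast hD
  have h := hasMaj_of_cos (b := b) (L := 2) hb (fun p => (M (p 0) (p 1) : ℝ) / D)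
    (fun p => by positivity) (by
      rw [← (finTwoArrowEquiv (Fin b)).symm.sum_comp, Fintype.sum_prod_type]
      simp only [finTwoArrowEquiv_symm_apply, Matrix.cons_val_zero, Matrix.cons_val_one]
      rw [Finset.sum_congr rfl fun p _ => (Finset.sum_div _ _ _).symm, ← Finset.sum_div]
      have : (∑ p, ∑ q, (M p q : ℝ)) = D := by exact_mod_cast hs
      rw [this, div_self hD'.ne']) (fun _ => z0) (fun _ => hz0) (by
      intro x
      rw [← (finTwoArrowEquiv (Fin b)).symm.sum_comp, Fintype.sum_prod_type]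
      simp only [finTwoArrowEquiv_symm_apply, Fin.prod_univ_two, Matrix.cons_val_zero,
        Matrix.cons_val_one]
      have h1 := hmaj (x 0) (x 1)
      rw [← le_div_iff₀ hD', Finset.sum_div] at h1
      refine h1.trans (le_of_eq ?_)
      refine Finset.sum_congr rfl fun p _ => ?_
      rw [Finset.sum_div]
      refine Finset.sum_congr rfl fun q _ => ?_
      rw [cos_eq_cp, cos_eq_cp]
      ring)
  exact h

/-! ### The kernels -/

lemma half_facts (x : ℝ) : ∃ h : ℂ, h ≠ 0 ∧ ‖h‖ = 1 ∧ (∀ n : ℕ, ex (n * x) = h ^ (2 * n)) ∧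
    ((Real.cos (Real.pi * x) : ℝ) : ℂ) = (h + h⁻¹) / 2 ∧
    ((Real.cos (2 * Real.pi * x) : ℝ) : ℂ) = (h ^ 2 + (h ^ 2)⁻¹) / 2 := by
  refine ⟨ex (x / 2), ex_ne_zero _, norm_ex _, ?_, ?_, ?_⟩
  · intro n
    rw [← ex_nat_mul]
    congr 1
    push_cast
    ring
  · unfold ex
    rw [Complex.ofReal_cos, Complex.cos, ← Complex.exp_neg]
    push_cast
    congr 2
    · congr 1; ring
    · congr 1; ring
  · unfold ex
    rw [Complex.ofReal_cos, Complex.cos, ← Complex.exp_nat_mul, ← Complex.exp_neg]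
    push_cast
    congr 2
    · congr 1; ring
    · congr 1; ring

lemma phi_three (x : ℝ) : phi 3 x = |1 + 2 * Real.cos (2 * Real.pi * x)| / 3 := by
  obtain ⟨h, h0, h1, h2, -, h4⟩ := half_facts x
  have h5 : dir 3 x = h ^ 2 * ((1 + 2 * Real.cos (2 * Real.pi * x) : ℝ) : ℂ) := by
    unfold dir
    simp only [Finset.sum_range_succ, Finset.sum_range_zero, h2]
    rw [Complex.ofReal_add, Complex.ofReal_mul, h4]
    push_cast
    field_simp
    ring
  unfold phi
  rw [h5, norm_mul, norm_pow, h1, one_pow, one_mul, Complex.norm_real, Real.norm_eq_abs]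
  norm_num

lemma phi_four (x : ℝ) : phi 4 x =
    |8 * Real.cos (Real.pi * x) ^ 3 - 4 * Real.cos (Real.pi * x)| / 4 := by
  obtain ⟨h, h0, h1, h2, h3, -⟩ := half_facts x
  have h5 : dir 4 x = h ^ 3 *
      ((8 * Real.cos (Real.pi * x) ^ 3 - 4 * Real.cos (Real.pi * x) : ℝ) : ℂ) := by
    unfold dir
    simp only [Finset.sum_range_succ, Finset.sum_range_zero, h2]
    rw [Complex.ofReal_sub, Complex.ofReal_mul, Complex.ofReal_mul, Complex.ofReal_pow, h3]
    push_cast
    field_simp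
    ring
  unfold phi
  rw [h5, norm_mul, norm_pow, h1, one_pow, one_mul, Complex.norm_real, Real.norm_eq_abs]
  norm_num

lemma phi_five (x : ℝ) : phi 5 x =
    |4 * Real.cos (2 * Real.pi * x) ^ 2 + 2 * Real.cos (2 * Real.pi * x) - 1| / 5 := by
  obtain ⟨h, h0, h1, h2, -, h4⟩ := half_facts x
  have h5 : dir 5 x = h ^ 4 * ((4 * Real.cos (2 * Real.pi * x) ^ 2 +
      2 * Real.cos (2 * Real.pi * x) - 1 : ℝ) : ℂ) := by
    unfold dir
    simp only [Finset.sum_range_succ, Finset.sum_range_zero, h2]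
    rw [Complex.ofReal_sub, Complex.ofReal_add, Complex.ofReal_mul, Complex.ofReal_mul,
      Complex.ofReal_pow, h4]
    push_cast
    field_simp
    ring
  unfold phi
  rw [h5, norm_mul, norm_pow, h1, one_pow, one_mul, Complex.norm_real, Real.norm_eq_abs]
  norm_num

lemma phi_six (x : ℝ) : phi 6 x =
    |32 * Real.cos (Real.pi * x) ^ 5 - 32 * Real.cos (Real.pi * x) ^ 3 +
      6 * Real.cos (Real.pi * x)| / 6 := by
  obtain ⟨h, h0, h1, h2, h3, -⟩ := half_facts x
  have h5 : dir 6 x = h ^ 5 *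
      ((32 * Real.cos (Real.pi * x) ^ 5 - 32 * Real.cos (Real.pi * x) ^ 3 +
        6 * Real.cos (Real.pi * x) : ℝ) : ℂ) := by
    unfold dir
    simp only [Finset.sum_range_succ, Finset.sum_range_zero, h2]
    rw [Complex.ofReal_add, Complex.ofReal_sub, Complex.ofReal_mul, Complex.ofReal_mul,
      Complex.ofReal_mul, Complex.ofReal_pow, Complex.ofReal_pow, h3]
    push_cast
    field_simp
    ring
  unfold phi
  rw [h5, norm_mul, norm_pow, h1, one_pow, one_mul, Complex.norm_real, Real.norm_eq_abs]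
  norm_num

lemma cos_two_pi (x : ℝ) : Real.cos (2 * Real.pi * x) = 2 * Real.cos (Real.pi * x) ^ 2 - 1 := by
  rw [← Real.cos_two_mul]
  congr 1
  ring

end Pool.Agent.PalM
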