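import Pool.Agent.PalM.Maj

/-!
# Sums of the majorants over the fractions
-/

namespace Pool.Agent.PalM

open Finset Pool.Agent.Pal

/-- Signed digits below the base represent zero only trivially. -/
lemma digits_zero {B : ℤ} (hB : 1 ≤ B) : ∀ (n : ℕ) (u : Fin n → ℤ), (∀ j, |u j| < B) →
    ∑ j, u j * B ^ (j : ℕ) = 0 → ∀ j, u j = 0 := by
  intro n
  induction n with
  | zero => intro u _ _ j; exact j.elim0
  | succ n ih =>
    intro u hu h0
    rw [Fin.sum_univ_succ] at h0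
    simp only [Fin.val_zero, pow_zero, mul_one, Fin.val_succ] at h0
    have h1 : ∑ j : Fin n, u j.succ * B ^ ((j : ℕ) + 1) = B * ∑ j : Fin n, u j.succ * B ^ (j : ℕ) := by
      rw [Finset.mul_sum]
      exact Finset.sum_congr rfl fun j _ => by ring
    rw [h1] at h0
    have h2 : B ∣ u 0 := ⟨-∑ j : Fin n, u j.succ * B ^ (j : ℕ), by linarith⟩
    have h3 : u 0 = 0 := Int.eq_zero_of_abs_lt_dvd h2 (hu 0)
    rw [h3, zero_add] at h0
    have h4 : ∑ j : Fin n, u j.succ * B ^ (j : ℕ) = 0 := by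
      rcases mul_eq_zero.mp h0 with h | h
      · omega
      · exact h
    have h5 := ih (fun j => u j.succ) (fun j => hu _) h4
    intro j
    refine Fin.cases h3 (fun j => h5 j) j

/-- Size of a number with signed digits. -/
lemma digits_lt {B : ℤ} (hB : 1 ≤ B) : ∀ (n : ℕ) (u : Fin n → ℤ), (∀ j, |u j| < B) →
    |∑ j, u j * B ^ (j : ℕ)| < B ^ n := by
  intro n
  induction n with
  | zero => intro u _; simp
  | succ n ih =>
    intro u hu
    rw [Fin.sum_univ_succ]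
    simp only [Fin.val_zero, pow_zero, mul_one, Fin.val_succ]
    have h1 : ∑ j : Fin n, u j.succ * B ^ ((j : ℕ) + 1) = B * ∑ j : Fin n, u j.succ * B ^ (j : ℕ) := by
      rw [Finset.mul_sum]
      exact Finset.sum_congr rfl fun j _ => by ring
    rw [h1]
    have h2 := ih (fun j => u j.succ) (fun j => hu _)
    set S : ℤ := ∑ j : Fin n, u j.succ * B ^ (j : ℕ) with hS
    have h3 : |u 0 + B * S| ≤ |u 0| + B * |S| := by
      refine (abs_add_le _ _).trans ?_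
      rw [abs_mul, abs_of_pos (by omega : 0 < B)]
    have h4 := hu 0
    have h5 : B * |S| ≤ B * (B ^ n - 1) := mul_le_mul_of_nonneg_left (by omega) (by omega)
    have h6 : B * (B ^ n - 1) = B ^ (n + 1) - B := by ring
    rw [h6] at h5
    omega

/-- The decomposition of the frequencies into a low and a high part. -/
lemma freq_split {b L ℓ n : ℕ} (hn : 2 * (n * L) ≤ ℓ + 1) (u v : Fin n → ℤ) :
    ∑ j : Fin n, (u j * (b : ℤ) ^ ((j : ℕ) * L) + v j * (b : ℤ) ^ (ℓ + 1 - ((j : ℕ) + 1) * L)) =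
      ∑ j : Fin n, u j * ((b : ℤ) ^ L) ^ (j : ℕ) +
      (b : ℤ) ^ (ℓ + 1 - n * L) * ∑ j : Fin n, v j.rev * ((b : ℤ) ^ L) ^ (j : ℕ) := by
  rw [Finset.sum_add_distrib]
  congr 1
  · refine Finset.sum_congr rfl fun j _ => ?_
    rw [← pow_mul, mul_comm L]
  · rw [Finset.mul_sum]
    rw [← Equiv.sum_comp Fin.revPerm]
    refine Finset.sum_congr rfl fun j _ => ?_
    rw [Fin.revPerm_apply]
    have hj := j.2
    have h1 : ((j.rev : Fin n) : ℕ) + 1 = n - j := by rw [Fin.val_rev]; omega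
    have h2 : ℓ + 1 - (((j.rev : Fin n) : ℕ) + 1) * L = (ℓ + 1 - n * L) + L * j := by
      rw [h1]
      have h3 : (n - (j : ℕ)) * L + L * j = n * L := by
        rw [mul_comm L, ← add_mul]
        congr 1
        omega
      omega
    rw [h2, pow_add, pow_mul]
    ring

/-- Uniqueness of the zero frequency. -/
lemma freq_uniq {b L ℓ n : ℕ} (hb : 2 ≤ b) (hn : 2 * (n * L) ≤ ℓ + 1) (u v : Fin n → ℤ)
    (hu : ∀ j, |u j| < (b : ℤ) ^ L) (hv : ∀ j, |v j| < (b : ℤ) ^ L)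
    (h0 : ∑ j : Fin n, (u j * (b : ℤ) ^ ((j : ℕ) * L) +
      v j * (b : ℤ) ^ (ℓ + 1 - ((j : ℕ) + 1) * L)) = 0) : ∀ j, u j = 0 ∧ v j = 0 := by
  have hbz : (0 : ℤ) < b := by omega
  have hB : (1 : ℤ) ≤ (b : ℤ) ^ L := by
    have : (0 : ℤ) < (b : ℤ) ^ L := by positivity
    omega
  rw [freq_split hn] at h0
  have h1 := digits_lt hB n u hu
  have h2 : ((b : ℤ) ^ L) ^ n ≤ (b : ℤ) ^ (ℓ + 1 - n * L) := by
    rw [← pow_mul]
    refine pow_le_pow_right₀ (by omega) ?_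
    rw [mul_comm L]
    omega
  set A : ℤ := ∑ j : Fin n, u j * ((b : ℤ) ^ L) ^ (j : ℕ) with hA
  set A' : ℤ := ∑ j : Fin n, v j.rev * ((b : ℤ) ^ L) ^ (j : ℕ) with hA'
  have h3 : (b : ℤ) ^ (ℓ + 1 - n * L) ∣ A := ⟨-A', by linarith⟩
  have h4 : A = 0 := Int.eq_zero_of_abs_lt_dvd h3 (h1.trans_le h2)
  rw [h4, zero_add] at h0
  have h5 : A' = 0 := by
    rcases mul_eq_zero.mp h0 with h | h
    · exfalso
      have : (0 : ℤ) < (b : ℤ) ^ (ℓ + 1 - n * L) := by positivity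
      omega
    · exact h
  have h6 := digits_zero hB n u hu h4
  have h7 := digits_zero hB n (fun j => v j.rev) (fun j => hv _) h5
  intro j
  refine ⟨h6 j, ?_⟩
  have := h7 j.rev
  simpa using this

/-- Size of the frequencies. -/
lemma freq_le {b L ℓ n : ℕ} (hb : 2 ≤ b) (hn : 2 * (n * L) ≤ ℓ + 1) (u v : Fin n → ℤ)
    (hu : ∀ j, |u j| < (b : ℤ) ^ L) (hv : ∀ j, |v j| < (b : ℤ) ^ L) :
    |∑ j : Fin n, (u j * (b : ℤ) ^ ((j : ℕ) * L) +
      v j * (b : ℤ) ^ (ℓ + 1 - ((j : ℕ) + 1) * L))| ≤ (b : ℤ) ^ (ℓ + 1) := by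
  have hbz : (0 : ℤ) < b := by omega
  have hB : (1 : ℤ) ≤ (b : ℤ) ^ L := by
    have : (0 : ℤ) < (b : ℤ) ^ L := by positivity
    omega
  rw [freq_split hn]
  have h1 := digits_lt hB n u hu
  have h1' := digits_lt hB n (fun j => v j.rev) (fun j => hv _)
  have h2 : ((b : ℤ) ^ L) ^ n ≤ (b : ℤ) ^ (ℓ + 1 - n * L) := by
    rw [← pow_mul]
    refine pow_le_pow_right₀ (by omega) ?_
    rw [mul_comm L]
    omega
  have h3 : (b : ℤ) ^ (ℓ + 1 - n * L) * ((b : ℤ) ^ L) ^ n = (b : ℤ) ^ (ℓ + 1) := by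
    rw [← pow_mul, ← pow_add]
    congr 1
    rw [mul_comm L]
    omega
  set A : ℤ := ∑ j : Fin n, u j * ((b : ℤ) ^ L) ^ (j : ℕ) with hA
  set A' : ℤ := ∑ j : Fin n, v j.rev * ((b : ℤ) ^ L) ^ (j : ℕ) with hA'
  have hpos : (0 : ℤ) < (b : ℤ) ^ (ℓ + 1 - n * L) := by positivity
  have h4 : |A + (b : ℤ) ^ (ℓ + 1 - n * L) * A'| ≤ |A| + (b : ℤ) ^ (ℓ + 1 - n * L) * |A'| := by
    refine (abs_add_le _ _).trans ?_
    rw [abs_mul, abs_of_pos hpos]
  have h5 : (b : ℤ) ^ (ℓ + 1 - n * L) * |A'| ≤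
      (b : ℤ) ^ (ℓ + 1 - n * L) * (((b : ℤ) ^ L) ^ n - 1) :=
    mul_le_mul_of_nonneg_left (by omega) hpos.le
  have h6 : (b : ℤ) ^ (ℓ + 1 - n * L) * (((b : ℤ) ^ L) ^ n - 1) =
      (b : ℤ) ^ (ℓ + 1) - (b : ℤ) ^ (ℓ + 1 - n * L) := by rw [mul_sub, h3, mul_one]
  rw [h6] at h5
  omega

/-- Number of divisors in a dyadic interval. -/
lemma card_dvd_le {η C : ℝ} (hη : 0 < η) (hC : 1 ≤ C)
    (hdiv : ∀ n : ℕ, 1 ≤ n → (n.divisors.card : ℝ) ≤ C * (n : ℝ) ^ η) {N : ℤ} (hN : N ≠ 0)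
    {X : ℕ} (hX : |N| ≤ X) (S : Finset ℕ) :
    ((S.filter (fun d : ℕ => (d : ℤ) ∣ N)).card : ℝ) ≤ C * (X : ℝ) ^ η := by
  have hn1 : 1 ≤ N.natAbs := by
    have := Int.natAbs_ne_zero.mpr hN
    omega
  have h1 : S.filter (fun d : ℕ => (d : ℤ) ∣ N) ⊆ N.natAbs.divisors := by
    intro d hd
    rw [mem_filter] at hd
    rw [Nat.mem_divisors]
    exact ⟨Int.natCast_dvd.mp hd.2, by omega⟩
  have h2 : ((S.filter (fun d : ℕ => (d : ℤ) ∣ N)).card : ℝ) ≤ (N.natAbs.divisors.card : ℝ) := by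
    exact_mod_cast card_le_card h1
  refine h2.trans ((hdiv _ hn1).trans ?_)
  refine mul_le_mul_of_nonneg_left ?_ (by linarith)
  refine Real.rpow_le_rpow (by positivity) ?_ hη.le
  have : N.natAbs ≤ X := by
    have := Int.natCast_natAbs N
    omega
  exact_mod_cast this

/-- The majorant of the outer product. -/
lemma maj_core {b L : ℕ} (hb : 2 ≤ b) {γ z : ℝ} (h : HasMaj b L γ z) {κ : Type}
    {ℓ n : ℕ} (hn : 2 * (n * L) ≤ ℓ + 1) :
    ∃ F : ℝ → ℝ, (∀ α, 0 ≤ F α) ∧ (∀ α, (blk b ℓ 0 (n * L) α) ^ γ ≤ F α) ∧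
      ∀ (Q : Finset κ) (q : κ → ℕ), (∀ k ∈ Q, 0 < q k) → ∀ V U : ℝ, 0 ≤ U →
        ∑ k ∈ Q, (q k : ℝ) ≤ V →
        (∀ N : ℤ, N ≠ 0 → |N| ≤ (b : ℤ) ^ (ℓ + 1) →
          ∑ k ∈ Q, (if (q k : ℤ) ∣ N then (q k : ℝ) else 0) ≤ U) →
        ∑ k ∈ Q, ∑ a ∈ range (q k), F ((a : ℝ) / q k) ≤ V * z ^ n + U := by
  obtain ⟨ι, hι, c, h1, h2, G, hc, hh1, hh2, hG, hs, hz, hmaj⟩ := h
  set g : Fin n → ℝ → ℝ := fun j α =>
    G ((b : ℝ) ^ ((j : ℕ) * L) * α) ((b : ℝ) ^ (ℓ + 1 - ((j : ℕ) + 1) * L) * α) with hg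
  have hG0 : ∀ w v, 0 ≤ G w v := fun w v =>
    (Real.rpow_nonneg (Phi_nonneg b L w v) γ).trans (hmaj w v)
  refine ⟨fun α => ∏ j, g j α, fun α => Finset.prod_nonneg fun j _ => hG0 _ _, ?_, ?_⟩
  · intro α
    rw [blk_eq_prod b ℓ L α n hn, ← Real.finsetProd_rpow _ _ fun j _ => Phi_nonneg _ _ _ _]
    rw [← Fin.prod_univ_eq_prod_range (fun j => Phi b L ((b : ℝ) ^ (j * L) * α)
      ((b : ℝ) ^ (ℓ + 1 - (j + 1) * L) * α) ^ γ) n]
    exact Finset.prod_le_prod (fun j _ => Real.rpow_nonneg (Phi_nonneg _ _ _ _) _)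
      fun j _ => hmaj _ _
  · intro Q q hq V U hU0 hV hU
    refine sum_prod_le n c hc hs (fun i => h1 i = 0 ∧ h2 i = 0) hz
      (fun j i => h1 i * (b : ℤ) ^ ((j : ℕ) * L) + h2 i * (b : ℤ) ^ (ℓ + 1 - ((j : ℕ) + 1) * L)) g
      ?_ Q q hq hU0 ?_ hV ?_
    · intro j α
      simp only [hg]
      rw [hG]
      refine Finset.sum_congr rfl fun i _ => ?_
      congr 2
      push_cast
      ring
    · intro p h0
      exact freq_uniq hb hn (fun j => h1 (p j)) (fun j => h2 (p j)) (fun j => hh1 _)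
        (fun j => hh2 _) h0
    · intro p h0
      exact hU _ h0 (freq_le hb hn (fun j => h1 (p j)) (fun j => h2 (p j)) (fun j => hh1 _)
        (fun j => hh2 _))

open Classical in
/-- The majorant summed over the fractions of `J`. -/
theorem maj_J {b L : ℕ} (hb : 2 ≤ b) {γ z : ℝ} (h : HasMaj b L γ z) {η C : ℝ} (hη : 0 < η)
    (hC : 1 ≤ C) (hdiv : ∀ n : ℕ, 1 ≤ n → (n.divisors.card : ℝ) ≤ C * (n : ℝ) ^ η)
    {ℓ n D : ℕ} (hn : 2 * (n * L) ≤ ℓ + 1) (hD : 1 ≤ D) :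
    ∃ F : ℝ → ℝ, (∀ α, 0 ≤ F α) ∧ (∀ α, (blk b ℓ 0 (n * L) α) ^ γ ≤ F α) ∧
      ∑ x ∈ J b D, F (pt b x) ≤ 2 * BB b * ((D : ℝ) ^ 2 * z ^ n +
        D * (C * ((b : ℝ) ^ (ℓ + 1)) ^ η)) := by
  obtain ⟨F, hF0, hF1, hF2⟩ := maj_core hb h (κ := ℕ) hn
  refine ⟨F, hF0, hF1, ?_⟩
  have hBp := BB_pos hb
  have hB3 := sq_sub_one_pos hb
  set B : ℕ := b ^ 2 - 1 with hB
  have hBB : BB b = (B : ℝ) := rfl
  have h1 : ∑ x ∈ J b D, F (pt b x) ≤
      ∑ d ∈ Ico D (2 * D), ∑ a ∈ range (B * d), F ((a : ℝ) / ((B * d : ℕ) : ℝ)) := by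
    rw [Finset.sum_sigma']
    have h2 : ∑ x ∈ J b D, F (pt b x) =
        ∑ y ∈ (J b D).image (fun x => (⟨x.1, x.2⟩ : Σ _ : ℕ, ℕ)),
          F ((y.2 : ℝ) / ((B * y.1 : ℕ) : ℝ)) := by
      rw [sum_image]
      · rfl
      · intro x _ y _ hxy
        simp only [Sigma.mk.injEq, heq_eq_eq] at hxy
        exact Prod.ext hxy.1 hxy.2
    rw [h2]
    refine sum_le_sum_of_subset_of_nonneg ?_ fun y _ _ => hF0 _
    intro y hy
    obtain ⟨x, hx, rfl⟩ := mem_image.mp hy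
    rw [mem_J] at hx
    rw [mem_sigma, mem_Ico, mem_range]
    exact ⟨⟨hx.1, hx.2.1⟩, hx.2.2.2.1⟩
  refine h1.trans ?_
  have hX : 0 ≤ C * ((b : ℝ) ^ (ℓ + 1)) ^ η := by positivity
  have hDD : 2 * D - D = D := by omega
  have h3 := hF2 (Ico D (2 * D)) (fun d => B * d) (by
      intro d hd
      rw [mem_Ico] at hd
      exact Nat.mul_pos (by omega) (by omega)) (2 * BB b * (D : ℝ) ^ 2)
      (2 * BB b * (D * (C * ((b : ℝ) ^ (ℓ + 1)) ^ η))) (by positivity)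
    (by
      have e1 : ∀ d ∈ Ico D (2 * D), (((B * d : ℕ)) : ℝ) ≤ 2 * BB b * D := by
        intro d hd
        rw [mem_Ico] at hd
        have : (d : ℝ) ≤ 2 * D := by exact_mod_cast hd.2.le
        rw [hBB]
        push_cast
        nlinarith
      refine (Finset.sum_le_sum e1).trans ?_
      rw [sum_const, Nat.card_Ico, hDD, nsmul_eq_mul]
      exact le_of_eq (by ring))
    (by
      intro N hN0 hN
      have e1 : ∀ d ∈ Ico D (2 * D), (if ((B * d : ℕ) : ℤ) ∣ N then ((B * d : ℕ) : ℝ) else 0) ≤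
          2 * BB b * D * (if (d : ℤ) ∣ N then (1 : ℝ) else 0) := by
        intro d hd
        rw [mem_Ico] at hd
        have hd2 : (d : ℝ) ≤ 2 * D := by exact_mod_cast hd.2.le
        by_cases hdvd : ((B * d : ℕ) : ℤ) ∣ N
        · have : (d : ℤ) ∣ N := (Int.natCast_dvd_natCast.mpr (Dvd.intro_left _ rfl)).trans hdvd
          rw [if_pos hdvd, if_pos this, hBB]
          push_cast
          nlinarith
        · rw [if_neg hdvd]
          split_ifs <;> positivity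
      refine (Finset.sum_le_sum e1).trans ?_
      rw [← Finset.mul_sum, ← Finset.sum_filter, sum_const, nsmul_eq_mul, mul_one]
      have e2 := card_dvd_le hη hC hdiv hN0 (X := b ^ (ℓ + 1)) (by push_cast; exact hN)
        (Ico D (2 * D))
      push_cast at e2
      calc 2 * BB b * D * (((Ico D (2 * D)).filter (fun d : ℕ => (d : ℤ) ∣ N)).card : ℝ)
          ≤ 2 * BB b * D * (C * ((b : ℝ) ^ (ℓ + 1)) ^ η) :=
            mul_le_mul_of_nonneg_left e2 (by positivity)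
        _ = _ := by ring)
  refine h3.trans (le_of_eq ?_)
  ring

open Classical in
/-- The majorant summed over the fractions of `JS`. -/
theorem maj_JS {b L : ℕ} (hb : 2 ≤ b) {γ z : ℝ} (h : HasMaj b L γ z) {η C : ℝ} (hη : 0 < η)
    (hC : 1 ≤ C) (hdiv : ∀ n : ℕ, 1 ≤ n → (n.divisors.card : ℝ) ≤ C * (n : ℝ) ^ η)
    {ℓ n P : ℕ} (hn : 2 * (n * L) ≤ ℓ + 1) (hP : 1 ≤ P) :
    ∃ F : ℝ → ℝ, (∀ α, 0 ≤ F α) ∧ (∀ α, (blk b ℓ 0 (n * L) α) ^ γ ≤ F α) ∧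
      ∑ x ∈ JS b P, F (pt b x) ≤ 4 * BB b * ((P : ℝ) ^ 3 * z ^ n +
        (P : ℝ) ^ 2 * (C * ((b : ℝ) ^ (ℓ + 1)) ^ η)) := by
  obtain ⟨F, hF0, hF1, hF2⟩ := maj_core hb h (κ := ℕ) hn
  refine ⟨F, hF0, hF1, ?_⟩
  have hBp := BB_pos hb
  have hB3 := sq_sub_one_pos hb
  set B : ℕ := b ^ 2 - 1 with hB
  have hBB : BB b = (B : ℝ) := rfl
  have h1 : ∑ x ∈ JS b P, F (pt b x) ≤
      ∑ p ∈ Ico P (2 * P), ∑ c ∈ range (B * p ^ 2), F ((c : ℝ) / ((B * p ^ 2 : ℕ) : ℝ)) := by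
    rw [Finset.sum_sigma']
    have hsub : JS b P ⊆ ((Ico P (2 * P)).sigma (fun p => range (B * p ^ 2))).image
        (fun y : (Σ _ : ℕ, ℕ) => (y.1 ^ 2, y.2)) := by
      intro x hx
      obtain ⟨p, q1, q2, q3, q4, q5, q6⟩ := mem_JS.mp hx
      rw [mem_image]
      refine ⟨⟨p, x.2⟩, ?_, ?_⟩
      · rw [mem_sigma, mem_Ico, mem_range]
        exact ⟨⟨q1, q2⟩, q5⟩
      · simp only
        rw [← q4]
    refine (sum_le_sum_of_subset_of_nonneg hsub fun _ _ _ => hF0 _).trans (le_of_eq ?_)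
    rw [sum_image]
    · rfl
    · intro x _ y _ hxy
      simp only [Prod.mk.injEq] at hxy
      have h1 : x.1 = y.1 := by
        exact Nat.pow_left_injective (by norm_num : (2:ℕ) ≠ 0) hxy.1
      obtain ⟨x1, x2⟩ := x
      obtain ⟨y1, y2⟩ := y
      simp only at h1 hxy
      rw [h1, hxy.2]
  refine h1.trans ?_
  have hX : 0 ≤ C * ((b : ℝ) ^ (ℓ + 1)) ^ η := by positivity
  have hDD : 2 * P - P = P := by omega
  have hsq : ∀ p ∈ Ico P (2 * P), ((p : ℝ)) ^ 2 ≤ 4 * (P : ℝ) ^ 2 := by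
    intro p hp
    rw [mem_Ico] at hp
    have h81 : (p : ℝ) ≤ 2 * P := by exact_mod_cast hp.2.le
    have h82 : (p : ℝ) ^ 2 ≤ (2 * P) ^ 2 := pow_le_pow_left₀ (Nat.cast_nonneg _) h81 2
    linarith
  have h3 := hF2 (Ico P (2 * P)) (fun p => B * p ^ 2) (by
      intro p hp
      rw [mem_Ico] at hp
      exact Nat.mul_pos (by omega) (pow_pos (by omega) 2)) (4 * BB b * (P : ℝ) ^ 3)
      (4 * BB b * ((P : ℝ) ^ 2 * (C * ((b : ℝ) ^ (ℓ + 1)) ^ η))) (by positivity)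
    (by
      have e1 : ∀ p ∈ Ico P (2 * P), (((B * p ^ 2 : ℕ)) : ℝ) ≤ 4 * BB b * (P : ℝ) ^ 2 := by
        intro p hp
        have := hsq p hp
        rw [hBB]
        push_cast
        have hB0 : (0 : ℝ) ≤ B := Nat.cast_nonneg _
        nlinarith
      refine (Finset.sum_le_sum e1).trans ?_
      rw [sum_const, Nat.card_Ico, hDD, nsmul_eq_mul]
      exact le_of_eq (by ring))
    (by
      intro N hN0 hN
      have e1 : ∀ p ∈ Ico P (2 * P),
          (if ((B * p ^ 2 : ℕ) : ℤ) ∣ N then ((B * p ^ 2 : ℕ) : ℝ) else 0) ≤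
          4 * BB b * (P : ℝ) ^ 2 * (if (p : ℤ) ∣ N then (1 : ℝ) else 0) := by
        intro p hp
        have hp2 := hsq p hp
        by_cases hdvd : ((B * p ^ 2 : ℕ) : ℤ) ∣ N
        · have : (p : ℤ) ∣ N :=
            (Int.natCast_dvd_natCast.mpr (Dvd.dvd.mul_left (dvd_pow_self p two_ne_zero) B)).trans hdvd
          rw [if_pos hdvd, if_pos this, hBB]
          push_cast
          have hB0 : (0 : ℝ) ≤ B := Nat.cast_nonneg _
          nlinarith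
        · rw [if_neg hdvd]
          split_ifs <;> positivity
      refine (Finset.sum_le_sum e1).trans ?_
      rw [← Finset.mul_sum, ← Finset.sum_filter, sum_const, nsmul_eq_mul, mul_one]
      have e2 := card_dvd_le hη hC hdiv hN0 (X := b ^ (ℓ + 1)) (by push_cast; exact hN)
        (Ico P (2 * P))
      push_cast at e2
      calc 4 * BB b * (P : ℝ) ^ 2 * (((Ico P (2 * P)).filter (fun d : ℕ => (d : ℤ) ∣ N)).card : ℝ)
          ≤ 4 * BB b * (P : ℝ) ^ 2 * (C * ((b : ℝ) ^ (ℓ + 1)) ^ η) :=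
            mul_le_mul_of_nonneg_left e2 (by positivity)
        _ = _ := by ring)
  refine h3.trans (le_of_eq ?_)
  ring

end Pool.Agent.PalM
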