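import Mathlib

/-!
# Taylor bounds for the sine and the cosine
-/

namespace Pool.Agent.PalM

lemma nonneg_of_deriv {f f' : ℝ → ℝ} (h0 : f 0 = 0) (hd : ∀ x, HasDerivAt f (f' x) x)
    (hf' : ∀ x, 0 ≤ x → 0 ≤ f' x) {x : ℝ} (hx : 0 ≤ x) : 0 ≤ f x := by
  have hm : MonotoneOn f (Set.Ici 0) := by
    refine monotoneOn_of_deriv_nonneg (convex_Ici 0) (fun y _ => (hd y).continuousAt.continuousWithinAt)
      (fun y _ => (hd y).differentiableAt.differentiableWithinAt) ?_
    intro y hy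
    rw [interior_Ici] at hy
    rw [(hd y).deriv]
    exact hf' y (le_of_lt hy)
  have := hm (Set.mem_Ici.mpr le_rfl) (Set.mem_Ici.mpr hx) hx
  rwa [h0] at this

lemma sin_ge3 {x : ℝ} (hx : 0 ≤ x) : x - x ^ 3 / 6 ≤ Real.sin x := by
  have h := nonneg_of_deriv (f := fun x => Real.sin x - (x - x ^ 3 / 6))
    (f' := fun x => Real.cos x - (1 - 3 * x ^ 2 / 6)) (by simp)
    (by
      intro y
      have h1 := ((hasDerivAt_id y).sub (((hasDerivAt_id y).pow 3).div_const 6))
      have h2 := (Real.hasDerivAt_sin y).sub h1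
      refine h2.congr_deriv ?_
      simp)
    (by
      intro y _
      have := Real.one_sub_sq_div_two_le_cos (x := y)
      linarith) hx
  linarith

lemma cos_le4 {x : ℝ} (hx : 0 ≤ x) : Real.cos x ≤ 1 - x ^ 2 / 2 + x ^ 4 / 24 := by
  have h := nonneg_of_deriv (f := fun x => (1 - x ^ 2 / 2 + x ^ 4 / 24) - Real.cos x)
    (f' := fun x => (-(2 * x) / 2 + 4 * x ^ 3 / 24) + Real.sin x) (by simp)
    (by
      intro y
      have h1 := ((hasDerivAt_const y (1 : ℝ)).sub (((hasDerivAt_id y).pow 2).div_const 2)).add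
        (((hasDerivAt_id y).pow 4).div_const 24)
      have h2 := h1.sub (Real.hasDerivAt_cos y)
      refine h2.congr_deriv ?_
      simp
      ring)
    (by
      intro y hy
      have := sin_ge3 hy
      linarith) hx
  linarith

lemma sin_le5 {x : ℝ} (hx : 0 ≤ x) : Real.sin x ≤ x - x ^ 3 / 6 + x ^ 5 / 120 := by
  have h := nonneg_of_deriv (f := fun x => (x - x ^ 3 / 6 + x ^ 5 / 120) - Real.sin x)
    (f' := fun x => (1 - 3 * x ^ 2 / 6 + 5 * x ^ 4 / 120) - Real.cos x) (by simp)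
    (by
      intro y
      have h1 := ((hasDerivAt_id y).sub (((hasDerivAt_id y).pow 3).div_const 6)).add
        (((hasDerivAt_id y).pow 5).div_const 120)
      have h2 := h1.sub (Real.hasDerivAt_sin y)
      refine h2.congr_deriv ?_
      simp)
    (by
      intro y hy
      have := cos_le4 hy
      linarith) hx
  linarith

lemma cos_ge6 {x : ℝ} (hx : 0 ≤ x) :
    1 - x ^ 2 / 2 + x ^ 4 / 24 - x ^ 6 / 720 ≤ Real.cos x := by
  have h := nonneg_of_deriv (f := fun x => Real.cos x - (1 - x ^ 2 / 2 + x ^ 4 / 24 - x ^ 6 / 720))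
    (f' := fun x => -Real.sin x - (-(2 * x) / 2 + 4 * x ^ 3 / 24 - 6 * x ^ 5 / 720)) (by simp)
    (by
      intro y
      have h1 := (((hasDerivAt_const y (1 : ℝ)).sub (((hasDerivAt_id y).pow 2).div_const 2)).add
        (((hasDerivAt_id y).pow 4).div_const 24)).sub (((hasDerivAt_id y).pow 6).div_const 720)
      have h2 := (Real.hasDerivAt_cos y).sub h1
      refine h2.congr_deriv ?_
      simp
      ring)
    (by
      intro y hy
      have := sin_le5 hy
      linarith) hx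
  linarith

lemma sin_ge7 {x : ℝ} (hx : 0 ≤ x) :
    x - x ^ 3 / 6 + x ^ 5 / 120 - x ^ 7 / 5040 ≤ Real.sin x := by
  have h := nonneg_of_deriv (f := fun x => Real.sin x - (x - x ^ 3 / 6 + x ^ 5 / 120 - x ^ 7 / 5040))
    (f' := fun x => Real.cos x - (1 - 3 * x ^ 2 / 6 + 5 * x ^ 4 / 120 - 7 * x ^ 6 / 5040)) (by simp)
    (by
      intro y
      have h1 := (((hasDerivAt_id y).sub (((hasDerivAt_id y).pow 3).div_const 6)).add
        (((hasDerivAt_id y).pow 5).div_const 120)).sub (((hasDerivAt_id y).pow 7).div_const 5040)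
      have h2 := (Real.hasDerivAt_sin y).sub h1
      refine h2.congr_deriv ?_
      simp)
    (by
      intro y hy
      have := cos_ge6 hy
      linarith) hx
  linarith

lemma cos_le8 {x : ℝ} (hx : 0 ≤ x) :
    Real.cos x ≤ 1 - x ^ 2 / 2 + x ^ 4 / 24 - x ^ 6 / 720 + x ^ 8 / 40320 := by
  have h := nonneg_of_deriv
    (f := fun x => (1 - x ^ 2 / 2 + x ^ 4 / 24 - x ^ 6 / 720 + x ^ 8 / 40320) - Real.cos x)
    (f' := fun x => (-(2 * x) / 2 + 4 * x ^ 3 / 24 - 6 * x ^ 5 / 720 + 8 * x ^ 7 / 40320) +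
      Real.sin x) (by simp)
    (by
      intro y
      have h1 := ((((hasDerivAt_const y (1 : ℝ)).sub (((hasDerivAt_id y).pow 2).div_const 2)).add
        (((hasDerivAt_id y).pow 4).div_const 24)).sub (((hasDerivAt_id y).pow 6).div_const 720)).add
        (((hasDerivAt_id y).pow 8).div_const 40320)
      have h2 := h1.sub (Real.hasDerivAt_cos y)
      refine h2.congr_deriv ?_
      simp
      ring)
    (by
      intro y hy
      have := sin_ge7 hy
      linarith) hx
  linarith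

/-- Lower bound for the square of the sine. -/
lemma sin_sq_ge {u : ℝ} (hu : 0 ≤ u) :
    u ^ 2 - u ^ 4 / 3 + 2 * u ^ 6 / 45 - u ^ 8 / 315 ≤ Real.sin u ^ 2 := by
  have h1 := cos_le8 (x := 2 * u) (by positivity)
  have h2 : Real.sin u ^ 2 = (1 - Real.cos (2 * u)) / 2 := by
    rw [Real.cos_two_mul, Real.sin_sq]; ring
  rw [h2]
  have h3 : (1 : ℝ) - (2 * u) ^ 2 / 2 + (2 * u) ^ 4 / 24 - (2 * u) ^ 6 / 720 + (2 * u) ^ 8 / 40320 =
      1 - 2 * u ^ 2 + 2 * u ^ 4 / 3 - 4 * u ^ 6 / 45 + 2 * u ^ 8 / 315 := by ring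
  rw [h3] at h1
  linarith

end Pool.Agent.PalM
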