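import Pool.Agent.PalM.LevelAll
import Pool.Agent.PalL.UpperC

/-!
# The upper bound for the number of palindromic primes, all bases
-/

namespace Pool.Agent.PalM

open Finset Pool.Agent.Pal Pool.Agent.PalL

lemma harm_sq {b : ℕ} (hb : 7 ≤ b) :
    ((3 + 17 * ∑ m ∈ range b, 1 / ((m : ℝ) + 1)) / 20) ^ 2 ≤ b := by
  induction b, hb using Nat.le_induction with
  | base => norm_num [Finset.sum_range_succ]
  | succ n hn ih =>
    have hn0 : (7 : ℝ) ≤ n := by exact_mod_cast hn
    rw [Finset.sum_range_succ]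
    set S := (3 + 17 * ∑ m ∈ range n, 1 / ((m : ℝ) + 1)) / 20 with hS
    have hS0 : 0 ≤ S := by
      have : 0 ≤ ∑ m ∈ range n, 1 / ((m : ℝ) + 1) := Finset.sum_nonneg fun m _ => by positivity
      rw [hS]
      positivity
    set t : ℝ := 1 / ((n : ℝ) + 1) with ht
    have ht0 : 0 < t := by positivity
    have ht1 : t ≤ 1 / 8 := one_div_le_one_div_of_le (by norm_num) (by linarith)
    have htn : t * ((n : ℝ) + 1) = 1 := by
      rw [ht]
      field_simp
    have e : (3 + 17 * (∑ m ∈ range n, 1 / ((m : ℝ) + 1) + t)) / 20 = S + 17 / 20 * t := by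
      rw [hS]
      ring
    rw [e]
    push_cast
    have h1 : S ≤ ((n : ℝ) + 1) / 2 := by
      refine abs_le_of_sq_le_sq' ?_ (by linarith) |>.2
      nlinarith [sq_nonneg ((n : ℝ) - 1)]
    have h2 : t * S ≤ 1 / 2 := by
      calc t * S ≤ t * (((n : ℝ) + 1) / 2) := mul_le_mul_of_nonneg_left h1 ht0.le
        _ = 1 / 2 := by rw [← mul_div_assoc, htn]
    nlinarith

lemma lev_ge {b : ℕ} (hb : 2 ≤ b) : 1 / 4 ≤ lev b := by
  have hlb := log_pos_b hb
  unfold lev
  split_ifs with h7 h6 h5 h4 h3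
  · have h1 := harm_sq h7
    have hS1 : 0 < (3 + 17 * ∑ m ∈ range b, 1 / ((m : ℝ) + 1)) / 20 := by
      have : 0 ≤ ∑ m ∈ range b, 1 / ((m : ℝ) + 1) := Finset.sum_nonneg fun m _ => by positivity
      positivity
    have h2 := Real.log_le_log (by positivity) h1
    rw [Real.log_pow] at h2
    push_cast at h2
    have h3 : Real.log ((3 + 17 * ∑ m ∈ range b, 1 / ((m : ℝ) + 1)) / 20) / (2 * Real.log b) ≤
        1 / 4 := by
      rw [div_le_iff₀ (by positivity)]
      linarith
    linarith
  · subst h6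
    have h1 : Real.log 6 ≤ Real.log ((5000 / 1819) ^ 2) :=
      Real.log_le_log (by norm_num) (by norm_num)
    rw [Real.log_pow] at h1
    push_cast at h1 hlb ⊢
    rw [le_div_iff₀ (by positivity)]
    linarith
  · subst h5
    have h1 : Real.log 5 ≤ Real.log (1000 / 163) := Real.log_le_log (by norm_num) (by norm_num)
    push_cast at h1 hlb ⊢
    rw [le_div_iff₀ (by positivity)]
    linarith
  · subst h4
    have h1 : Real.log 4 ≤ Real.log (2000 / 439) := Real.log_le_log (by norm_num) (by norm_num)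
    push_cast at h1 hlb ⊢
    rw [le_div_iff₀ (by positivity)]
    linarith
  · subst h3
    have h1 : Real.log 3 ≤ Real.log (10000 / 3201) := Real.log_le_log (by norm_num) (by norm_num)
    push_cast at h1 hlb ⊢
    rw [le_div_iff₀ (by positivity)]
    linarith
  · norm_num

theorem upper_all {b : ℕ} (hb : 2 ≤ b) {ε : ℝ} (hε : 0 < ε) :
    ∃ x₀ : ℝ, ∀ x : ℝ, x₀ ≤ x →
      ((((Icc 1 ⌊x⌋₊).filter
        (fun n : ℕ => (Nat.digits b n).reverse = Nat.digits b n)).filter Nat.Prime).card : ℝ) ≤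
      (2 / lev b + ε) * (((b ^ 3 - b : ℕ) : ℝ) / ((b ^ 3 - b).totient : ℝ)) *
        ((((Icc 1 ⌊x⌋₊).filter
          (fun n : ℕ => (Nat.digits b n).reverse = Nat.digits b n)).filter
          (fun n : ℕ => n.Coprime (b ^ 3 - b))).card : ℝ) / Real.log x := by
  have h4 := lev_ge hb
  set l := lev b with hl
  have hl0 : 0 < l := by linarith
  -- choose `θ < l` with `2 / θ ≤ 2 / l + ε / 2`
  set θ : ℝ := l / (1 + ε * l / 8) with hθ
  have hd : 1 < 1 + ε * l / 8 := by
    have : 0 < ε * l / 8 := by positivity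
    linarith
  have hθ0 : 0 < θ := by positivity
  have hθl : θ < l := by
    rw [hθ]
    exact div_lt_self hl0 hd
  have hl2 : l ≤ 1 / 2 := lev_le b hb
  have hθ2 : θ < 1 / 2 := by linarith
  have hcen : HasCen b θ := by
    rcases Nat.lt_or_ge 2 b with h2 | h2
    · exact (cen_sq_lev h2 hθ0.le hθ2 (by rw [← hl]; exact hθl)).1
    · have hb2 : b = 2 := by omega
      subst hb2
      refine cen_quarter le_rfl ?_
      have : l = 1 / 4 := by
        rw [hl]
        unfold lev
        norm_num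
      linarith
  obtain ⟨x₀, h⟩ := upper_gen hb hθ0 hθ2 hcen (ε := ε / 2) (by positivity)
  refine ⟨max x₀ 2, fun x hx => ?_⟩
  refine (h x ((le_max_left _ _).trans hx)).trans ?_
  have hx1 : 0 < Real.log x := Real.log_pos (by
    have := (le_max_right x₀ 2).trans hx
    linarith)
  have e : 2 / θ + ε / 2 ≤ 2 / l + ε := by
    have : 2 / θ = 2 / l + ε / 4 := by
      rw [hθ]
      field_simp
      ring
    rw [this]
    linarith
  gcongr

end Pool.Agent.PalM
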